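import Mathlib

/-!
# The abstract situation

A metric with natural values in which every four points contain a collinear triple, a set `S`,
and for every pair of points of `S` a chosen shortest path avoiding `S`.
-/

namespace MP86da66

/-- `y` is between `x` and `z`. -/
def Btw {V : Type*} (d : V → V → ℕ) (x y z : V) : Prop := d x y + d y z = d x z

/-- one of the three points is between the two others -/
def Coll {V : Type*} (d : V → V → ℕ) (x y z : V) : Prop :=
  Btw d y x z ∨ Btw d x y z ∨ Btw d x z y

structure Conf (V : Type*) where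
  d : V → V → ℕ
  S : V → Prop
  path : V → V → ℕ → V
  d_self : ∀ x, d x x = 0
  d_pos : ∀ x y, x ≠ y → 0 < d x y
  d_symm : ∀ x y, d x y = d y x
  d_tri : ∀ x y z, d x z ≤ d x y + d y z
  quad : ∀ a b c e, Coll d a b c ∨ Coll d a b e ∨ Coll d a c e ∨ Coll d b c e
  path_zero : ∀ x y, S x → S y → x ≠ y → path x y 0 = x
  path_end : ∀ x y, S x → S y → x ≠ y → path x y (d x y) = y
  path_dist : ∀ x y, S x → S y → x ≠ y → ∀ i j, i ≤ j → j ≤ d x y →
    d (path x y i) (path x y j) = j - i
  path_notS : ∀ x y, S x → S y → x ≠ y → ∀ t, 0 < t → t < d x y → ¬ S (path x y t)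
  path_symm : ∀ x y, S x → S y → x ≠ y → ∀ t, t ≤ d x y → path y x t = path x y (d x y - t)
  more : ∀ (k : ℕ) (s : ℕ → V), k < 8 → (∀ i < k, S (s i)) → ∃ x, S x ∧ ∀ i < k, s i ≠ x

variable {V : Type*} (C : Conf V)

/-- which of the three points is the middle one: `0` for none. -/
def Conf.dig (x y z : V) : ℕ :=
  if C.d y x + C.d x z = C.d y z then 1
  else if C.d x y + C.d y z = C.d x z then 2
  else if C.d x z + C.d z y = C.d x y then 3
  else 0

/-- `s` restricted to `0, …, k-1` is an injective tuple of points of `S`. -/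
structure Conf.Tup (k : ℕ) (s : ℕ → V) : Prop where
  mem : ∀ i < k, C.S (s i)
  inj : ∀ i j, i < k → j < k → s i = s j → i = j

end MP86da66
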