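import Pool.Agent.Lib.MP_86da66_co.DataM
import Pool.Agent.Lib.MP_86da66_co.Data5

/-! Generated certificate data. -/

namespace MP86da66

set_option maxRecDepth 1000000

theorem e0_ok : init4 qs [] (fun M => clrAll L5 M fun M => eqM M M0) = true := by
  decide +kernel

end MP86da66
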