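import Mathlib

/-!
# General position number and mutual visibility number

`d` is the shortest-path distance `G.dist`; a geodesic is a shortest walk.
-/

namespace MP86da66

open SimpleGraph

variable {V : Type*}

/-- `p` is a geodesic, i.e. a shortest path between its end points. -/
def IsGeodesic {G : SimpleGraph V} {u v : V} (p : G.Walk u v) : Prop :=
  p.length = G.dist u v

/-- `S` is in general position: no three distinct vertices of `S` lie on a common geodesic. -/
def GeneralPosition (G : SimpleGraph V) (S : Finset V) : Prop :=
  ∀ x ∈ S, ∀ y ∈ S, ∀ z ∈ S, x ≠ y → x ≠ z → y ≠ z →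
    ¬ ∃ (u v : V) (p : G.Walk u v), IsGeodesic p ∧ x ∈ p.support ∧ y ∈ p.support ∧ z ∈ p.support

/-- The general position number: the largest size of a general position set. -/
noncomputable def gp (G : SimpleGraph V) : ℕ :=
  sSup {n | ∃ S : Finset V, GeneralPosition G S ∧ S.card = n}

/-- `S` is a mutual visibility set: any two distinct vertices `u, v` of `S` are joined by a
geodesic none of whose internal vertices is in `S`. -/
def MutualVisibility (G : SimpleGraph V) (S : Finset V) : Prop :=
  ∀ u ∈ S, ∀ v ∈ S, u ≠ v →
    ∃ p : G.Walk u v, IsGeodesic p ∧ ∀ w ∈ p.support, w ∈ S → w = u ∨ w = v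

/-- The mutual visibility number: the largest size of a mutual visibility set. -/
noncomputable def mu (G : SimpleGraph V) : ℕ :=
  sSup {n | ∃ S : Finset V, MutualVisibility G S ∧ S.card = n}

end MP86da66
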