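import Pool.Agent.Lib.MP_86da66_co.LpDef

/-!
# Enumeration of patterns (definitions)

A pattern of a tuple of points is stored as a number with a base-4 digit for every triple
`i < j < l`, at bit position `64 + 2 i + 16 j + 128 l`. The lowest 64 bits have no meaning: they
only serve to give the numbers different hash values in the kernel.
-/

namespace MP86da66

/-- digit at bit position `s` -/
def dgs (p s : Nat) : Nat := Nat.land (Nat.shiftRight p s) 3

def off (i j l : Nat) : Nat :=
  Nat.add 64 (Nat.add (Nat.mul 2 i) (Nat.add (Nat.mul 16 j) (Nat.mul 128 l)))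

/-- digit one at `(i, j, l)` together with a contribution to the lowest 64 bits -/
def coef (i j l : Nat) : Nat :=
  Nat.add (Nat.land (Nat.mul 2654435761 (Nat.add (Nat.succ i) (Nat.add (Nat.mul 8 j)
    (Nat.mul 64 l)))) 4294967295) (Nat.shiftLeft 1 (off i j l))

/-- the lowest 64 bits -/
def low (p : Nat) : Nat := Nat.land p 18446744073709551615

/-- the other bits -/
def pay (p : Nat) : Nat := Nat.shiftRight p 64

/-- the set of admissible 5-point patterns: for the pattern `q` of the first four points the set
of the possible remaining digits, as a 4096-bit mask, shifted by 64 bits. -/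
abbrev MM := List (Nat × Nat)

def getM : MM → Nat → Nat
  | [], _ => 0
  | (a, m) :: t, q => cond (Nat.beq a q) m (getM t q)

/-- clear the bits `z` of the mask of `q`; then set the bits `v` -/
def clr (v : Nat) : MM → Nat → Nat → (MM → Bool) → Bool
  | [], _, _, k => k []
  | (a, m) :: t, q, z, k =>
    cond (Nat.beq a q) (force (Nat.lor (Nat.xor m (Nat.land m z)) v) fun m' => k ((a, m') :: t))
      (clr v t q z fun t' => k ((a, m) :: t'))

/-- admissible 4-point patterns -/
def M4 : Nat := 0x483302000040053720008403502550070080092984110919903b090b5015dd3e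

/-- 4-point pattern (first four points `g < h < i < j`) as a number below 256 -/
def q4 (p g h i j : Nat) : Nat :=
  Nat.add (Nat.mul (Nat.add (Nat.mul (Nat.add (Nat.mul (dgs p (off g h i)) 4)
    (dgs p (off g h j))) 4) (dgs p (off g i j))) 4) (dgs p (off h i j))

structure Chk5 where
  T : Nat
  s1 : Nat
  s2 : Nat
  s3 : Nat
  s4 : Nat
  s5 : Nat

def nib5 (c : Chk5) (p : Nat) : Nat :=
  Nat.land (Nat.shiftRight c.T (Nat.mul 4 (Nat.add (Nat.mul (Nat.add (Nat.mul (Nat.succ (Nat.add
    (Nat.mul (Nat.add (Nat.mul (dgs p c.s1) 4) (dgs p c.s2)) 4) (dgs p c.s3))) 4)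
      (dgs p c.s4)) 4) (dgs p c.s5)))) 15

def nib4 (p j k : Nat) : Nat :=
  Nat.land (Nat.shiftRight M4 (Nat.mul 4 (Nat.add (Nat.mul (Nat.add (Nat.mul
    (dgs p (off 0 1 j)) 4) (dgs p (off 0 1 k))) 4) (dgs p (off 0 j k))))) 15

def mkChk (M : MM) (r k g h i j : Nat) (cont : Chk5 → Bool) : Bool :=
  force (q4 r g h i j) fun q => force (getM M q) fun T =>
  force (off g h k) fun s1 => force (off g i k) fun s2 =>
  force (off h i k) fun s3 => force (off g j k) fun s4 => force (off h j k) fun s5 =>
  cont ⟨T, s1, s2, s3, s4, s5⟩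

def chksG (M : MM) (r k h i j : Nat) : Nat → List Chk5 → (List Chk5 → Bool) → Bool
  | 0, acc, cont => cont acc
  | g + 1, acc, cont => mkChk M r k g h i j fun c => chksG M r k h i j g (c :: acc) cont

def chksH (M : MM) (r k i j : Nat) : Nat → List Chk5 → (List Chk5 → Bool) → Bool
  | 0, acc, cont => cont acc
  | h + 1, acc, cont => chksG M r k h i j h acc fun acc => chksH M r k i j h acc cont

def nibAll : List Chk5 → Nat → Nat → Nat
  | [], _, acc => acc
  | c :: t, p, acc =>
    force (Nat.land acc (nib5 c p)) fun a => cond (Nat.beq a 0) 0 (nibAll t p a)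

def optb (nb p c b : Nat) (acc : List Nat) (cont : List Nat → Bool) : Bool :=
  cond (Nat.beq (Nat.land (Nat.shiftRight nb b) 1) 1)
    (force (Nat.add p (Nat.mul b c)) fun x => cont (x :: acc)) (cont acc)

def opts (nb p c : Nat) (acc : List Nat) (cont : List Nat → Bool) : Bool :=
  optb nb p c 0 acc fun acc => optb nb p c 1 acc fun acc => optb nb p c 2 acc fun acc =>
    optb nb p c 3 acc cont

/-- all continuations of the partial patterns in the list by a digit with coefficient `c`;
`nf p` is the set of allowed digits -/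
def mapL (nf : Nat → Nat) (c : Nat) : List Nat → List Nat → (List Nat → Bool) → Bool
  | [], acc, cont => cont acc
  | p :: t, acc, cont => force (nf p) fun nb =>
      opts nb p c acc fun acc => mapL nf c t acc cont

/-- produces the function giving the set of allowed digits at `(i, j, k)` -/
abbrev Mk := Nat → Nat → ((Nat → Nat) → Bool) → Bool

def rowI (mk : Mk) (k j : Nat) : Nat → Nat → List Nat → (List Nat → Bool) → Bool
  | 0, _, L, cont => cont L
  | m + 1, i, L, cont => mk i j fun nf => force (coef i j k) fun c =>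
      mapL nf c L [] fun L' => force (Nat.succ i) fun i' => rowI mk k j m i' L' cont

def rows (mk : Mk) (k : Nat) : Nat → Nat → List Nat → (List Nat → Bool) → Bool
  | 0, _, L, cont => cont L
  | m + 1, j, L, cont => rowI mk k j j 0 L fun L' => force (Nat.succ j) fun j' =>
      rows mk k m j' L' cont

/-- the tests with 5-point patterns; `r` is the pattern of the first `k` points -/
def mk5 (M : MM) (r k : Nat) : Mk := fun i j cont =>
  match i with
  | 0 => cont fun _ => 15
  | 1 => cont fun p => nib4 p j k
  | _ => chksH M r k i j i [] fun cs => cont fun p => nibAll cs p 15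

/-- `e` is a pattern of the points `0, …, k-2, y`; get the partial pattern of
`0, …, k-1, y` (row `k-1` of the new point is still missing). -/
def liftG (k r : Nat) : List Nat → List Nat → (List Nat → Bool) → Bool
  | [], acc, cont => cont acc
  | e :: t, acc, cont =>
    force (Nat.add (low e) (Nat.add r (Nat.shiftLeft (Nat.shiftRight e
      (Nat.add 64 (Nat.mul 128 (Nat.pred k)))) (Nat.add 64 (Nat.mul 128 k)))))
      fun x => liftG k r t (x :: acc) cont

def lift (k r : Nat) (E acc : List Nat) (cont : List Nat → Bool) : Bool :=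
  force (Nat.shiftLeft (pay r) 64) fun r' => liftG k r' E acc cont

/-- `f` is a pattern of `k + 1` points extending `r` -/
def repOK (k r f : Nat) : Bool :=
  and (lt f (Nat.shiftLeft 1 (Nat.add 64 (Nat.mul 128 (Nat.succ k)))))
    (and (lt (low f) 4398046511104)
      (Nat.beq (Nat.mod (pay f) (Nat.shiftLeft 1 (Nat.mul 128 k))) (pay r)))

/-! ### permutations -/

def tab (T v : Nat) : Nat := Nat.land (Nat.shiftRight T (Nat.mul 2 v)) 3

/-- digit of the triple `(x, y, z)` of distinct numbers, from the sorted digits `D` -/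
def relab (D : Nat → Nat → Nat → Nat) (x y z : Nat) : Nat :=
  cond (lt x y)
    (cond (lt y z) (D x y z)
      (cond (lt x z) (tab 180 (D x z y)) (tab 156 (D z x y))))
    (cond (lt x z) (tab 216 (D y x z))
      (cond (lt y z) (tab 120 (D y z x)) (tab 108 (D z y x))))

/-- entry `a` of the permutation `s` -/
def sg (s a : Nat) : Nat := Nat.land (Nat.shiftRight s (Nat.mul 3 a)) 7

def pcA (D : Nat → Nat → Nat → Nat) (c s f b sf sb : Nat) : Nat → Bool
  | 0 => true
  | a + 1 => and (Nat.beq (relab D (sg s a) sb sf) (dgs c (off a b f))) (pcA D c s f b sf sb a)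

def pcB (D : Nat → Nat → Nat → Nat) (c s f sf : Nat) : Nat → Bool
  | 0 => true
  | b + 1 => and (force (sg s b) fun sb => pcA D c s f b sf sb b) (pcB D c s f sf b)

def pcF (D : Nat → Nat → Nat → Nat) (c s : Nat) : Nat → Bool
  | 0 => true
  | f + 1 => and (force (sg s f) fun sf => pcB D c s f sf f) (pcF D c s f)

/-- union of the one-bit masks of the entries -/
def sgOr (s : Nat) : Nat → Nat
  | 0 => 0
  | a + 1 => Nat.lor (Nat.shiftLeft 1 (sg s a)) (sgOr s a)

/-- `s` permutes `0, …, k-1` and moves the pattern `D` to `c` -/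
def permOK (k s : Nat) (D : Nat → Nat → Nat → Nat) (c : Nat) : Bool :=
  and (Nat.beq (Nat.succ (sgOr s k)) (Nat.shiftLeft 1 k)) (pcF D c s k)

def codeD (p : Nat) (i j l : Nat) : Nat := dgs p (off i j l)

def nth : List Nat → Nat → Nat
  | [], _ => 0
  | a :: _, 0 => a
  | _ :: t, n + 1 => nth t n

/-- certificate word `w`: permutation (24 bits) and index into the list `B` -/
def permB (k w f : Nat) (B : List Nat) : Bool :=
  and (lt (Nat.shiftRight w 24) (List.length B))
    (force (nth B (Nat.shiftRight w 24)) fun c => permOK k w (codeD f) c)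

def e7 (B8 : List Nat) : List Nat → List Nat → (List Nat → Bool) → Bool
  | [], cs, k => k cs
  | _ :: _, [], _ => false
  | f :: t, w :: cs, k => and (permB 8 w f B8) (e7 B8 t cs k)

def e6 (M : MM) (r : Nat) (B8 E : List Nat) : List Nat → List Nat → List Nat →
    (List Nat → List Nat → Bool) → Bool
  | [], cs, B7, k => k cs B7
  | _ :: _, [], _, _ => false
  | f :: t, w :: cs, B7, k =>
    cond (Nat.beq w 0)
      (and (repOK 6 r f)
        (lift 7 f E [] fun L => rows (mk5 M f 7) 7 1 6 L fun E7 =>
        e7 B8 E7 cs fun cs => e6 M r B8 E t cs (f :: B7) k))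
      (and (permB 7 w f B7) (e6 M r B8 E t cs B7 k))

def e5 (M : MM) (r : Nat) (B8 E : List Nat) : List Nat → List Nat → List Nat → List Nat →
    (List Nat → List Nat → List Nat → Bool) → Bool
  | [], cs, B6, B7, k => k cs B6 B7
  | _ :: _, [], _, _, _ => false
  | f :: t, w :: cs, B6, B7, k =>
    cond (Nat.beq w 0)
      (and (repOK 5 r f)
        (lift 6 f E [] fun L => rows (mk5 M f 6) 6 1 5 L fun E6 =>
        e6 M f B8 E6 E6 cs B7 fun cs B7 => e5 M r B8 E t cs (f :: B6) B7 k))
      (and (permB 6 w f B6) (e5 M r B8 E t cs B6 B7 k))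

/-- digits of the 5-point pattern with first part `q`, second part `r` -/
def dqr (q r i j l : Nat) : Nat :=
  cond (lt l 4)
    (dgs q (cond (lt l 3) 6 (cond (lt j 2) 4 (cond (lt i 1) 2 0))))
    (dgs r (cond (lt j 2) 10 (cond (lt j 3) (Nat.sub 8 (Nat.mul 2 i))
      (Nat.sub 4 (Nat.mul 2 i)))))

def clrItems (c q : Nat) : Nat → Nat → Nat → (Nat → Bool) → Bool
  | 0, _, z, k => k z
  | n + 1, w, z, k =>
    force (Nat.land w 4095) fun r => force (Nat.land (Nat.shiftRight w 12) 32767) fun s =>
    and (permOK 5 s (dqr q r) c) (force (Nat.lor z (Nat.shiftLeft 1 (Nat.add 64 r))) fun z =>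
      force (Nat.shiftRight w 27) fun w => clrItems c q n w z k)

/-- clear all patterns isomorphic to `c` listed in the certificate -/
def clrClass (c : Nat) : List Nat → MM → (MM → Bool) → Bool
  | [], M, k => k M
  | w :: t, M, k =>
    force (Nat.land w 255) fun q => clrItems c q (Nat.land (Nat.shiftRight w 8) 255)
      (Nat.shiftRight w 16) 18446744073709551615 fun z => force (low w) fun v =>
      clr v M q z fun M' => clrClass c t M' k

/-- data of a seed: the 5-point pattern, the enumeration certificate, the clearing certificate -/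
structure Seed where
  r : Nat
  cs : List Nat
  gs : List Nat

def runSeeds (B8 : List Nat) : List Seed → MM → List Nat → List Nat →
    (MM → List Nat → List Nat → Bool) → Bool
  | [], M, B6, B7, k => k M B6 B7
  | s :: t, M, B6, B7, k =>
    and (and (lt s.r (Nat.shiftLeft 1 704)) (lt (low s.r) 4398046511104)) (rows (mk5 M s.r 5) 5 4 1 [s.r] fun E5 =>
      e5 M s.r B8 E5 E5 s.cs B6 B7 fun _ B6 B7 => clrClass s.r s.gs M fun M =>
        runSeeds B8 t M B6 B7 k)

def clrAll : List Seed → MM → (MM → Bool) → Bool
  | [], M, k => k M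
  | s :: t, M, k => clrClass s.r s.gs M fun M => clrAll t M k

/-- all masks are empty -/
def allZero : MM → Bool
  | [] => true
  | (_, m) :: t => and (Nat.beq (pay m) 0) (allZero t)

def eqL : List Nat → List Nat → Bool
  | [], [] => true
  | a :: t, b :: u => and (Nat.beq a b) (eqL t u)
  | _, _ => false

def eqM : MM → MM → Bool
  | [], [] => true
  | (a, m) :: t, (b, n) :: u => and (Nat.beq a b) (and (Nat.beq m n) (eqM t u))
  | _, _ => false

/-! ### the first masks -/

def nib4g (p h i j k : Nat) : Nat :=
  Nat.land (Nat.shiftRight M4 (Nat.mul 4 (Nat.add (Nat.mul (Nat.add (Nat.mul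
    (dgs p (off h i j)) 4) (dgs p (off h i k))) 4) (dgs p (off h j k))))) 15

def nib4A (p i j k : Nat) : Nat → Nat → Nat
  | 0, acc => acc
  | h + 1, acc => nib4A p i j k h (Nat.land acc (nib4g p h i j k))

def mk4 : Mk := fun i j cont => cont fun p => nib4A p i j 4 i 15

/-- the 4-point pattern number `q` as a pattern -/
def expand (q : Nat) : Nat :=
  Nat.add q (Nat.add (Nat.shiftLeft (dgs q 6) (off 0 1 2))
    (Nat.add (Nat.shiftLeft (dgs q 4) (off 0 1 3))
    (Nat.add (Nat.shiftLeft (dgs q 2) (off 0 2 3)) (Nat.shiftLeft (dgs q 0) (off 1 2 3)))))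

/-- second part of the 5-point pattern -/
def r6 (p : Nat) : Nat :=
  Nat.add (Nat.mul (Nat.add (Nat.mul (Nat.add (Nat.mul (Nat.add (Nat.mul (Nat.add (Nat.mul
    (dgs p (off 0 1 4)) 4) (dgs p (off 0 2 4))) 4) (dgs p (off 1 2 4))) 4)
    (dgs p (off 0 3 4))) 4) (dgs p (off 1 3 4))) 4) (dgs p (off 2 3 4))

def orAll : List Nat → Nat → (Nat → Bool) → Bool
  | [], z, k => k z
  | p :: t, z, k => force (Nat.lor z (Nat.shiftLeft 1 (Nat.add 64 (r6 p)))) fun z => orAll t z k

def init4 : List Nat → MM → (MM → Bool) → Bool
  | [], M, k => k M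
  | q :: t, M, k => force (expand q) fun p => rows mk4 4 3 1 [p] fun E => orAll E q fun z =>
      init4 t ((q, z) :: M) k

/-! ### lists of kills -/

/-- certificates `(pattern, proof)` for `K` points -/
def kills (K : Nat) : List (Nat × Cert) → Bool
  | [] => true
  | (q, c) :: t => and (force (pay q) fun p => kill K p c) (kills K t)

/-- the same for four points, where the patterns are given by their numbers -/
def kills4 : List (Nat × Cert) → Bool
  | [] => true
  | (q, c) :: t => and (force (pay (expand q)) fun p => kill 4 p c) (kills4 t)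

def mask4 : List (Nat × Cert) → Nat → Nat
  | [], z => z
  | (q, _) :: t, z => mask4 t (Nat.lor z (Nat.shiftLeft 1 q))

/-- the same for five points; here `s.cs` is the proof -/
def kills5 : List Seed → Bool
  | [] => true
  | s :: t => and (force (pay s.r) fun p => kill 5 p s.cs) (kills5 t)

end MP86da66
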