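import Pool.Agent.Lib.MP_86da66_co.LpSound4
import Pool.Agent.Lib.MP_86da66_co.EnumDef

namespace MP86da66

variable {V : Type*} {C : Conf V}

/-! ### digits -/

lemma dgs_eq (p s : ℕ) : dgs p s = p / 2 ^ s % 4 := by
  unfold dgs
  have : Nat.land (Nat.shiftRight p s) 3 = (p >>> s) % 4 := by
    have := Nat.and_two_pow_sub_one_eq_mod (p >>> s) 2
    simpa using this
  rw [this, Nat.shiftRight_eq_div_pow]

lemma dgs_lt (p s : ℕ) : dgs p s < 4 := by rw [dgs_eq]; exact Nat.mod_lt _ (by norm_num)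

lemma pay_eq (p : ℕ) : pay p = p / 18446744073709551616 := by
  unfold pay
  change p >>> 64 = _
  rw [Nat.shiftRight_eq_div_pow]

lemma low_eq (p : ℕ) : low p = p % 18446744073709551616 := by
  unfold low
  exact Nat.and_two_pow_sub_one_eq_mod p 64

lemma off_eq (i j l : ℕ) : off i j l = 64 + 2 * (i + 8 * j + 64 * l) := by
  unfold off
  change 64 + (2 * i + (16 * j + 128 * l)) = _
  ring

lemma two64 : (2 : ℕ) ^ 64 = 18446744073709551616 := by norm_num

lemma dgs_off (p i j l : ℕ) : dgs p (off i j l) = dgs (pay p) (2 * (i + 8 * j + 64 * l)) := by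
  rw [off_eq, dgs_eq, dgs_eq, pay_eq, Nat.div_div_eq_div_mul, pow_add, two64]

lemma dig_lt (x y z : V) : C.dig x y z < 4 := by
  unfold Conf.dig; split_ifs <;> omega

/-- reading a digit of a sum, below -/
lemma dgs_add_low {p b n m : ℕ} (h : m < n) : dgs (p + b * 2 ^ (2 * n)) (2 * m) = dgs p (2 * m) := by
  rw [dgs_eq, dgs_eq]
  obtain ⟨e, rfl⟩ := Nat.exists_eq_add_of_lt h
  have : b * 2 ^ (2 * (m + e + 1)) = 2 ^ (2 * m) * (4 * (b * 2 ^ (2 * e))) := by
    rw [show 2 * (m + e + 1) = 2 * m + 2 * e + 2 by ring, pow_add, pow_add]; ring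
  rw [this, Nat.add_mul_div_left _ _ (by positivity)]
  omega

/-- reading a digit of a sum, above -/
lemma dgs_add_high {p b n m : ℕ} (hp : p < 2 ^ (2 * n)) (h : n ≤ m) :
    dgs (p + b * 2 ^ (2 * n)) (2 * m) = dgs b (2 * (m - n)) := by
  rw [dgs_eq, dgs_eq]
  obtain ⟨e, rfl⟩ := Nat.exists_eq_add_of_le h
  rw [show 2 * (n + e) = 2 * n + 2 * e by ring, pow_add, ← Nat.div_div_eq_div_mul,
    Nat.add_mul_div_right _ _ (by positivity), Nat.div_eq_of_lt hp, zero_add]
  congr 3
  omega

/-- `p` has the digits of the tuple `s` of `k` points. -/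
def Fits (C : Conf V) (s : ℕ → V) (p k : ℕ) : Prop :=
  ∀ i j l, i < j → j < l → l < k → dgs p (off i j l) = C.dig (s i) (s j) (s l)

/-- `p` has the digits of the tuple up to position `n`, and no other ones. -/
def FitsB (C : Conf V) (s : ℕ → V) (p n : ℕ) : Prop :=
  (low p ≤ n * 17179869184 ∧ pay p < 2 ^ (2 * n)) ∧ ∀ i j l, i < j → j < l → l < 8 →
    i + 8 * j + 64 * l < n → dgs p (off i j l) = C.dig (s i) (s j) (s l)

def Bad (C : Conf V) (k c : ℕ) : Prop := ∀ s, C.Tup k s → ¬ Fits C s c k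

lemma FitsB.skip {s : ℕ → V} {p n n' : ℕ} (h : FitsB C s p n) (hn : n ≤ n')
    (hv : ∀ i j l, i < j → j < l → l < 8 → i + 8 * j + 64 * l < n' → i + 8 * j + 64 * l < n) :
    FitsB C s p n' :=
  ⟨⟨h.1.1.trans (by omega), lt_of_lt_of_le h.1.2 (Nat.pow_le_pow_right (by norm_num) (by omega))⟩,
    fun i j l h1 h2 h3 h4 => h.2 i j l h1 h2 h3 (hv i j l h1 h2 h3 h4)⟩

/-- adding digits does not disturb the lowest part -/
lemma pay_add {p c m : ℕ} (h : low p + c < 18446744073709551616) :
    pay (p + (c + m * 18446744073709551616)) = pay p + m ∧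
      low (p + (c + m * 18446744073709551616)) = low p + c := by
  rw [low_eq] at h
  rw [pay_eq, pay_eq, low_eq, low_eq]
  omega

lemma coef_eq (i j l : ℕ) : ∃ h, h < 4294967296 ∧
    coef i j l = h + 2 ^ (2 * (i + 8 * j + 64 * l)) * 18446744073709551616 := by
  refine ⟨Nat.land (Nat.mul 2654435761 (Nat.add (Nat.succ i) (Nat.add (Nat.mul 8 j)
      (Nat.mul 64 l)))) 4294967295, ?_, ?_⟩
  · generalize Nat.mul 2654435761 (Nat.add (Nat.succ i) (Nat.add (Nat.mul 8 j)
      (Nat.mul 64 l))) = m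
    have := Nat.and_two_pow_sub_one_eq_mod m 32
    have h2 : Nat.land m 4294967295 = m % 2 ^ 32 := this
    rw [h2]
    exact Nat.mod_lt _ (by norm_num)
  · unfold coef
    generalize Nat.land (Nat.mul 2654435761 (Nat.add (Nat.succ i) (Nat.add (Nat.mul 8 j)
      (Nat.mul 64 l)))) 4294967295 = m
    change m + (1 <<< off i j l) = _
    rw [Nat.one_shiftLeft, off_eq, pow_add, mul_comm (2 ^ 64), two64]

lemma FitsB.step {s : ℕ → V} {p i j k : ℕ} (hij : i < j) (hjk : j < k) (hk : k < 8)
    (h : FitsB C s p (i + 8 * j + 64 * k)) :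
    FitsB C s (p + C.dig (s i) (s j) (s k) * coef i j k) (i + 8 * j + 64 * k + 1) := by
  set n := i + 8 * j + 64 * k with hn
  have hb := dig_lt (C := C) (s i) (s j) (s k)
  set b := C.dig (s i) (s j) (s k) with hbd
  obtain ⟨e, he, hc⟩ := coef_eq i j k
  have hbe : b * e ≤ 3 * 4294967296 := Nat.mul_le_mul (by omega) he.le
  have hx : p + b * coef i j k = p + (b * e + (b * 2 ^ (2 * n)) * 18446744073709551616) := by
    rw [hc]; ring
  have hlow := h.1.1
  obtain ⟨h1, h2⟩ := pay_add (p := p) (c := b * e) (m := b * 2 ^ (2 * n)) (by omega)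
  rw [← hx] at h1 h2
  refine ⟨⟨by rw [h2]; omega, ?_⟩, ?_⟩
  · rw [h1, show 2 * (n + 1) = 2 * n + 2 by ring, pow_add]
    have h3 := h.1.2
    have : b * 2 ^ (2 * n) ≤ 3 * 2 ^ (2 * n) := Nat.mul_le_mul_right _ (by omega)
    omega
  · intro i' j' l' g1 g2 g3 g4
    rw [dgs_off, h1]
    by_cases he' : i' + 8 * j' + 64 * l' = n
    · have e1 : l' = k := by omega
      have e2 : j' = j := by omega
      have e3 : i' = i := by omega
      subst e1 e2 e3
      rw [he', dgs_add_high h.1.2 le_rfl, Nat.sub_self, dgs_eq]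
      simp
      omega
    · rw [dgs_add_low (by omega), ← dgs_off]
      exact h.2 i' j' l' g1 g2 g3 (by omega)

lemma FitsB.fits {s : ℕ → V} {p k : ℕ} (hk : k < 8) (h : FitsB C s p (72 * k)) :
    Fits C s p (k + 1) := by
  intro i j l h1 h2 h3
  exact h.2 i j l h1 h2 (by omega) (by omega)

lemma Fits.fitsB {s : ℕ → V} {p k : ℕ} (hl : low p ≤ (64 * k) * 17179869184)
    (hp : pay p < 2 ^ (128 * k)) (h : Fits C s p k) :
    FitsB C s p (64 * k) := by
  refine ⟨⟨hl, by rwa [show 2 * (64 * k) = 128 * k by ring]⟩, ?_⟩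
  intro i j l h1 h2 h3 h4
  exact h i j l h1 h2 (by omega)

/-! ### options -/

lemma testBit_iff (nb b : ℕ) :
    Nat.beq (Nat.land (Nat.shiftRight nb b) 1) 1 = true ↔ nb.testBit b = true := by
  rw [Nat.beq_eq]
  have : Nat.land (Nat.shiftRight nb b) 1 = (nb >>> b) % 2 := by
    have := Nat.and_two_pow_sub_one_eq_mod (nb >>> b) 1
    simpa using this
  rw [this, Nat.shiftRight_eq_div_pow, Nat.testBit_eq_decide_div_mod_eq]
  simp

lemma optb_sound {nb p c b : ℕ} {acc : List ℕ} {cont : List ℕ → Bool}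
    (h : optb nb p c b acc cont = true) :
    ∃ acc', cont acc' = true ∧ (∀ x ∈ acc, x ∈ acc') ∧
      (nb.testBit b = true → p + b * c ∈ acc') := by
  unfold optb at h
  cases hb : Nat.beq (Nat.land (Nat.shiftRight nb b) 1) 1
  · rw [hb] at h
    refine ⟨acc, h, fun x hx => hx, fun ht => ?_⟩
    rw [← testBit_iff, hb] at ht
    simp at ht
  · rw [hb] at h
    simp only [cond_true, force_eq] at h
    exact ⟨_, h, fun x hx => List.mem_cons_of_mem _ hx, fun _ => List.mem_cons_self⟩

lemma opts_sound {nb p c : ℕ} {acc : List ℕ} {cont : List ℕ → Bool}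
    (h : opts nb p c acc cont = true) :
    ∃ acc', cont acc' = true ∧ (∀ x ∈ acc, x ∈ acc') ∧
      ∀ b, b < 4 → nb.testBit b = true → p + b * c ∈ acc' := by
  unfold opts at h
  obtain ⟨a0, h, m0, t0⟩ := optb_sound h
  obtain ⟨a1, h, m1, t1⟩ := optb_sound h
  obtain ⟨a2, h, m2, t2⟩ := optb_sound h
  obtain ⟨a3, h, m3, t3⟩ := optb_sound h
  refine ⟨a3, h, fun x hx => m3 _ (m2 _ (m1 _ (m0 _ hx))), ?_⟩
  intro b hb ht
  interval_cases b
  · exact m3 _ (m2 _ (m1 _ (t0 ht)))
  · exact m3 _ (m2 _ (t1 ht))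
  · exact m3 _ (t2 ht)
  · exact t3 ht

lemma mapL_sound {nf : ℕ → ℕ} {c : ℕ} {L : List ℕ} : ∀ {acc : List ℕ} {cont : List ℕ → Bool},
    mapL nf c L acc cont = true →
    ∃ L', cont L' = true ∧ (∀ x ∈ acc, x ∈ L') ∧
      ∀ p ∈ L, ∀ b, b < 4 → (nf p).testBit b = true → p + b * c ∈ L' := by
  induction L with
  | nil => intro acc cont h; exact ⟨acc, h, fun x hx => hx, by simp⟩
  | cons p t ih =>
    intro acc cont h
    unfold mapL at h
    rw [force_eq] at h
    obtain ⟨a1, h, m1, t1⟩ := opts_sound h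
    obtain ⟨L', h, m2, t2⟩ := ih h
    refine ⟨L', h, fun x hx => m2 _ (m1 _ hx), ?_⟩
    intro q hq b hb ht
    rcases List.mem_cons.mp hq with rfl | hq
    · exact m2 _ (t1 b hb ht)
    · exact t2 q hq b hb ht

/-- correctness of the digit filters -/
def MkOK (C : Conf V) (r k : ℕ) (mk : Mk) : Prop :=
  ∀ i j cont, i < j → j < k → mk i j cont = true → ∃ nf, cont nf = true ∧
    ∀ s p, C.Tup (k + 1) s → Fits C s r k → FitsB C s p (i + 8 * j + 64 * k) →
      (nf p).testBit (C.dig (s i) (s j) (s k)) = true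

lemma rowI_sound {r k j : ℕ} {mk : Mk} (hmk : MkOK C r k mk) (hk : k < 8) (hj : j < k) (m : ℕ) :
    ∀ {i : ℕ} {L : List ℕ} {cont : List ℕ → Bool}, i + m = j →
    rowI mk k j m i L cont = true → ∃ L', cont L' = true ∧
      ∀ s, C.Tup (k + 1) s → Fits C s r k → (∃ p ∈ L, FitsB C s p (i + 8 * j + 64 * k)) →
        ∃ p ∈ L', FitsB C s p (j + 8 * j + 64 * k) := by
  induction m with
  | zero =>
    intro i L cont him h
    have : i = j := by omega
    subst this
    exact ⟨L, h, fun s _ _ hp => hp⟩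
  | succ m ih =>
    intro i L cont him h
    unfold rowI at h
    obtain ⟨nf, h, hnf⟩ := hmk i j _ (by omega) hj h
    rw [force_eq] at h
    obtain ⟨L1, h, _, hL1⟩ := mapL_sound h
    rw [force_eq] at h
    obtain ⟨L2, h, hL2⟩ := ih (by omega) h
    refine ⟨L2, h, fun s hs hf hp => ?_⟩
    obtain ⟨p, hpL, hp⟩ := hp
    apply hL2 s hs hf
    refine ⟨_, hL1 p hpL _ (dig_lt _ _ _) (hnf s p hs hf hp), ?_⟩
    have := hp.step (by omega) hj hk
    rw [show Nat.succ i + 8 * j + 64 * k = i + 8 * j + 64 * k + 1 by omega]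
    exact this

lemma rows_sound {r k : ℕ} {mk : Mk} (hmk : MkOK C r k mk) (hk : k < 8) (m : ℕ) :
    ∀ {j : ℕ} {L : List ℕ} {cont : List ℕ → Bool}, j + m = k →
    rows mk k m j L cont = true → ∃ L', cont L' = true ∧
      ∀ s, C.Tup (k + 1) s → Fits C s r k → (∃ p ∈ L, FitsB C s p (8 * j + 64 * k)) →
        ∃ p ∈ L', FitsB C s p (72 * k) := by
  induction m with
  | zero =>
    intro j L cont him h
    have : j = k := by omega
    subst this
    refine ⟨L, h, fun s _ _ hp => ?_⟩
    rw [show 72 * j = 8 * j + 64 * j by ring]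
    exact hp
  | succ m ih =>
    intro j L cont him h
    unfold rows at h
    obtain ⟨L1, h, hL1⟩ := rowI_sound hmk hk (by omega) j (by omega) h
    rw [force_eq] at h
    obtain ⟨L2, h, hL2⟩ := ih (by omega) h
    refine ⟨L2, h, fun s hs hf hp => ?_⟩
    apply hL2 s hs hf
    obtain ⟨p, hpL, hp⟩ := hL1 s hs hf (by simpa using hp)
    refine ⟨p, hpL, hp.skip (by omega) ?_⟩
    intro i' j' l' h1 h2 h3 h4
    omega

/-- the list `E` contains all patterns of `k+1` points extending `r` -/
def Cov (C : Conf V) (k r : ℕ) (E : List ℕ) : Prop :=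
  ∀ s, C.Tup (k + 1) s → Fits C s r k → ∃ e ∈ E, FitsB C s e (72 * k)

lemma Conf.Tup.mono {k k' : ℕ} {s : ℕ → V} (h : C.Tup k s) (hk : k' ≤ k) : C.Tup k' s :=
  ⟨fun i hi => h.mem i (by omega), fun i j hi hj => h.inj i j (by omega) (by omega)⟩

lemma Fits.congr {k p : ℕ} {s s' : ℕ → V} (h : Fits C s p k) (he : ∀ i, i < k → s i = s' i) :
    Fits C s' p k := by
  intro i j l h1 h2 h3
  rw [← he i (by omega), ← he j (by omega), ← he l (by omega)]
  exact h i j l h1 h2 h3

lemma bad_of_cov {k r : ℕ} {E : List ℕ} (hk : k < 8) (hc : Cov C k r E)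
    (hb : ∀ e ∈ E, Bad C (k + 1) e) : Bad C k r := by
  intro s hs hf
  obtain ⟨y, hy, hne⟩ := C.more k s hk hs.mem
  set s' : ℕ → V := Function.update s k y with hs'
  have e1 : ∀ i, i < k → s' i = s i := fun i hi => Function.update_of_ne (by omega) _ _
  have e2 : s' k = y := Function.update_self _ _ _
  have ht : C.Tup (k + 1) s' := by
    refine ⟨?_, ?_⟩
    · intro i hi
      by_cases h : i = k
      · subst h; rw [e2]; exact hy
      · rw [e1 i (by omega)]; exact hs.mem i (by omega)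
    · intro i j hi hj he
      by_cases h1 : i = k
      · by_cases h2 : j = k
        · omega
        · subst h1
          rw [e2, e1 j (by omega)] at he
          exact absurd he.symm (hne j (by omega))
      · by_cases h2 : j = k
        · subst h2
          rw [e2, e1 i (by omega)] at he
          exact absurd he (hne i (by omega))
        · rw [e1 i (by omega), e1 j (by omega)] at he
          exact hs.inj i j (by omega) (by omega) he
  obtain ⟨e, he, hfe⟩ := hc s' ht (hf.congr (fun i hi => (e1 i hi).symm))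
  exact hb e he s' ht (hfe.fits hk)

lemma liftG_sound {k r : ℕ} {E : List ℕ} : ∀ {acc : List ℕ} {cont : List ℕ → Bool},
    liftG k r E acc cont = true → ∃ L', cont L' = true ∧ (∀ x ∈ acc, x ∈ L') ∧
      ∀ e ∈ E, low e + (r + (pay e / 2 ^ (128 * (k - 1))) * 2 ^ (128 * k) *
        18446744073709551616) ∈ L' := by
  induction E with
  | nil => intro acc cont h; exact ⟨acc, h, fun x hx => hx, by simp⟩
  | cons e t ih =>
    intro acc cont h
    unfold liftG at h
    rw [force_eq] at h
    obtain ⟨L', h, m1, t1⟩ := ih h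
    refine ⟨L', h, fun x hx => m1 _ (List.mem_cons_of_mem _ hx), ?_⟩
    intro e' he'
    rcases List.mem_cons.mp he' with rfl | he'
    · apply m1
      have : Nat.add (low e') (Nat.add r (Nat.shiftLeft (Nat.shiftRight e'
          (Nat.add 64 (Nat.mul 128 (Nat.pred k)))) (Nat.add 64 (Nat.mul 128 k)))) =
          low e' + (r + (pay e' / 2 ^ (128 * (k - 1))) * 2 ^ (128 * k) *
            18446744073709551616) := by
        change low e' + (r + (e' >>> (64 + 128 * (k - 1))) <<< (64 + 128 * k)) = _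
        rw [Nat.shiftLeft_eq, Nat.shiftRight_eq_div_pow, pay_eq, Nat.div_div_eq_div_mul,
          pow_add, pow_add, two64]
        ring
      rw [this]
      simp
    · exact t1 e' he'

lemma lift_sound {k r : ℕ} {E : List ℕ} {acc : List ℕ} {cont : List ℕ → Bool}
    (h : lift k r E acc cont = true) : ∃ L', cont L' = true ∧
      ∀ e ∈ E, low e + (pay r + (pay e / 2 ^ (128 * (k - 1))) * 2 ^ (128 * k)) *
        18446744073709551616 ∈ L' := by
  unfold lift at h
  rw [force_eq] at h
  obtain ⟨L', h, _, h2⟩ := liftG_sound h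
  refine ⟨L', h, fun e he => ?_⟩
  have := h2 e he
  have h3 : Nat.shiftLeft (pay r) 64 = pay r * 18446744073709551616 := by
    change pay r <<< 64 = _
    rw [Nat.shiftLeft_eq]
  rw [h3, ← add_mul] at this
  exact this

lemma repOK_sound {k r f : ℕ} (h : repOK k r f = true) :
    pay f < 2 ^ (128 * (k + 1)) ∧ low f < 4398046511104 ∧ pay f % 2 ^ (128 * k) = pay r := by
  unfold repOK at h
  rw [Bool.and_eq_true, Bool.and_eq_true, lt_iff, lt_iff] at h
  obtain ⟨h1, h2, h3⟩ := h
  refine ⟨?_, h2, ?_⟩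
  · have h1 : f < 1 <<< (64 + 128 * (k + 1)) := h1
    rw [Nat.one_shiftLeft, pow_add] at h1
    rw [pay_eq]
    exact Nat.div_lt_of_lt_mul h1
  · have h3 := Nat.eq_of_beq_eq_true h3
    rw [← h3]
    change _ = pay f % (1 <<< (128 * k))
    rw [Nat.one_shiftLeft]

lemma size_aux {F R A B : ℕ} (hF : F < A) (hR : R < B) : F + R * A < A * B := by
  calc F + R * A < A + R * A := by omega
    _ = (R + 1) * A := by ring
    _ ≤ B * A := Nat.mul_le_mul_right _ hR
    _ = A * B := by ring

lemma bound_aux {a k : ℕ} (h : a ≤ 72 * k * 17179869184) :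
    a ≤ (8 * k + 64 * (k + 1)) * 17179869184 :=
  h.trans (Nat.mul_le_mul_right _ (by omega))

/-- one level of the enumeration -/
lemma cov_step {k r f : ℕ} {E : List ℕ} {mk : Mk} (hk : k < 7) (hk3 : 2 ≤ k) (hc : Cov C k r E)
    (hmk : MkOK C f (k + 1) mk) (hrep : repOK k r f = true) {cont : List ℕ → Bool}
    (h : lift (k + 1) f E [] (fun L => rows mk (k + 1) 1 k L cont) = true) :
    ∃ E', cont E' = true ∧ Cov C (k + 1) f E' := by
  obtain ⟨hf, _, hfr⟩ := repOK_sound hrep
  obtain ⟨L, h, hL⟩ := lift_sound h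
  obtain ⟨E', h, hE'⟩ := rows_sound hmk (by omega) 1 (by omega) h
  refine ⟨E', h, fun s hs hfs => ?_⟩
  apply hE' s hs hfs
  -- the tuple without the point number `k`
  set s' : ℕ → V := Function.update s k (s (k + 1)) with hs'
  have e1 : ∀ i, i < k → s' i = s i := fun i hi => Function.update_of_ne (by omega) _ _
  have e2 : s' k = s (k + 1) := Function.update_self _ _ _
  have ht : C.Tup (k + 1) s' := by
    refine ⟨?_, ?_⟩
    · intro i hi
      by_cases h : i = k
      · subst h; rw [e2]; exact hs.mem _ (by omega)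
      · rw [e1 i (by omega)]; exact hs.mem i (by omega)
    · intro i j hi hj he
      by_cases h1 : i = k
      · by_cases h2 : j = k
        · omega
        · subst h1
          rw [e2, e1 j (by omega)] at he
          have := hs.inj _ _ (by omega) (by omega) he
          omega
      · by_cases h2 : j = k
        · subst h2
          rw [e2, e1 i (by omega)] at he
          have := hs.inj _ _ (by omega) (by omega) he
          omega
        · rw [e1 i (by omega), e1 j (by omega)] at he
          exact hs.inj i j (by omega) (by omega) he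
  have hfr' : ∀ i j l, i < j → j < l → l < k → dgs f (off i j l) = dgs r (off i j l) := by
    intro i j l h1 h2 h3
    rw [dgs_off, dgs_off]
    have hdm := Nat.div_add_mod (pay f) (2 ^ (128 * k))
    rw [hfr] at hdm
    have hf2 : pay f = pay r + (pay f / 2 ^ (128 * k)) * 2 ^ (2 * (64 * k)) := by
      rw [show 2 * (64 * k) = 128 * k by ring]
      conv_lhs => rw [← hdm]
      ring
    rw [hf2, dgs_add_low (by omega)]
  have hfs' : Fits C s' r k := by
    intro i j l h1 h2 h3
    rw [← hfr' i j l h1 h2 h3, e1 i (by omega), e1 j (by omega), e1 l (by omega)]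
    exact hfs i j l h1 h2 (by omega)
  obtain ⟨e, he, hfe⟩ := hc s' ht hfs'
  obtain ⟨x, hx, hpx, hlx⟩ : ∃ x ∈ L,
      pay x = pay f + (pay e / 2 ^ (128 * k)) * 2 ^ (128 * (k + 1)) ∧ low x = low e := by
    refine ⟨_, hL e he, ?_⟩
    rw [Nat.add_sub_cancel]
    have hle : low e < 18446744073709551616 := by
      rw [low_eq]; exact Nat.mod_lt _ (by norm_num)
    generalize pay f + (pay e / 2 ^ (128 * k)) * 2 ^ (128 * (k + 1)) = y
    generalize low e = z at hle
    rw [pay_eq, low_eq]
    omega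
  clear hL h hE'
  refine ⟨_, hx, ⟨?_, ?_⟩, ?_⟩
  · rw [hlx]
    exact bound_aux hfe.1.1
  · -- size
    rw [hpx]
    have h2 : pay e / 2 ^ (128 * k) < 2 ^ (16 * k) := by
      apply Nat.div_lt_of_lt_mul
      rw [← pow_add]
      have h4 := hfe.1.2
      rw [show 2 * (72 * k) = 128 * k + 16 * k by ring] at h4
      exact h4
    have h3 : 2 * (8 * k + 64 * (k + 1)) = 128 * (k + 1) + 16 * k := by ring
    rw [h3, pow_add]
    exact size_aux hf h2
  · intro i j l h1 h2 h3 h4
    by_cases hl : l < k + 1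
    · rw [dgs_off, hpx, show 128 * (k + 1) = 2 * (64 * (k + 1)) by ring,
        dgs_add_low (by omega), ← dgs_off]
      exact hfs i j l h1 h2 hl
    · have hl2 : l = k + 1 := by omega
      subst hl2
      have hf' : pay f < 2 ^ (2 * (64 * (k + 1))) := by
        rwa [show 2 * (64 * (k + 1)) = 128 * (k + 1) by ring]
      rw [dgs_off, hpx, show 128 * (k + 1) = 2 * (64 * (k + 1)) by ring,
        dgs_add_high hf' (by omega)]
      have h5 := hfe.2 i j k h1 (by omega) (by omega) (by omega)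
      rw [e1 i (by omega), e1 j (by omega), e2, dgs_off, dgs_eq] at h5
      have h6 : 128 * k + 2 * (i + 8 * j + 64 * (k + 1) - 64 * (k + 1)) =
          2 * (i + 8 * j + 64 * k) := by omega
      rw [← h5, dgs_eq, Nat.div_div_eq_div_mul, ← pow_add, h6]

end MP86da66
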