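import Pool.Agent.Lib.MP_86da66_co.EnumSound

namespace MP86da66

variable {V : Type*} {C : Conf V}

/-! ### numbers of patterns -/

/-- number of the pattern of the first four points -/
def Q5 (C : Conf V) (t : ℕ → V) : ℕ :=
  ((C.dig (t 0) (t 1) (t 2) * 4 + C.dig (t 0) (t 1) (t 3)) * 4 + C.dig (t 0) (t 2) (t 3)) * 4 +
    C.dig (t 1) (t 2) (t 3)

/-- number of the rest of the pattern of five points -/
def R5 (C : Conf V) (t : ℕ → V) : ℕ :=
  ((((C.dig (t 0) (t 1) (t 4) * 4 + C.dig (t 0) (t 2) (t 4)) * 4 + C.dig (t 1) (t 2) (t 4)) * 4 +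
    C.dig (t 0) (t 3) (t 4)) * 4 + C.dig (t 1) (t 3) (t 4)) * 4 + C.dig (t 2) (t 3) (t 4)

def HM (C : Conf V) (M : MM) : Prop :=
  ∀ t, C.Tup 5 t → (getM M (Q5 C t)).testBit (64 + R5 C t) = true

def HM4 (C : Conf V) : Prop := ∀ t, C.Tup 4 t → M4.testBit (Q5 C t) = true

lemma nib_testBit {T n b : ℕ} (hb : b < 4) (h : T.testBit (n * 4 + b) = true) :
    (Nat.land (Nat.shiftRight T (Nat.mul 4 n)) 15).testBit b = true := by
  change ((T >>> (4 * n)) &&& 15).testBit b = true
  rw [Nat.testBit_and, Nat.testBit_shiftRight, show 4 * n + b = n * 4 + b by ring, h]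
  interval_cases b <;> decide

/-- the tuple of the points number `a b c d e` -/
def five (s : ℕ → V) (a b c d e : ℕ) : ℕ → V
  | 0 => s a
  | 1 => s b
  | 2 => s c
  | 3 => s d
  | _ => s e

lemma five_tup {s : ℕ → V} {k a b c d e : ℕ} (hs : C.Tup k s) (h1 : a < b) (h2 : b < c)
    (h3 : c < d) (h4 : d < e) (h5 : e < k) : C.Tup 5 (five s a b c d e) := by
  refine ⟨?_, ?_⟩
  · intro i hi
    interval_cases i <;> exact hs.mem _ (by omega)
  · intro i j hi hj he
    interval_cases i <;> interval_cases j <;>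
      first
        | rfl
        | (exfalso
           have := hs.inj _ _ (by omega) (by omega) he
           omega)

lemma five_tup4 {s : ℕ → V} {k a b c d : ℕ} (hs : C.Tup k s) (h1 : a < b) (h2 : b < c)
    (h3 : c < d) (h4 : d < k) : C.Tup 4 (five s a b c d d) := by
  refine ⟨?_, ?_⟩
  · intro i hi
    interval_cases i <;> exact hs.mem _ (by omega)
  · intro i j hi hj he
    interval_cases i <;> interval_cases j <;>
      first
        | rfl
        | (exfalso
           have := hs.inj _ _ (by omega) (by omega) he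
           omega)

/-- a correct test for the digit `(i, j, k)` -/
def GoodC (C : Conf V) (r k i j : ℕ) (c : Chk5) : Prop :=
  ∀ s p, C.Tup (k + 1) s → Fits C s r k → FitsB C s p (i + 8 * j + 64 * k) →
    (nib5 c p).testBit (C.dig (s i) (s j) (s k)) = true

lemma q4_eq {s : ℕ → V} {r k g h i j : ℕ} (hf : Fits C s r k) (h1 : g < h) (h2 : h < i)
    (h3 : i < j) (h4 : j < k) (e : ℕ) : q4 r g h i j = Q5 C (five s g h i j e) := by
  unfold q4 Q5
  rw [hf g h i h1 h2 (by omega), hf g h j h1 (by omega) (by omega),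
    hf g i j (by omega) h3 h4, hf h i j h2 h3 h4]
  rfl

lemma mkChk_sound {M : MM} {r k g h i j : ℕ} {cont : Chk5 → Bool} (hM : HM C M) (hk : k < 8)
    (h1 : g < h) (h2 : h < i) (h3 : i < j) (h4 : j < k)
    (hc : mkChk M r k g h i j cont = true) : ∃ c, cont c = true ∧ GoodC C r k i j c := by
  unfold mkChk at hc
  simp only [force_eq] at hc
  refine ⟨_, hc, ?_⟩
  intro s p hs hf hp
  unfold nib5
  apply nib_testBit (dig_lt _ _ _)
  have ht := hM _ (five_tup hs h1 h2 h3 h4 (by omega))
  rw [← q4_eq hf h1 h2 h3 h4] at ht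
  have e1 := hp.2 g h k h1 (by omega) hk (by omega)
  have e2 := hp.2 g i k (by omega) (by omega) hk (by omega)
  have e3 := hp.2 h i k h2 (by omega) hk (by omega)
  have e4 := hp.2 g j k (by omega) (by omega) hk (by omega)
  have e5 := hp.2 h j k (by omega) (by omega) hk (by omega)
  simp only [e1, e2, e3, e4, e5]
  have e6 : 64 + R5 C (five s g h i j k) = ((((((C.dig (s g) (s h) (s k)) * 4 +
      (C.dig (s g) (s i) (s k))) * 4 + (C.dig (s h) (s i) (s k))) + 1) * 4 +
      (C.dig (s g) (s j) (s k))) * 4 + C.dig (s h) (s j) (s k)) * 4 +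
      C.dig (s i) (s j) (s k) := by
    unfold R5
    simp only [five]
    ring
  rw [e6] at ht
  exact ht

lemma chksG_sound {M : MM} {r k h i j : ℕ} (hM : HM C M) (hk : k < 8)
    (h2 : h < i) (h3 : i < j) (h4 : j < k) (m : ℕ) :
    ∀ {acc : List Chk5} {cont : List Chk5 → Bool}, m ≤ h → (∀ c ∈ acc, GoodC C r k i j c) →
      chksG M r k h i j m acc cont = true → ∃ L, cont L = true ∧ ∀ c ∈ L, GoodC C r k i j c := by
  induction m with
  | zero => intro acc cont _ ha hc; exact ⟨acc, hc, ha⟩
  | succ m ih =>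
    intro acc cont hm ha hc
    unfold chksG at hc
    obtain ⟨c, hc, hg⟩ := mkChk_sound hM hk (by omega) h2 h3 h4 hc
    refine ih (by omega) ?_ hc
    intro c' hc'
    rcases List.mem_cons.mp hc' with rfl | hc'
    · exact hg
    · exact ha _ hc'

lemma chksH_sound {M : MM} {r k i j : ℕ} (hM : HM C M) (hk : k < 8)
    (h3 : i < j) (h4 : j < k) (m : ℕ) :
    ∀ {acc : List Chk5} {cont : List Chk5 → Bool}, m ≤ i → (∀ c ∈ acc, GoodC C r k i j c) →
      chksH M r k i j m acc cont = true → ∃ L, cont L = true ∧ ∀ c ∈ L, GoodC C r k i j c := by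
  induction m with
  | zero => intro acc cont _ ha hc; exact ⟨acc, hc, ha⟩
  | succ m ih =>
    intro acc cont hm ha hc
    unfold chksH at hc
    obtain ⟨L, hc, hL⟩ := chksG_sound hM hk (by omega) h3 h4 m le_rfl ha hc
    exact ih (by omega) hL hc

lemma nibAll_sound {p b : ℕ} {L : List Chk5} : ∀ {acc : ℕ},
    (∀ c ∈ L, (nib5 c p).testBit b = true) → acc.testBit b = true →
      (nibAll L p acc).testBit b = true := by
  induction L with
  | nil => intro acc _ ha; exact ha
  | cons c t ih =>
    intro acc hc ha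
    unfold nibAll
    rw [force_eq]
    have h1 : (Nat.land acc (nib5 c p)).testBit b = true := by
      change (acc &&& nib5 c p).testBit b = true
      rw [Nat.testBit_and, ha, hc c List.mem_cons_self]
      rfl
    have h2 : Nat.beq (Nat.land acc (nib5 c p)) 0 = false := by
      rw [← Bool.not_eq_true, Nat.beq_eq]
      intro h0
      rw [h0] at h1
      simp at h1
    rw [h2]
    exact ih (fun c' hc' => hc c' (List.mem_cons_of_mem _ hc')) h1

lemma fifteen_testBit {b : ℕ} (hb : b < 4) : (15 : ℕ).testBit b = true := by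
  interval_cases b <;> decide

lemma mk5_ok {M : MM} {r k : ℕ} (hM : HM C M) (hM4 : HM4 C) (hk : k < 8) :
    MkOK C r k (mk5 M r k) := by
  intro i j cont hij hjk h
  match i, hij, h with
  | 0, hij, h =>
    exact ⟨_, h, fun s p _ _ _ => fifteen_testBit (dig_lt _ _ _)⟩
  | 1, hij, h =>
    refine ⟨_, h, fun s p hs hf hp => ?_⟩
    unfold nib4
    apply nib_testBit (dig_lt _ _ _)
    have ht := hM4 _ (five_tup4 hs (a := 0) (b := 1) (c := j) (d := k) (by omega) hij hjk
      (by omega))
    have e1 := hp.2 0 1 j (by omega) (by omega) (by omega) (by omega)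
    have e2 := hp.2 0 1 k (by omega) (by omega) (by omega) (by omega)
    have e3 := hp.2 0 j k (by omega) (by omega) (by omega) (by omega)
    simp only [e1, e2, e3]
    exact ht
  | i + 2, hij, h =>
    have h : chksH M r k (i + 2) j (i + 2) [] (fun cs => cont fun p => nibAll cs p 15) = true := h
    obtain ⟨L, h, hL⟩ := chksH_sound hM hk hij hjk (i + 2) le_rfl (by simp) h
    exact ⟨_, h, fun s p hs hf hp => nibAll_sound (fun c hc => hL c hc s p hs hf hp)
      (fifteen_testBit (dig_lt _ _ _))⟩

/-! ### permutations -/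

lemma lt_false (x y : ℕ) : lt x y = false ↔ ¬ x < y := by
  rw [← lt_iff, Bool.not_eq_true]

lemma dig_swap12 {x y z : V} (h1 : x ≠ y) (h2 : x ≠ z) (h3 : y ≠ z) :
    C.dig y x z = tab 216 (C.dig x y z) := by
  have p1 := C.d_pos x y h1
  have p2 := C.d_pos x z h2
  have p3 := C.d_pos y z h3
  have s1 := C.d_symm x y
  have s2 := C.d_symm x z
  have s3 := C.d_symm y z
  unfold Conf.dig
  split_ifs <;> first | rfl | (exfalso; omega)

lemma dig_swap23 {x y z : V} (h1 : x ≠ y) (h2 : x ≠ z) (h3 : y ≠ z) :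
    C.dig x z y = tab 180 (C.dig x y z) := by
  have p1 := C.d_pos x y h1
  have p2 := C.d_pos x z h2
  have p3 := C.d_pos y z h3
  have s1 := C.d_symm x y
  have s2 := C.d_symm x z
  have s3 := C.d_symm y z
  unfold Conf.dig
  split_ifs <;> first | rfl | (exfalso; omega)

/-- `D` has the digits of the tuple `t` -/
def FitsD (C : Conf V) (t : ℕ → V) (D : ℕ → ℕ → ℕ → ℕ) (k : ℕ) : Prop :=
  ∀ i j l, i < j → j < l → l < k → D i j l = C.dig (t i) (t j) (t l)

lemma relab_sound {t : ℕ → V} {D : ℕ → ℕ → ℕ → ℕ} {k x y z : ℕ} (ht : C.Tup k t)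
    (hD : FitsD C t D k) (hx : x < k) (hy : y < k) (hz : z < k) (h1 : x ≠ y) (h2 : x ≠ z)
    (h3 : y ≠ z) : relab D x y z = C.dig (t x) (t y) (t z) := by
  have ne : ∀ {a b : ℕ}, a < k → b < k → a ≠ b → t a ≠ t b := fun ha hb hab he =>
    hab (ht.inj _ _ ha hb he)
  have p1 := C.d_pos _ _ (ne hx hy h1)
  have p2 := C.d_pos _ _ (ne hx hz h2)
  have p3 := C.d_pos _ _ (ne hy hz h3)
  have s1 := C.d_symm (t x) (t y)
  have s2 := C.d_symm (t x) (t z)
  have s3 := C.d_symm (t y) (t z)
  unfold relab
  rcases lt_trichotomy x y with hxy | hxy | hxy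
  · rw [lt_iff.2 hxy]
    rcases lt_trichotomy y z with hyz | hyz | hyz
    · rw [lt_iff.2 hyz, hD x y z hxy hyz hz]
      rfl
    · exact absurd hyz h3
    · rw [(lt_false y z).2 (by omega)]
      rcases lt_trichotomy x z with hxz | hxz | hxz
      · rw [lt_iff.2 hxz, hD x z y hxz hyz hy]
        simp only [cond_true, cond_false]
        unfold Conf.dig
        split_ifs <;> first | rfl | (exfalso; omega)
      · exact absurd hxz h2
      · rw [(lt_false x z).2 (by omega), hD z x y hxz hxy hy]
        simp only [cond_true, cond_false]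
        unfold Conf.dig
        split_ifs <;> first | rfl | (exfalso; omega)
  · exact absurd hxy h1
  · rw [(lt_false x y).2 (by omega)]
    rcases lt_trichotomy x z with hxz | hxz | hxz
    · rw [lt_iff.2 hxz, hD y x z hxy hxz hz]
      simp only [cond_true, cond_false]
      unfold Conf.dig
      split_ifs <;> first | rfl | (exfalso; omega)
    · exact absurd hxz h2
    · rw [(lt_false x z).2 (by omega)]
      rcases lt_trichotomy y z with hyz | hyz | hyz
      · rw [lt_iff.2 hyz, hD y z x hyz hxz hx]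
        simp only [cond_true, cond_false]
        unfold Conf.dig
        split_ifs <;> first | rfl | (exfalso; omega)
      · exact absurd hyz h3
      · rw [(lt_false y z).2 (by omega), hD z y x hyz hxy hx]
        simp only [cond_true, cond_false]
        unfold Conf.dig
        split_ifs <;> first | rfl | (exfalso; omega)

lemma pcA_sound {D : ℕ → ℕ → ℕ → ℕ} {c s f b sf sb : ℕ} : ∀ {m : ℕ},
    pcA D c s f b sf sb m = true → ∀ a < m, relab D (sg s a) sb sf = dgs c (off a b f) := by
  intro m
  induction m with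
  | zero => intro _ a ha; omega
  | succ m ih =>
    intro h a ha
    unfold pcA at h
    simp only [Bool.and_eq_true] at h
    rcases Nat.lt_succ_iff_lt_or_eq.mp ha with h1 | h1
    · exact ih h.2 a h1
    · subst h1
      exact Nat.eq_of_beq_eq_true h.1

lemma pcB_sound {D : ℕ → ℕ → ℕ → ℕ} {c s f sf : ℕ} : ∀ {m : ℕ},
    pcB D c s f sf m = true →
      ∀ b < m, ∀ a < b, relab D (sg s a) (sg s b) sf = dgs c (off a b f) := by
  intro m
  induction m with
  | zero => intro _ a ha; omega
  | succ m ih =>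
    intro h b hb
    unfold pcB at h
    simp only [Bool.and_eq_true, force_eq] at h
    rcases Nat.lt_succ_iff_lt_or_eq.mp hb with h1 | h1
    · exact ih h.2 b h1
    · subst h1
      exact pcA_sound h.1

lemma pcF_sound {D : ℕ → ℕ → ℕ → ℕ} {c s : ℕ} : ∀ {m : ℕ},
    pcF D c s m = true →
      ∀ f < m, ∀ b < f, ∀ a < b, relab D (sg s a) (sg s b) (sg s f) = dgs c (off a b f) := by
  intro m
  induction m with
  | zero => intro _ a ha; omega
  | succ m ih =>
    intro h f hf
    unfold pcF at h
    simp only [Bool.and_eq_true, force_eq] at h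
    rcases Nat.lt_succ_iff_lt_or_eq.mp hf with h1 | h1
    · exact ih h.2 f h1
    · subst h1
      exact pcB_sound h.1

lemma sgOr_testBit {s m : ℕ} : ∀ {k : ℕ},
    (sgOr s k).testBit m = true ↔ ∃ a < k, sg s a = m := by
  intro k
  induction k with
  | zero => simp [sgOr]
  | succ k ih =>
    unfold sgOr
    change ((1 <<< sg s k) ||| sgOr s k).testBit m = true ↔ _
    rw [Nat.testBit_or, Bool.or_eq_true, ih, Nat.one_shiftLeft, Nat.testBit_two_pow]
    constructor
    · rintro (h | ⟨a, ha, h⟩)
      · exact ⟨k, by omega, by simpa using h⟩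
      · exact ⟨a, by omega, h⟩
    · rintro ⟨a, ha, h⟩
      rcases Nat.lt_succ_iff_lt_or_eq.mp ha with h1 | h1
      · exact Or.inr ⟨a, h1, h⟩
      · subst h1
        exact Or.inl (by simpa using h)

lemma sg_bij {s k : ℕ} (h : Nat.beq (Nat.succ (sgOr s k)) (Nat.shiftLeft 1 k) = true) :
    (∀ a < k, sg s a < k) ∧ ∀ a b, a < k → b < k → sg s a = sg s b → a = b := by
  have h := Nat.eq_of_beq_eq_true h
  have h1 : sgOr s k = 2 ^ k - 1 := by
    have : Nat.shiftLeft 1 k = 2 ^ k := by
      change 1 <<< k = _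
      rw [Nat.one_shiftLeft]
    omega
  have hm : ∀ a < k, sg s a < k := by
    intro a ha
    have := (sgOr_testBit (s := s) (m := sg s a)).2 ⟨a, ha, rfl⟩
    rw [h1, Nat.testBit_two_pow_sub_one] at this
    simpa using this
  refine ⟨hm, ?_⟩
  have hsurj : Function.Surjective (fun a : Fin k => (⟨sg s a, hm a a.2⟩ : Fin k)) := by
    intro b
    have : (sgOr s k).testBit b = true := by
      rw [h1, Nat.testBit_two_pow_sub_one]
      simp
    obtain ⟨a, ha, he⟩ := sgOr_testBit.1 this
    exact ⟨⟨a, ha⟩, Fin.ext he⟩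
  have hinj := Finite.injective_iff_surjective.2 hsurj
  intro a b ha hb he
  have := @hinj ⟨a, ha⟩ ⟨b, hb⟩ (Fin.ext he)
  simpa using this

lemma permOK_sound {t : ℕ → V} {D : ℕ → ℕ → ℕ → ℕ} {k s c : ℕ} (ht : C.Tup k t)
    (hD : FitsD C t D k) (h : permOK k s D c = true) :
    ∃ t', C.Tup k t' ∧ Fits C t' c k := by
  unfold permOK at h
  rw [Bool.and_eq_true] at h
  obtain ⟨hm, hi⟩ := sg_bij h.1
  refine ⟨fun a => t (sg s a), ⟨fun i hi' => ht.mem _ (hm i hi'), ?_⟩, ?_⟩
  · intro i j hi' hj' he
    exact hi i j hi' hj' (ht.inj _ _ (hm i hi') (hm j hj') he)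
  · intro i j l h1 h2 h3
    rw [← pcF_sound h.2 l h3 j h2 i h1]
    exact relab_sound ht hD (hm i (by omega)) (hm j (by omega)) (hm l h3)
      (fun he => by have := hi i j (by omega) (by omega) he; omega)
      (fun he => by have := hi i l (by omega) (by omega) he; omega)
      (fun he => by have := hi j l (by omega) (by omega) he; omega)

lemma nth_mem {B : List ℕ} : ∀ {n : ℕ}, n < B.length → nth B n ∈ B := by
  induction B with
  | nil => intro n hn; simp at hn
  | cons a t ih =>
    intro n hn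
    cases n with
    | zero => exact List.mem_cons_self
    | succ n => exact List.mem_cons_of_mem _ (ih (by simpa using hn))

lemma permB_sound {k w f : ℕ} {B : List ℕ} (hB : ∀ c ∈ B, Bad C k c)
    (h : permB k w f B = true) : Bad C k f := by
  unfold permB at h
  rw [Bool.and_eq_true, lt_iff, force_eq] at h
  intro t ht hf
  obtain ⟨t', ht', hf'⟩ := permOK_sound ht hf h.2
  exact hB _ (nth_mem h.1) t' ht' hf'

end MP86da66
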