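import Pool.Agent.Lib.MP_86da66_co.EnumSound2

namespace MP86da66

variable {V : Type*} {C : Conf V}

def AllBad (C : Conf V) (k : ℕ) (B : List ℕ) : Prop := ∀ c ∈ B, Bad C k c

lemma AllBad.cons {k f : ℕ} {B : List ℕ} (hf : Bad C k f) (hB : AllBad C k B) :
    AllBad C k (f :: B) := by
  intro c hc
  rcases List.mem_cons.mp hc with rfl | hc
  · exact hf
  · exact hB c hc

lemma e7_sound {B8 : List ℕ} (hB8 : AllBad C 8 B8) : ∀ {L cs : List ℕ} {k : List ℕ → Bool},
    e7 B8 L cs k = true → AllBad C 8 L ∧ ∃ cs', k cs' = true := by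
  intro L
  induction L with
  | nil => intro cs k h; exact ⟨by intro c hc; simp at hc, _, h⟩
  | cons f t ih =>
    intro cs k h
    cases cs with
    | nil => exact absurd h (by simp [e7])
    | cons w cs =>
      have h : and (permB 8 w f B8) (e7 B8 t cs k) = true := h
      rw [Bool.and_eq_true] at h
      obtain ⟨h2, h3⟩ := ih h.2
      exact ⟨h2.cons (permB_sound hB8 h.1), h3⟩

lemma e6_sound {M : MM} {r : ℕ} {B8 E : List ℕ} (hM : HM C M) (hM4 : HM4 C)
    (hB8 : AllBad C 8 B8) (hE : Cov C 6 r E) :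
    ∀ {L cs B7 : List ℕ} {k : List ℕ → List ℕ → Bool}, AllBad C 7 B7 →
    e6 M r B8 E L cs B7 k = true →
      AllBad C 7 L ∧ ∃ cs' B7', AllBad C 7 B7' ∧ k cs' B7' = true := by
  intro L
  induction L with
  | nil => intro cs B7 k hB7 h; exact ⟨by intro c hc; simp at hc, _, _, hB7, h⟩
  | cons f t ih =>
    intro cs B7 k hB7 h
    cases cs with
    | nil => exact absurd h (by simp [e6])
    | cons w cs =>
      have h : cond (Nat.beq w 0)
        (and (repOK 6 r f)
          (lift 7 f E [] fun L => rows (mk5 M f 7) 7 1 6 L fun E7 =>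
          e7 B8 E7 cs fun cs => e6 M r B8 E t cs (f :: B7) k))
        (and (permB 7 w f B7) (e6 M r B8 E t cs B7 k)) = true := h
      cases hw : Nat.beq w 0
      · rw [hw, cond_false, Bool.and_eq_true] at h
        obtain ⟨h2, h3⟩ := ih hB7 h.2
        exact ⟨h2.cons (permB_sound hB7 h.1), h3⟩
      · rw [hw, cond_true, Bool.and_eq_true] at h
        obtain ⟨h1, h3⟩ := h
        obtain ⟨E7, h3, hE7⟩ := cov_step (by norm_num) (by norm_num) hE
          (mk5_ok hM hM4 (by norm_num)) h1 h3
        obtain ⟨h4, cs', h5⟩ := e7_sound hB8 h3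
        have hf : Bad C 7 f := bad_of_cov (by norm_num) hE7 h4
        obtain ⟨h6, h7⟩ := ih (hB7.cons hf) h5
        exact ⟨h6.cons hf, h7⟩

lemma e5_sound {M : MM} {r : ℕ} {B8 E : List ℕ} (hM : HM C M) (hM4 : HM4 C)
    (hB8 : AllBad C 8 B8) (hE : Cov C 5 r E) :
    ∀ {L cs B6 B7 : List ℕ} {k : List ℕ → List ℕ → List ℕ → Bool}, AllBad C 6 B6 →
    AllBad C 7 B7 → e5 M r B8 E L cs B6 B7 k = true →
      AllBad C 6 L ∧ ∃ cs' B6' B7', AllBad C 6 B6' ∧ AllBad C 7 B7' ∧ k cs' B6' B7' = true := by
  intro L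
  induction L with
  | nil => intro cs B6 B7 k hB6 hB7 h; exact ⟨by intro c hc; simp at hc, _, _, _, hB6, hB7, h⟩
  | cons f t ih =>
    intro cs B6 B7 k hB6 hB7 h
    cases cs with
    | nil => exact absurd h (by simp [e5])
    | cons w cs =>
      have h : cond (Nat.beq w 0)
        (and (repOK 5 r f)
          (lift 6 f E [] fun L => rows (mk5 M f 6) 6 1 5 L fun E6 =>
          e6 M f B8 E6 E6 cs B7 fun cs B7 => e5 M r B8 E t cs (f :: B6) B7 k))
        (and (permB 6 w f B6) (e5 M r B8 E t cs B6 B7 k)) = true := h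
      cases hw : Nat.beq w 0
      · rw [hw, cond_false, Bool.and_eq_true] at h
        obtain ⟨h2, h3⟩ := ih hB6 hB7 h.2
        exact ⟨h2.cons (permB_sound hB6 h.1), h3⟩
      · rw [hw, cond_true, Bool.and_eq_true] at h
        obtain ⟨h1, h3⟩ := h
        obtain ⟨E6, h3, hE6⟩ := cov_step (by norm_num) (by norm_num) hE
          (mk5_ok hM hM4 (by norm_num)) h1 h3
        obtain ⟨h4, cs', B7', h5, h6⟩ := e6_sound hM hM4 hB8 hE6 hB7 h3
        have hf : Bad C 6 f := bad_of_cov (by norm_num) hE6 h4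
        obtain ⟨h7, h8⟩ := ih (hB6.cons hf) h5 h6
        exact ⟨h7.cons hf, h8⟩

/-! ### clearing -/

lemma Q5_digs (t : ℕ → V) :
    dgs (Q5 C t) 6 = C.dig (t 0) (t 1) (t 2) ∧ dgs (Q5 C t) 4 = C.dig (t 0) (t 1) (t 3) ∧
    dgs (Q5 C t) 2 = C.dig (t 0) (t 2) (t 3) ∧ dgs (Q5 C t) 0 = C.dig (t 1) (t 2) (t 3) := by
  have h1 := dig_lt (C := C) (t 0) (t 1) (t 2)
  have h2 := dig_lt (C := C) (t 0) (t 1) (t 3)
  have h3 := dig_lt (C := C) (t 0) (t 2) (t 3)
  have h4 := dig_lt (C := C) (t 1) (t 2) (t 3)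
  simp only [dgs_eq, Q5]
  norm_num
  omega

lemma Q5_lt (t : ℕ → V) : Q5 C t < 256 := by
  have h1 := dig_lt (C := C) (t 0) (t 1) (t 2)
  have h2 := dig_lt (C := C) (t 0) (t 1) (t 3)
  have h3 := dig_lt (C := C) (t 0) (t 2) (t 3)
  have h4 := dig_lt (C := C) (t 1) (t 2) (t 3)
  unfold Q5
  omega

lemma R5_digs (t : ℕ → V) :
    dgs (R5 C t) 10 = C.dig (t 0) (t 1) (t 4) ∧ dgs (R5 C t) 8 = C.dig (t 0) (t 2) (t 4) ∧
    dgs (R5 C t) 6 = C.dig (t 1) (t 2) (t 4) ∧ dgs (R5 C t) 4 = C.dig (t 0) (t 3) (t 4) ∧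
    dgs (R5 C t) 2 = C.dig (t 1) (t 3) (t 4) ∧ dgs (R5 C t) 0 = C.dig (t 2) (t 3) (t 4) := by
  have h1 := dig_lt (C := C) (t 0) (t 1) (t 4)
  have h2 := dig_lt (C := C) (t 0) (t 2) (t 4)
  have h3 := dig_lt (C := C) (t 1) (t 2) (t 4)
  have h4 := dig_lt (C := C) (t 0) (t 3) (t 4)
  have h5 := dig_lt (C := C) (t 1) (t 3) (t 4)
  have h6 := dig_lt (C := C) (t 2) (t 3) (t 4)
  simp only [dgs_eq, R5]
  norm_num
  omega

lemma dqr_sound (t : ℕ → V) : FitsD C t (dqr (Q5 C t) (R5 C t)) 5 := by
  obtain ⟨q1, q2, q3, q4⟩ := Q5_digs (C := C) t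
  obtain ⟨r1, r2, r3, r4, r5, r6⟩ := R5_digs (C := C) t
  intro i j l h1 h2 h3
  have hi : i < 5 := by omega
  have hj : j < 5 := by omega
  interval_cases l <;> interval_cases j <;> interval_cases i <;> first
    | exact q1
    | exact q2
    | exact q3
    | exact q4
    | exact r1
    | exact r2
    | exact r3
    | exact r4
    | exact r5
    | exact r6

lemma ones64_testBit (b : ℕ) : (18446744073709551615 : ℕ).testBit (64 + b) = false := by
  rw [show (18446744073709551615 : ℕ) = 2 ^ 64 - 1 by norm_num, Nat.testBit_two_pow_sub_one]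
  simp

lemma clrItems_sound {c q : ℕ} (hc : Bad C 5 c) : ∀ {n w z : ℕ} {k : ℕ → Bool},
    (∀ t, C.Tup 5 t → Q5 C t = q → z.testBit (64 + R5 C t) = false) →
    clrItems c q n w z k = true → ∃ z', k z' = true ∧
      ∀ t, C.Tup 5 t → Q5 C t = q → z'.testBit (64 + R5 C t) = false := by
  intro n
  induction n with
  | zero => intro w z k hz h; exact ⟨z, h, hz⟩
  | succ n ih =>
    intro w z k hz h
    unfold clrItems at h
    simp only [force_eq, Bool.and_eq_true] at h
    refine ih ?_ h.2
    intro t ht hq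
    change (z ||| (1 <<< _)).testBit (64 + R5 C t) = false
    rw [Nat.testBit_or, hz t ht hq, Bool.false_or, Nat.one_shiftLeft, Nat.testBit_two_pow]
    by_contra hne
    have he : Nat.land w 4095 = R5 C t := by
      have : Nat.add 64 (Nat.land w 4095) = 64 + R5 C t := by simpa using hne
      exact Nat.add_left_cancel this
    have h1 := h.1
    rw [he, ← hq] at h1
    obtain ⟨t', ht', hf'⟩ := permOK_sound ht (dqr_sound t) h1
    exact hc t' ht' hf'

lemma clr_sound {q z v : ℕ} : ∀ {M : MM} {k : MM → Bool}, clr v M q z k = true →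
    ∃ M', k M' = true ∧ ∀ q' b, (getM M q').testBit b = true →
      (q' = q → z.testBit b = false) → (getM M' q').testBit b = true := by
  intro M
  induction M with
  | nil => intro k h; exact ⟨[], h, fun q' b hb _ => hb⟩
  | cons am t ih =>
    intro k h
    obtain ⟨a, m⟩ := am
    unfold clr at h
    cases ha : Nat.beq a q
    · rw [ha, cond_false] at h
      obtain ⟨M', h, hM'⟩ := ih h
      refine ⟨_, h, ?_⟩
      intro q' b hb hz
      unfold getM at hb ⊢
      cases ha' : Nat.beq a q'
      · rw [ha', cond_false] at hb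
        rw [cond_false]
        exact hM' q' b hb hz
      · rw [ha', cond_true] at hb
        rw [cond_true]
        exact hb
    · rw [ha, cond_true, force_eq] at h
      refine ⟨_, h, ?_⟩
      intro q' b hb hz
      unfold getM at hb ⊢
      cases ha' : Nat.beq a q'
      · rw [ha', cond_false] at hb
        rw [cond_false]
        exact hb
      · rw [ha', cond_true] at hb
        rw [cond_true]
        have e1 := Nat.eq_of_beq_eq_true ha
        have e2 := Nat.eq_of_beq_eq_true ha'
        have := hz (by omega)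
        change ((m ^^^ (m &&& z)) ||| v).testBit b = true
        rw [Nat.testBit_or, Nat.testBit_xor, Nat.testBit_and, hb, this]
        rfl

lemma clrClass_sound {c : ℕ} (hc : Bad C 5 c) : ∀ {L : List ℕ} {M : MM} {k : MM → Bool},
    HM C M → clrClass c L M k = true → ∃ M', HM C M' ∧ k M' = true := by
  intro L
  induction L with
  | nil => intro M k hM h; exact ⟨M, hM, h⟩
  | cons w t ih =>
    intro M k hM h
    unfold clrClass at h
    rw [force_eq] at h
    obtain ⟨z, h, hz⟩ := clrItems_sound hc (fun t _ _ => ones64_testBit _) h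
    rw [force_eq] at h
    obtain ⟨M', h, hM'⟩ := clr_sound h
    exact ih (fun t ht => hM' _ _ (hM t ht) (hz t ht)) h

lemma clrAll_sound : ∀ {L : List Seed} {M : MM} {k : MM → Bool},
    (∀ s ∈ L, Bad C 5 s.r) → HM C M → clrAll L M k = true → ∃ M', HM C M' ∧ k M' = true := by
  intro L
  induction L with
  | nil => intro M k _ hM h; exact ⟨M, hM, h⟩
  | cons s t ih =>
    intro M k hL hM h
    unfold clrAll at h
    obtain ⟨M', hM', h⟩ := clrClass_sound (hL s List.mem_cons_self) hM h
    exact ih (fun s hs => hL s (List.mem_cons_of_mem _ hs)) hM' h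

lemma runSeeds_sound (hM4 : HM4 C) {B8 : List ℕ} (hB8 : AllBad C 8 B8) :
    ∀ {L : List Seed} {M : MM} {B6 B7 : List ℕ} {k : MM → List ℕ → List ℕ → Bool},
    HM C M → AllBad C 6 B6 → AllBad C 7 B7 → runSeeds B8 L M B6 B7 k = true →
    ∃ M' B6' B7', HM C M' ∧ AllBad C 6 B6' ∧ AllBad C 7 B7' ∧ k M' B6' B7' = true := by
  intro L
  induction L with
  | nil => intro M B6 B7 k hM hB6 hB7 h; exact ⟨M, B6, B7, hM, hB6, hB7, h⟩
  | cons s t ih =>
    intro M B6 B7 k hM hB6 hB7 h
    unfold runSeeds at h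
    rw [Bool.and_eq_true, Bool.and_eq_true, lt_iff, lt_iff] at h
    obtain ⟨⟨h1, h2⟩, h⟩ := h
    obtain ⟨E5, h, hE5⟩ := rows_sound (C := C) (mk5_ok hM hM4 (by norm_num)) (by norm_num) 4
      (by norm_num) h
    have h1 : pay s.r < 2 ^ (128 * 5) := by
      have h1 : s.r < 1 <<< 704 := h1
      rw [Nat.one_shiftLeft, show 704 = 64 + 128 * 5 by norm_num, pow_add, two64] at h1
      rw [pay_eq]
      exact Nat.div_lt_of_lt_mul h1
    have h2 : low s.r ≤ (64 * 5) * 17179869184 := by omega
    have hcov : Cov C 5 s.r E5 := by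
      intro u hu hf
      refine hE5 u hu hf ⟨s.r, List.mem_singleton_self _, (hf.fitsB h2 h1).skip (by omega) ?_⟩
      intro i j l h1 h2 h3 h4
      omega
    obtain ⟨h2, cs', B6', B7', h3, h4, h5⟩ := e5_sound hM hM4 hB8 hcov hB6 hB7 h
    have hbad : Bad C 5 s.r := bad_of_cov (by norm_num) hcov h2
    obtain ⟨M', hM', h6⟩ := clrClass_sound hbad hM h5
    exact ih hM' h3 h4 h6

lemma allZero_sound : ∀ {M : MM}, allZero M = true → ∀ q b,
    (getM M q).testBit (64 + b) = false := by
  intro M
  induction M with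
  | nil => intro _ q b; simp [getM]
  | cons am t ih =>
    obtain ⟨a, m⟩ := am
    intro h q b
    unfold allZero at h
    rw [Bool.and_eq_true] at h
    have h1 := Nat.eq_of_beq_eq_true h.1
    unfold getM
    cases Nat.beq a q
    · exact ih h.2 q b
    · rw [cond_true]
      have h2 : m >>> 64 = 0 := h1
      have h3 := Nat.testBit_shiftRight m (i := 64) (j := b)
      rw [h2] at h3
      rw [← h3]
      simp

lemma eqL_sound : ∀ {a b : List ℕ}, eqL a b = true → a = b := by
  intro a
  induction a with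
  | nil => intro b h; cases b with
    | nil => rfl
    | cons _ _ => simp [eqL] at h
  | cons x t ih => intro b h; cases b with
    | nil => simp [eqL] at h
    | cons y u =>
      unfold eqL at h
      rw [Bool.and_eq_true] at h
      rw [Nat.eq_of_beq_eq_true h.1, ih h.2]

lemma eqM_sound : ∀ {a b : MM}, eqM a b = true → a = b := by
  intro a
  induction a with
  | nil => intro b h; cases b with
    | nil => rfl
    | cons _ _ => simp [eqM] at h
  | cons x t ih =>
    obtain ⟨x1, x2⟩ := x
    intro b h; cases b with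
    | nil => simp [eqM] at h
    | cons y u =>
      obtain ⟨y1, y2⟩ := y
      unfold eqM at h
      rw [Bool.and_eq_true, Bool.and_eq_true] at h
      rw [Nat.eq_of_beq_eq_true h.1, Nat.eq_of_beq_eq_true h.2.1, ih h.2.2]

/-! ### the first masks -/

lemma nib4A_sound {p i j k b : ℕ} (m : ℕ) : ∀ {acc : ℕ},
    (∀ h < m, (nib4g p h i j k).testBit b = true) → acc.testBit b = true →
      (nib4A p i j k m acc).testBit b = true := by
  induction m with
  | zero => intro acc _ ha; exact ha
  | succ m ih =>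
    intro acc hc ha
    unfold nib4A
    apply ih (fun h hh => hc h (by omega))
    change (acc &&& _).testBit b = true
    rw [Nat.testBit_and, ha, hc m (by omega)]
    rfl

lemma mk4_ok {r : ℕ} (hM4 : HM4 C) : MkOK C r 4 mk4 := by
  intro i j cont hij hjk h
  refine ⟨_, h, fun s p hs _ hp => ?_⟩
  refine nib4A_sound i (fun g hg => ?_) (fifteen_testBit (dig_lt _ _ _))
  unfold nib4g
  apply nib_testBit (dig_lt _ _ _)
  have ht := hM4 _ (five_tup4 hs (a := g) (b := i) (c := j) (d := 4) (by omega) hij hjk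
      (by omega))
  have e1 := hp.2 g i j (by omega) (by omega) (by omega) (by omega)
  have e2 := hp.2 g i 4 (by omega) (by omega) (by omega) (by omega)
  have e3 := hp.2 g j 4 (by omega) (by omega) (by omega) (by omega)
  simp only [e1, e2, e3]
  exact ht

lemma expand_dig : ∀ q < 256, (low (expand q) < 256 ∧ pay (expand q) < 2 ^ 512) ∧ dgs (expand q) (off 0 1 2) = dgs q 6 ∧
    dgs (expand q) (off 0 1 3) = dgs q 4 ∧ dgs (expand q) (off 0 2 3) = dgs q 2 ∧
    dgs (expand q) (off 1 2 3) = dgs q 0 := by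
  decide +kernel

lemma expand_fits (t : ℕ → V) : Fits C t (expand (Q5 C t)) 4 ∧
    low (expand (Q5 C t)) < 256 ∧ pay (expand (Q5 C t)) < 2 ^ (128 * 4) := by
  obtain ⟨q1, q2, q3, q4⟩ := Q5_digs (C := C) t
  obtain ⟨h0, e1, e2, e3, e4⟩ := expand_dig (Q5 C t) (Q5_lt t)
  refine ⟨?_, h0⟩
  intro i j l h1 h2 h3
  have hi : i < 4 := by omega
  have hj : j < 4 := by omega
  interval_cases l <;> interval_cases j <;> interval_cases i <;> first
    | (rw [e1]; exact q1)
    | (rw [e2]; exact q2)
    | (rw [e3]; exact q3)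
    | (rw [e4]; exact q4)

lemma r6_sound {s : ℕ → V} {p : ℕ} (h : FitsB C s p (72 * 4)) : r6 p = R5 C s := by
  unfold r6 R5
  rw [h.2 0 1 4 (by norm_num) (by norm_num) (by norm_num) (by norm_num),
    h.2 0 2 4 (by norm_num) (by norm_num) (by norm_num) (by norm_num),
    h.2 1 2 4 (by norm_num) (by norm_num) (by norm_num) (by norm_num),
    h.2 0 3 4 (by norm_num) (by norm_num) (by norm_num) (by norm_num),
    h.2 1 3 4 (by norm_num) (by norm_num) (by norm_num) (by norm_num),
    h.2 2 3 4 (by norm_num) (by norm_num) (by norm_num) (by norm_num)]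
  rfl

lemma orAll_sound : ∀ {L : List ℕ} {z : ℕ} {k : ℕ → Bool}, orAll L z k = true →
    ∃ z', k z' = true ∧ (∀ b, z.testBit b = true → z'.testBit b = true) ∧
      ∀ p ∈ L, z'.testBit (64 + r6 p) = true := by
  intro L
  induction L with
  | nil => intro z k h; exact ⟨z, h, fun b hb => hb, by simp⟩
  | cons p t ih =>
    intro z k h
    unfold orAll at h
    rw [force_eq] at h
    obtain ⟨z', h, m1, m2⟩ := ih h
    refine ⟨z', h, fun b hb => m1 b ?_, fun p' hp' => ?_⟩
    · change (z ||| (1 <<< (64 + r6 p))).testBit b = true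
      rw [Nat.testBit_or, hb]
      rfl
    · rcases List.mem_cons.mp hp' with rfl | hp'
      · apply m1
        change (z ||| (1 <<< (64 + r6 p'))).testBit (64 + r6 p') = true
        rw [Nat.testBit_or, Nat.one_shiftLeft, Nat.testBit_two_pow]
        simp
      · exact m2 p' hp'

lemma init4_sound (hM4 : HM4 C) : ∀ {L : List ℕ} {M : MM} {k : MM → Bool},
    init4 L M k = true → ∃ M', k M' = true ∧ ∀ t, C.Tup 5 t →
      (Q5 C t ∈ L ∨ (getM M (Q5 C t)).testBit (64 + R5 C t) = true) →
      (getM M' (Q5 C t)).testBit (64 + R5 C t) = true := by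
  intro L
  induction L with
  | nil =>
    intro M k h
    refine ⟨M, h, fun t _ hh => ?_⟩
    rcases hh with hh | hh
    · simp at hh
    · exact hh
  | cons q L ih =>
    intro M k h
    unfold init4 at h
    rw [force_eq] at h
    obtain ⟨E, h, hE⟩ := rows_sound (C := C) (r := expand q) (mk4_ok hM4) (by norm_num) 3
      (by norm_num) h
    obtain ⟨z, h, _, hz⟩ := orAll_sound h
    obtain ⟨M', h, hM'⟩ := ih h
    refine ⟨M', h, fun t ht hh => hM' t ht ?_⟩
    by_cases hm : Q5 C t ∈ L
    · exact Or.inl hm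
    · right
      unfold getM
      cases hb : Nat.beq q (Q5 C t)
      · rw [cond_false]
        rcases hh with hh | hh
        · rcases List.mem_cons.mp hh with h1 | h1
          · rw [h1] at hb
            simp at hb
          · exact absurd h1 hm
        · exact hh
      · rw [cond_true]
        have hq := Nat.eq_of_beq_eq_true hb
        subst hq
        obtain ⟨hf, hl, hlt⟩ := expand_fits (C := C) t
        have hl : low (expand (Q5 C t)) ≤ (64 * 4) * 17179869184 := by omega
        obtain ⟨p, hp, hfp⟩ := hE t ht hf ⟨_, List.mem_singleton_self _,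
          (hf.fitsB hl hlt).skip (by norm_num) (by intro i j l h1 h2 h3 h4; omega)⟩
        have := hz p hp
        rwa [r6_sound hfp] at this

/-! ### kills -/

lemma kill_bad {K R : ℕ} (hK : K ≤ 16) {c : Cert} (h : kill K (pay R) c = true) : Bad C K R := by
  intro s hs hf
  refine kill_sound C hK h s hs ?_
  intro i j l h1 h2 h3
  have h4 := hf i j l h1 h2 h3
  rw [dgs_off] at h4
  rw [← h4]
  have h5 : rdig (pay R) i j l = dgs (pay R) (2 * i + (16 * j + 128 * l)) := rfl
  rw [h5]
  congr 1
  ring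

lemma kills_sound {K : ℕ} (hK : K ≤ 16) : ∀ {L : List (ℕ × Cert)}, kills K L = true →
    AllBad C K (L.map Prod.fst) := by
  intro L
  induction L with
  | nil => intro _ c hc; simp at hc
  | cons a t ih =>
    obtain ⟨q, c⟩ := a
    intro h
    unfold kills at h
    rw [Bool.and_eq_true, force_eq] at h
    exact (ih h.2).cons (kill_bad hK h.1)

lemma kills5_sound : ∀ {L : List Seed}, kills5 L = true → ∀ s ∈ L, Bad C 5 s.r := by
  intro L
  induction L with
  | nil => intro _ s hs; simp at hs
  | cons a t ih =>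
    intro h s hs
    unfold kills5 at h
    rw [Bool.and_eq_true, force_eq] at h
    rcases List.mem_cons.mp hs with rfl | hs
    · exact kill_bad (by norm_num) h.1
    · exact ih h.2 s hs

lemma kills4_sound : ∀ {L : List (ℕ × Cert)} {z : ℕ}, kills4 L = true →
    (∀ t, C.Tup 4 t → z.testBit (Q5 C t) = false) →
    ∀ t, C.Tup 4 t → (mask4 L z).testBit (Q5 C t) = false := by
  intro L
  induction L with
  | nil => intro z _ hz; exact hz
  | cons a t ih =>
    obtain ⟨q, c⟩ := a
    intro z h hz
    unfold kills4 at h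
    rw [Bool.and_eq_true, force_eq] at h
    unfold mask4
    apply ih h.2
    intro t ht
    change (z ||| (1 <<< q)).testBit (Q5 C t) = false
    rw [Nat.testBit_or, hz t ht, Bool.false_or, Nat.one_shiftLeft, Nat.testBit_two_pow]
    by_contra hne
    have he : q = Q5 C t := by simpa using hne
    subst he
    exact kill_bad (by norm_num) h.1 t ht (expand_fits t).1

lemma hM4_of {L : List (ℕ × Cert)} (h : kills4 L = true)
    (hm : Nat.beq (Nat.lor M4 (mask4 L 0)) (2 ^ 256 - 1) = true) : HM4 C := by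
  intro t ht
  have h1 := kills4_sound (C := C) (z := 0) h (by simp) t ht
  have h2 : (Nat.lor M4 (mask4 L 0)).testBit (Q5 C t) = true := by
    rw [Nat.eq_of_beq_eq_true hm, Nat.testBit_two_pow_sub_one]
    simpa using Q5_lt (C := C) t
  have h3 : (M4 ||| mask4 L 0).testBit (Q5 C t) = true := h2
  rw [Nat.testBit_or, h1, Bool.or_false] at h3
  exact h3

end MP86da66
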