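import Pool.Agent.Lib.MP_86da66_co.Core
import Pool.Agent.Lib.MP_86da66_co.Defs

/-! From graphs to the abstract situation. -/

namespace MP86da66

open SimpleGraph

variable {V : Type*} {G : SimpleGraph V}

lemma coll_swap12 {d : V → V → ℕ} (hs : ∀ x y, d x y = d y x) {x y z : V}
    (h : Coll d x y z) : Coll d y x z := by
  unfold Coll Btw at *
  rw [hs y x, hs y z, hs x z] at *
  have := hs x y
  have := hs x z
  have := hs y z
  rcases h with h | h | h <;> omega

lemma coll_swap23 {d : V → V → ℕ} (hs : ∀ x y, d x y = d y x) {x y z : V}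
    (h : Coll d x y z) : Coll d x z y := by
  unfold Coll Btw at *
  have := hs x y
  have := hs x z
  have := hs y z
  rcases h with h | h | h <;> omega

/-- distances along a geodesic -/
lemma geo_dist (hG : G.Connected) {u v : V} {p : G.Walk u v} (hp : IsGeodesic p) {i j : ℕ}
    (hij : i ≤ j) (hj : j ≤ p.length) : G.dist (p.getVert i) (p.getVert j) = j - i := by
  have h1 : G.dist u (p.getVert i) ≤ i := by
    have := G.dist_le (p.take i)
    rw [Walk.take_length] at this
    exact this.trans (min_le_left _ _)
  have h2 : G.dist (p.getVert j) v ≤ p.length - j := by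
    have := G.dist_le (p.drop j)
    rwa [Walk.drop_length] at this
  have h3 : G.dist (p.getVert i) (p.getVert j) ≤ j - i := by
    have h4 := G.dist_le ((p.drop i).take (j - i))
    rw [Walk.take_length, Walk.drop_getVert, show i + (j - i) = j by omega] at h4
    exact h4.trans (min_le_left _ _)
  have h5 : G.dist u v ≤ G.dist u (p.getVert i) + G.dist (p.getVert i) v := hG.dist_triangle
  have h6 : G.dist (p.getVert i) v ≤ G.dist (p.getVert i) (p.getVert j) + G.dist (p.getVert j) v :=
    hG.dist_triangle
  unfold IsGeodesic at hp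
  omega

lemma coll_of_mem (hG : G.Connected) {u v : V} {p : G.Walk u v} (hp : IsGeodesic p) {x y z : V}
    (hx : x ∈ p.support) (hy : y ∈ p.support) (hz : z ∈ p.support) : Coll G.dist x y z := by
  obtain ⟨i, rfl, hi⟩ := Walk.mem_support_iff_exists_getVert.1 hx
  obtain ⟨j, rfl, hj⟩ := Walk.mem_support_iff_exists_getVert.1 hy
  obtain ⟨k, rfl, hk⟩ := Walk.mem_support_iff_exists_getVert.1 hz
  have key : ∀ a b, a ≤ p.length → b ≤ p.length →
      G.dist (p.getVert a) (p.getVert b) = (a - b) + (b - a) := by
    intro a b ha hb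
    rcases le_total a b with h | h
    · rw [geo_dist hG hp h hb]; omega
    · rw [G.dist_comm, geo_dist hG hp h ha]; omega
  unfold Coll Btw
  rw [key i j hi hj, key j i hj hi, key i k hi hk, key j k hj hk, key k j hk hj]
  omega

/-- no four vertices in general position gives collinear triples -/
lemma quad_of_no_four (hG : G.Connected)
    (h : ∀ S : Finset V, GeneralPosition G S → S.card ≤ 3) (a b c e : V) :
    Coll G.dist a b c ∨ Coll G.dist a b e ∨ Coll G.dist a c e ∨ Coll G.dist b c e := by
  classical
  by_contra hn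
  push_neg at hn
  obtain ⟨n1, n2, n3, n4⟩ := hn
  have hs : ∀ x y, G.dist x y = G.dist y x := fun x y => G.dist_comm
  have self : ∀ x, G.dist x x = 0 := fun x => G.dist_self
  have heq : ∀ x y, Coll G.dist x x y := fun x y => by
    unfold Coll Btw; rw [self]; omega
  have heq2 : ∀ x y, Coll G.dist x y y := fun x y => coll_swap12 hs (coll_swap23 hs (heq y x))
  have heq3 : ∀ x y, Coll G.dist x y x := fun x y => coll_swap23 hs (heq x y)
  have hab : a ≠ b := fun h => n1 (h ▸ heq _ _)
  have hac : a ≠ c := fun h => n1 (h ▸ heq3 _ _)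
  have hbc : b ≠ c := fun h => n1 (h ▸ heq2 _ _)
  have hae : a ≠ e := fun h => n2 (h ▸ heq3 _ _)
  have hbe : b ≠ e := fun h => n2 (h ▸ heq2 _ _)
  have hce : c ≠ e := fun h => n3 (h ▸ heq2 _ _)
  have all : ∀ {x y z : V}, ¬ Coll G.dist x y z → ¬ Coll G.dist x z y ∧ ¬ Coll G.dist y x z ∧
      ¬ Coll G.dist y z x ∧ ¬ Coll G.dist z x y ∧ ¬ Coll G.dist z y x := by
    intro x y z hxyz
    refine ⟨fun h => hxyz (coll_swap23 hs h), fun h => hxyz (coll_swap12 hs h), fun h => hxyz ?_,
      fun h => hxyz ?_, fun h => hxyz ?_⟩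
    · exact coll_swap12 hs (coll_swap23 hs h)
    · exact coll_swap23 hs (coll_swap12 hs h)
    · exact coll_swap12 hs (coll_swap23 hs (coll_swap12 hs h))
  have m1 := all n1
  have m2 := all n2
  have m3 := all n3
  have m4 := all n4
  have hS := h {a, b, c, e} (by
    intro x hx y hy z hz hxy hxz hyz ⟨u, v, p, hp, h1, h2, h3⟩
    have hc := coll_of_mem hG hp h1 h2 h3
    simp only [Finset.mem_insert, Finset.mem_singleton] at hx hy hz
    rcases hx with rfl | rfl | rfl | rfl <;> rcases hy with rfl | rfl | rfl | rfl <;>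
      rcases hz with rfl | rfl | rfl | rfl <;>
      first
        | exact hxy rfl
        | exact hxz rfl
        | exact hyz rfl
        | exact n1 hc
        | exact n2 hc
        | exact n3 hc
        | exact n4 hc
        | exact m1.1 hc
        | exact m1.2.1 hc
        | exact m1.2.2.1 hc
        | exact m1.2.2.2.1 hc
        | exact m1.2.2.2.2 hc
        | exact m2.1 hc
        | exact m2.2.1 hc
        | exact m2.2.2.1 hc
        | exact m2.2.2.2.1 hc
        | exact m2.2.2.2.2 hc
        | exact m3.1 hc
        | exact m3.2.1 hc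
        | exact m3.2.2.1 hc
        | exact m3.2.2.2.1 hc
        | exact m3.2.2.2.2 hc
        | exact m4.1 hc
        | exact m4.2.1 hc
        | exact m4.2.2.1 hc
        | exact m4.2.2.2.1 hc
        | exact m4.2.2.2.2 hc)
  have hcard : ({a, b, c, e} : Finset V).card = 4 := by
    rw [Finset.card_insert_of_notMem (by simp [hab, hac, hae]),
      Finset.card_insert_of_notMem (by simp [hbc, hbe]),
      Finset.card_insert_of_notMem (by simp [hce]), Finset.card_singleton]
  omega

section Path

variable {S : Finset V}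

open Classical in
/-- the chosen geodesic -/
noncomputable def chosen (hS : MutualVisibility G S) (x y : V) (h : x ∈ S ∧ y ∈ S ∧ x ≠ y) :
    G.Walk x y := Classical.choose (hS x h.1 y h.2.1 h.2.2)

lemma chosen_geo (hS : MutualVisibility G S) (x y : V) (h : x ∈ S ∧ y ∈ S ∧ x ≠ y) :
    IsGeodesic (chosen hS x y h) := (Classical.choose_spec (hS x h.1 y h.2.1 h.2.2)).1

lemma chosen_free (hS : MutualVisibility G S) (x y : V) (h : x ∈ S ∧ y ∈ S ∧ x ≠ y) :
    ∀ w ∈ (chosen hS x y h).support, w ∈ S → w = x ∨ w = y :=
  (Classical.choose_spec (hS x h.1 y h.2.1 h.2.2)).2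

open Classical in
/-- the vertices of the chosen geodesic, in one direction -/
noncomputable def path0 (hS : MutualVisibility G S) (x y : V) (t : ℕ) : V :=
  if h : x ∈ S ∧ y ∈ S ∧ x ≠ y then (chosen hS x y h).getVert t else x

lemma path0_zero (hS : MutualVisibility G S) (x y : V) (hx : x ∈ S) (hy : y ∈ S) (hxy : x ≠ y) :
    path0 hS x y 0 = x := by
  unfold path0
  rw [dif_pos ⟨hx, hy, hxy⟩, Walk.getVert_zero]

lemma path0_end (hS : MutualVisibility G S) (x y : V) (hx : x ∈ S) (hy : y ∈ S) (hxy : x ≠ y) :
    path0 hS x y (G.dist x y) = y := by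
  unfold path0
  rw [dif_pos ⟨hx, hy, hxy⟩, ← chosen_geo hS x y ⟨hx, hy, hxy⟩, Walk.getVert_length]

lemma path0_dist (hG : G.Connected) (hS : MutualVisibility G S) (x y : V) (hx : x ∈ S)
    (hy : y ∈ S) (hxy : x ≠ y) (i j : ℕ) (hij : i ≤ j) (hj : j ≤ G.dist x y) :
    G.dist (path0 hS x y i) (path0 hS x y j) = j - i := by
  unfold path0
  rw [dif_pos ⟨hx, hy, hxy⟩, dif_pos ⟨hx, hy, hxy⟩]
  have hg := chosen_geo hS x y ⟨hx, hy, hxy⟩
  exact geo_dist hG hg hij (by rw [hg]; exact hj)

lemma path0_notS (hG : G.Connected) (hS : MutualVisibility G S) (x y : V) (hx : x ∈ S)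
    (hy : y ∈ S) (hxy : x ≠ y) (t : ℕ) (h0 : 0 < t) (h1 : t < G.dist x y) :
    ¬ path0 hS x y t ∈ S := by
  intro hm
  have hd0 := path0_dist hG hS x y hx hy hxy 0 t (by omega) (by omega)
  have hd1 := path0_dist hG hS x y hx hy hxy t (G.dist x y) (by omega) le_rfl
  rw [path0_zero hS x y hx hy hxy] at hd0
  rw [path0_end hS x y hx hy hxy] at hd1
  have hsup : path0 hS x y t ∈ (chosen hS x y ⟨hx, hy, hxy⟩).support := by
    unfold path0
    rw [dif_pos ⟨hx, hy, hxy⟩]
    exact Walk.getVert_mem_support _ _
  rcases chosen_free hS x y ⟨hx, hy, hxy⟩ _ hsup hm with h | h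
  · rw [h, G.dist_self] at hd0
    omega
  · rw [h, G.dist_self] at hd1
    omega

open Classical in
/-- symmetric choice of the paths -/
noncomputable def pathS (hS : MutualVisibility G S) (x y : V) (t : ℕ) : V :=
  if WellOrderingRel x y then path0 hS x y t else path0 hS y x (G.dist x y - t)

/-- the abstract situation of a graph with a large mutual visibility set -/
noncomputable def confOf (hG : G.Connected)
    (h : ∀ S : Finset V, GeneralPosition G S → S.card ≤ 3) (S : Finset V)
    (hS : MutualVisibility G S) (hc : 8 ≤ S.card) : Conf V where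
  d := G.dist
  S := fun x => x ∈ S
  path := pathS hS
  d_self := fun x => G.dist_self
  d_pos := fun x y hxy => hG.pos_dist_of_ne hxy
  d_symm := fun x y => G.dist_comm
  d_tri := fun x y z => hG.dist_triangle
  quad := quad_of_no_four hG h
  path_zero := by
    intro x y hx hy hxy
    unfold pathS
    split_ifs with hr
    · exact path0_zero hS x y hx hy hxy
    · rw [Nat.sub_zero, G.dist_comm]
      exact path0_end hS y x hy hx hxy.symm
  path_end := by
    intro x y hx hy hxy
    unfold pathS
    split_ifs with hr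
    · exact path0_end hS x y hx hy hxy
    · rw [Nat.sub_self]
      exact path0_zero hS y x hy hx hxy.symm
  path_dist := by
    intro x y hx hy hxy i j hij hj
    unfold pathS
    split_ifs with hr
    · exact path0_dist hG hS x y hx hy hxy i j hij hj
    · rw [G.dist_comm, path0_dist hG hS y x hy hx hxy.symm _ _ (by omega)
        (by rw [G.dist_comm (u := y)]; omega)]
      omega
  path_notS := by
    intro x y hx hy hxy t h0 h1
    unfold pathS
    split_ifs with hr
    · exact path0_notS hG hS x y hx hy hxy t h0 h1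
    · exact path0_notS hG hS y x hy hx hxy.symm _ (by omega)
        (by rw [G.dist_comm (u := y)]; omega)
  path_symm := by
    intro x y hx hy hxy t ht
    unfold pathS
    rcases trichotomous_of (WellOrderingRel (α := V)) x y with hr | hr | hr
    · rw [if_neg (asymm hr), if_pos hr, G.dist_comm]
    · exact absurd hr hxy
    · rw [if_pos hr, if_neg (asymm hr)]
      congr 1
      omega
  more := by
    classical
    intro k s hk hs
    have h1 : ((Finset.range k).image s).card < S.card := by
      calc ((Finset.range k).image s).card ≤ (Finset.range k).card := Finset.card_image_le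
        _ = k := Finset.card_range k
        _ < S.card := by omega
    obtain ⟨x, hx, hn⟩ := Finset.exists_mem_notMem_of_card_lt_card h1
    refine ⟨x, hx, fun i hi he => hn ?_⟩
    rw [Finset.mem_image]
    exact ⟨i, Finset.mem_range.2 hi, he⟩

end Path

end MP86da66
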