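/-!
# A kernel-friendly certificate checker (definitions)

Packed linear forms: a natural number `A` in base `2^16` is read as the form
`∑ (digit m of A) * x m`, `m < 256`; `x 0 = 1` and `x (16 i + j)` is the distance of the
points number `i` and `j`.
-/

namespace MP86da66

/-- Evaluate `n` before continuing (only matters for the kernel). -/
def force {α : Type} (n : Nat) (k : Nat → α) : α :=
  match n with
  | 0 => k 0
  | m + 1 => k (Nat.succ m)

theorem force_eq {α : Type} (n : Nat) (k : Nat → α) : force n k = k n := by
  cases n <;> rfl

/-- `x < y` as a `Bool`. -/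
def lt (x y : Nat) : Bool := Nat.ble (Nat.succ x) y

/-- the packed unit form of the pair `(i, j)`, `i < j`. -/
def pw (i j : Nat) : Nat := Nat.shiftLeft 1 (Nat.add (Nat.mul 256 i) (Nat.mul 16 j))

/-- the packed form of the distance of `i` and `j`. -/
def pws (i j : Nat) : Nat :=
  cond (Nat.beq i j) 0 (cond (Nat.ble i j) (pw i j) (pw j i))

/-- A hypothesis `A ≥ B`, all digits at most `b`. -/
structure Hyp where
  A : Nat
  B : Nat
  b : Nat

def mkH (A B b : Nat) (k : Hyp → Bool) : Bool :=
  force A fun A => force B fun B => k ⟨A, B, b⟩

/-- `d a m + d m b ≤ d a b` -/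
def hPos (a m b : Nat) (k : Hyp → Bool) : Bool :=
  mkH (pws a b) (Nat.add (pws a m) (pws m b)) 2 k

/-- `d a b + 1 ≤ d a m + d m b` -/
def hNeg (a m b : Nat) (k : Hyp → Bool) : Bool :=
  mkH (Nat.add (pws a m) (pws m b)) (Nat.succ (pws a b)) 2 k

def getH : List Hyp → Nat → Hyp
  | [], _ => ⟨0, 0, 0⟩
  | h :: _, 0 => h
  | _ :: t, n + 1 => getH t n

/-- digit of the root code `R` at the triple `i < j < l`. -/
def rdig (R i j l : Nat) : Nat :=
  Nat.land (Nat.shiftRight R (Nat.add (Nat.mul 2 i) (Nat.add (Nat.mul 16 j) (Nat.mul 128 l)))) 3

def fld (w s : Nat) : Nat := Nat.land (Nat.shiftRight w s) 15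

def fldB (w s : Nat) : Nat := Nat.land (Nat.shiftRight w s) 255


def tri1 (lam i j l A B b : Nat) (k : Nat → Nat → Nat → Bool) : Bool :=
  and (lt i j) (and (lt j l) (k (Nat.add A (Nat.mul lam (Nat.add (pw i j) (pw i l))))
    (Nat.add B (Nat.mul lam (pw j l))) (Nat.add b (Nat.mul lam 2))))
def tri2 (lam i j l A B b : Nat) (k : Nat → Nat → Nat → Bool) : Bool :=
  and (lt i j) (and (lt j l) (k (Nat.add A (Nat.mul lam (Nat.add (pw i j) (pw j l))))
    (Nat.add B (Nat.mul lam (pw i l))) (Nat.add b (Nat.mul lam 2))))
def tri3 (lam i j l A B b : Nat) (k : Nat → Nat → Nat → Bool) : Bool :=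
  and (lt i j) (and (lt j l) (k (Nat.add A (Nat.mul lam (Nat.add (pw i l) (pw j l))))
    (Nat.add B (Nat.mul lam (pw i j))) (Nat.add b (Nat.mul lam 2))))
def root (K R i j l v : Nat) (k : Bool) : Bool :=
  and (lt i j) (and (lt j l) (and (lt l K) (and (Nat.beq (rdig R i j l) v) k)))
def mid1 (lam i j l A B b : Nat) (k : Nat → Nat → Nat → Bool) : Bool :=
  k (Nat.add A (Nat.mul lam (pw j l))) (Nat.add B (Nat.mul lam (Nat.add (pw i j) (pw i l))))
        (Nat.add b (Nat.mul lam 2))
def mid2 (lam i j l A B b : Nat) (k : Nat → Nat → Nat → Bool) : Bool :=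
  k (Nat.add A (Nat.mul lam (pw i l))) (Nat.add B (Nat.mul lam (Nat.add (pw i j) (pw j l))))
        (Nat.add b (Nat.mul lam 2))
def mid3 (lam i j l A B b : Nat) (k : Nat → Nat → Nat → Bool) : Bool :=
  k (Nat.add A (Nat.mul lam (pw i j))) (Nat.add B (Nat.mul lam (Nat.add (pw i l) (pw j l))))
        (Nat.add b (Nat.mul lam 2))
def str1 (lam i j l A B b : Nat) (k : Nat → Nat → Nat → Bool) : Bool :=
  k (Nat.add A (Nat.mul lam (Nat.add (pw i j) (pw i l))))
        (Nat.add B (Nat.mul lam (Nat.succ (pw j l)))) (Nat.add b (Nat.mul lam 2))
def str2 (lam i j l A B b : Nat) (k : Nat → Nat → Nat → Bool) : Bool :=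
  k (Nat.add A (Nat.mul lam (Nat.add (pw i j) (pw j l))))
        (Nat.add B (Nat.mul lam (Nat.succ (pw i l)))) (Nat.add b (Nat.mul lam 2))
def str3 (lam i j l A B b : Nat) (k : Nat → Nat → Nat → Bool) : Bool :=
  k (Nat.add A (Nat.mul lam (Nat.add (pw i l) (pw j l))))
        (Nat.add B (Nat.mul lam (Nat.succ (pw i j)))) (Nat.add b (Nat.mul lam 2))
def tpos (K N lam i j A B b : Nat) (k : Nat → Nat → Nat → Bool) : Bool :=
  and (lt i K) (and (lt i j) (and (lt j N)
      (k (Nat.add A (Nat.mul lam (pw i j))) (Nat.add B lam) (Nat.add b lam))))
def thyp (h : Hyp) (lam A B b : Nat) (k : Nat → Nat → Nat → Bool) : Bool :=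
  k (Nat.add A (Nat.mul lam h.A)) (Nat.add B (Nat.mul lam h.B))
        (Nat.add b (Nat.mul lam h.b))
def tzero (lam i j A B b : Nat) (k : Nat → Nat → Nat → Bool) : Bool :=
  and (lt i j) (k (Nat.add A (Nat.mul lam (pw i j))) B (Nat.add b lam))

def termA (kind lam i j l A B b : Nat)
    (k : Nat → Nat → Nat → Bool) : Bool :=
  match kind with
  | 0 => tri1 lam i j l A B b k
  | 1 => tri2 lam i j l A B b k
  | _ => tri3 lam i j l A B b k
def termB (kind K R lam i j l A B b : Nat)
    (k : Nat → Nat → Nat → Bool) : Bool :=
  match kind with
  | 0 => root K R i j l 1 (mid1 lam i j l A B b k)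
  | 1 => root K R i j l 2 (mid2 lam i j l A B b k)
  | _ => root K R i j l 3 (mid3 lam i j l A B b k)
def termC (kind K R lam i j l A B b : Nat)
    (k : Nat → Nat → Nat → Bool) : Bool :=
  match kind with
  | 0 => root K R i j l 0 (str1 lam i j l A B b k)
  | 1 => root K R i j l 0 (str2 lam i j l A B b k)
  | _ => root K R i j l 0 (str3 lam i j l A B b k)
def termD (kind K N : Nat) (H : List Hyp) (lam i j A B b : Nat)
    (k : Nat → Nat → Nat → Bool) : Bool :=
  match kind with
  | 0 => tpos K N lam i j A B b k
  | 1 => thyp (getH H (Nat.add i (Nat.mul 16 j))) lam A B b k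
  | _ => tzero lam i j A B b k

/-- add one certificate term `w` to the accumulated inequality `A ≥ B`. -/
def termE (K R N : Nat) (H : List Hyp) (kind lam i j l A B b : Nat)
    (k : Nat → Nat → Nat → Bool) : Bool :=
  cond (Nat.ble kind 5)
    (cond (Nat.ble kind 2) (termA kind lam i j l A B b k)
      (termB (Nat.sub kind 3) K R lam i j l A B b k))
    (cond (Nat.ble kind 8) (termC (Nat.sub kind 6) K R lam i j l A B b k)
      (termD (Nat.sub kind 9) K N H lam i j A B b k))

def term (K R N : Nat) (H : List Hyp) (w A B b : Nat)
    (k : Nat → Nat → Nat → Bool) : Bool :=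
  termE K R N H (fld w 0) (fldB w 4) (fld w 12) (fld w 16) (fld w 20) A B b k

/-- read `n` terms from the certificate entry `c`. -/
def terms (K R N : Nat) (H : List Hyp) : Nat → Nat → Nat → Nat → Nat →
    (Nat → Nat → Nat → Bool) → Bool
  | 0, _, A, B, b, k => k A B b
  | n + 1, c, A, B, b, k =>
    term K R N H c A B b fun A' B' b' =>
      force (Nat.shiftRight c 24) fun c' => terms K R N H n c' A' B' b' k

/-- bit 15 of every digit -/
def MASK : Nat := 0x8000800080008000800080008000800080008000800080008000800080008000800080008000800080008000800080008000800080008000800080008000800080008000800080008000800080008000800080008000800080008000800080008000800080008000800080008000800080008000800080008000800080008000800080008000800080008000800080008000800080008000800080008000800080008000800080008000800080008000800080008000800080008000800080008000800080008000800080008000800080008000800080008000800080008000800080008000800080008000800080008000800080008000800080008000800080008000800080008000800080008000800080008000800080008000800080008000800080008000800080008000800080008000800080008000800080008000800080008000800080008000800080008000800080008000800080008000800080008000800080008000800080008000800080008000800080008000800080008000800080008000800080008000800080008000800080008000800080008000800080008000800080008000800080008000800080008000800080008000800080008000800080008000800080008000800080008000800080008000800080008000800080008000800080008000800080008000800080008000800080008000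
/-- bit 0 of every digit -/
def ONES : Nat := 0x1000100010001000100010001000100010001000100010001000100010001000100010001000100010001000100010001000100010001000100010001000100010001000100010001000100010001000100010001000100010001000100010001000100010001000100010001000100010001000100010001000100010001000100010001000100010001000100010001000100010001000100010001000100010001000100010001000100010001000100010001000100010001000100010001000100010001000100010001000100010001000100010001000100010001000100010001000100010001000100010001000100010001000100010001000100010001000100010001000100010001000100010001000100010001000100010001000100010001000100010001000100010001000100010001000100010001000100010001000100010001000100010001000100010001000100010001000100010001000100010001000100010001000100010001000100010001000100010001000100010001000100010001000100010001000100010001000100010001000100010001000100010001000100010001000100010001000100010001000100010001000100010001000100010001000100010001000100010001000100010001000100010001000100010001000100010001000100010001000100010001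
/-- all digits `(N, j)` -/
def ROWM : Nat := 0xffffffffffffffffffffffffffffffffffffffffffffffffffffffffffffffff
/-- all digits `(i, N)` -/
def COLM : Nat := 0xffff000000000000000000000000000000000000000000000000000000000000ffff000000000000000000000000000000000000000000000000000000000000ffff000000000000000000000000000000000000000000000000000000000000ffff000000000000000000000000000000000000000000000000000000000000ffff000000000000000000000000000000000000000000000000000000000000ffff000000000000000000000000000000000000000000000000000000000000ffff000000000000000000000000000000000000000000000000000000000000ffff000000000000000000000000000000000000000000000000000000000000ffff000000000000000000000000000000000000000000000000000000000000ffff000000000000000000000000000000000000000000000000000000000000ffff000000000000000000000000000000000000000000000000000000000000ffff000000000000000000000000000000000000000000000000000000000000ffff000000000000000000000000000000000000000000000000000000000000ffff000000000000000000000000000000000000000000000000000000000000ffff000000000000000000000000000000000000000000000000000000000000ffff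

def maskN (N : Nat) : Nat :=
  Nat.lor (Nat.shiftLeft ROWM (Nat.mul 256 N)) (Nat.shiftLeft COLM (Nat.mul 16 N))

def leafOK (A B b : Nat) : Bool :=
  and (lt b 32768) (force (Nat.sub B A) fun r =>
    and (Nat.beq (Nat.land r MASK) 0) (lt 0 (Nat.land r 65535)))

def cutOK (A B b : Nat) : Bool :=
  and (lt b 32768) (Nat.beq (Nat.land (Nat.add A B) ONES) 1)

def freshH (N : Nat) : List Hyp → Bool
  | [] => true
  | h :: t => and (Nat.beq (Nat.land (Nat.lor h.A h.B) (maskN N)) 0) (freshH N t)

/-- A tag `(v, x, y)`: the point `v` lies on the chosen path from `x` to `y`. -/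
structure Tag where
  v : Nat
  x : Nat
  y : Nat

def mkTag (v x y : Nat) : Tag := cond (lt x y) ⟨v, x, y⟩ ⟨v, y, x⟩

def findTag : List Tag → Nat → Tag
  | [], _ => ⟨0, 0, 0⟩
  | t :: T, v => cond (Nat.beq t.v v) t (findTag T v)

/-- certificates: a list of nodes in preorder -/
abbrev Cert := List Nat

abbrev Rec := Cert → Nat → List Hyp → List Tag → (Cert → Bool) → Bool

/-- the three children of the triple `i < j < l` (none if it is a root triple, which must be
non-collinear) -/
def triple3 (rec : Rec) (N : Nat) (H : List Hyp) (T : List Tag) (i j l : Nat) (c : Cert)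
    (k : Cert → Bool) : Bool :=
    hPos j i l fun h1 => rec c N (h1 :: H) T fun c =>
      hPos i j l fun h2 => rec c N (h2 :: H) T fun c =>
        hPos i l j fun h3 => rec c N (h3 :: H) T k

def tripleQ (K R : Nat) (rec : Rec) (N : Nat) (H : List Hyp) (T : List Tag) (i j l : Nat)
    (c : Cert) (k : Cert → Bool) : Bool :=
  cond (lt l K) (and (Nat.beq (rdig R i j l) 0) (k c)) (triple3 rec N H T i j l c k)

/-- the relation of a turning pair, applied to the point `v`; `md = 0`: `z1 - v - z2`,
otherwise `v - z1 - z2`. -/
def relP (md z1 z2 v : Nat) (k : Hyp → Bool) : Bool :=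
  cond (Nat.beq md 0) (hPos z1 v z2 k) (hPos v z1 z2 k)

def relN (md z1 z2 v : Nat) (k : Hyp → Bool) : Bool :=
  cond (Nat.beq md 0) (hNeg z1 v z2 k) (hNeg v z1 z2 k)

def nodeLeaf (K R N : Nat) (H : List Hyp) (w : Nat) (k : Bool) : Bool :=
  force (fldB w 4) fun n => force (Nat.shiftRight w 24) fun t =>
  terms K R N H n t 0 0 0 fun A B b => and (leafOK A B b) k

def nodeCut (K R : Nat) (rec : Rec) (w : Nat) (c : Cert) (N : Nat) (H : List Hyp)
    (T : List Tag) (k : Cert → Bool) : Bool :=
  force (fldB w 4) fun n => force (Nat.shiftRight w 24) fun t =>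
  terms K R N H n t 0 0 0 fun A B b => and (cutOK A B b)
      (mkH A (Nat.succ B) (Nat.succ b) fun h => rec c N (h :: H) T k)

def nodeQ (K R : Nat) (rec : Rec) (a b d e : Nat) (c : Cert) (N : Nat) (H : List Hyp)
    (T : List Tag) (k : Cert → Bool) : Bool :=
  and (lt a b) (and (lt b d) (and (lt d e)
        (tripleQ K R rec N H T a b d c fun c =>
          tripleQ K R rec N H T a b e c fun c =>
            tripleQ K R rec N H T a d e c fun c =>
              tripleQ K R rec N H T b d e c k)))

def nodeSplit (rec : Rec) (a m b q : Nat) (c : Cert) (N : Nat) (H : List Hyp)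
    (T : List Tag) (k : Cert → Bool) : Bool :=
  mkH (Nat.add (pws a b) q) (Nat.add (pws a m) (pws m b)) (Nat.add q 2) fun h1 =>
        rec c N (h1 :: H) T fun c =>
      mkH (Nat.add (pws a m) (pws m b)) (Nat.succ (Nat.add (pws a b) q)) (Nat.add q 2) fun h2 =>
        rec c N (h2 :: H) T k

def nodeSplitVar (rec : Rec) (a b q : Nat) (c : Cert) (N : Nat) (H : List Hyp)
    (T : List Tag) (k : Cert → Bool) : Bool :=
      mkH q (pws a b) (Nat.add q 2) fun h1 => rec c N (h1 :: H) T fun c =>
      mkH (pws a b) (Nat.succ q) (Nat.add q 2) fun h2 => rec c N (h2 :: H) T k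

def nodeN (K : Nat) (rec : Rec) (x y : Nat) (c : Cert) (N : Nat) (H : List Hyp)
    (T : List Tag) (k : Cert → Bool) : Bool :=
      and (lt x K) (and (lt y K) (and (Nat.beq x y).not
        (mkH 1 (pws x y) 1 fun h => rec c N (h :: H) T fun c =>
          and (and (lt N 16) (freshH N H))
            (mkH 1 (pws x N) 1 fun h0 => hPos x N y fun h1 =>
              rec c (Nat.succ N) (h1 :: h0 :: H) (mkTag N x y :: T) k))))

def nodeT (K : Nat) (rec : Rec) (x y z : Nat) (c : Cert) (N : Nat) (H : List Hyp)
    (T : List Tag) (k : Cert → Bool) : Bool :=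
      and (lt x K) (and (lt y K) (and (lt z K) (and (Nat.beq x y).not (and (Nat.beq x z).not
        (and (Nat.beq y z).not
        (hNeg x z y fun h => rec c N (h :: H) T fun c =>
          and (and (lt N 16) (freshH N H))
            (mkH (pws x z) (pws x N) 2 fun h0 => mkH (pws x N) (pws x z) 2 fun h1 =>
             mkH (pws y z) (pws y N) 2 fun h2 => mkH (pws y N) (pws y z) 2 fun h3 =>
              rec c (Nat.succ N) (h3 :: h2 :: h1 :: h0 :: H) (mkTag N x y :: T) k)))))))

/-- the three main children of a turning pair -/
def turn1 (rec : Rec) (x y z1 z2 md : Nat) (c : Cert) (N : Nat) (H : List Hyp)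
    (T : List Tag) (k : Cert → Bool) : Bool :=
  mkH 1 (pws x N) 1 fun h0 => hPos x N y fun h1 => relN md z1 z2 N fun h2 =>
    rec c (Nat.succ N) (h2 :: h1 :: h0 :: H) (mkTag N x y :: T) k

def turn2 (rec : Rec) (x y z1 z2 md : Nat) (c : Cert) (N : Nat) (H : List Hyp)
    (T : List Tag) (k : Cert → Bool) : Bool :=
  mkH 1 (pws y N) 1 fun h0 => hPos x N y fun h1 => relP md z1 z2 N fun h2 =>
    rec c (Nat.succ N) (h2 :: h1 :: h0 :: H) (mkTag N x y :: T) k

def turn3 (rec : Rec) (x y z1 z2 md : Nat) (c : Cert) (N M : Nat) (H : List Hyp)
    (T : List Tag) (k : Cert → Bool) : Bool :=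
  mkH 1 (pws N M) 1 fun h0 => mkH (pws N M) 1 1 fun h1 =>
  hPos x N y fun h2 => hPos x M y fun h3 =>
  mkH (Nat.succ (pws x N)) (pws x M) 2 fun h4 =>
  mkH (pws x M) (Nat.succ (pws x N)) 2 fun h5 =>
  relP md z1 z2 N fun h6 => relN md z1 z2 M fun h7 =>
    rec c (Nat.succ M) (h7 :: h6 :: h5 :: h4 :: h3 :: h2 :: h1 :: h0 :: H)
      (mkTag M x y :: mkTag N x y :: T) k

def nodeTurn (K : Nat) (rec : Rec) (x y z1 z2 md : Nat) (c : Cert) (N : Nat) (H : List Hyp)
    (T : List Tag) (k : Cert → Bool) : Bool :=
      and (lt x K) (and (lt y K) (and (lt z1 K) (and (lt z2 K) (and (Nat.beq x y).not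
        (relN md z1 z2 x fun hb => rec c N (hb :: H) T fun c =>
         relP md z1 z2 y fun ha => rec c N (ha :: H) T fun c =>
         mkH 1 (pws x y) 1 fun hg => rec c N (hg :: H) T fun c =>
         and (and (lt (Nat.succ N) 16) (freshH N H)) (and (freshH (Nat.succ N) H)
          (turn1 rec x y z1 z2 md c N H T fun c => turn2 rec x y z1 z2 md c N H T fun c =>
            turn3 rec x y z1 z2 md c N (Nat.succ N) H T k)))))))

def nodeOrd (rec : Rec) (v v' : Nat) (t t' : Tag) (c : Cert) (N : Nat) (H : List Hyp)
    (T : List Tag) (k : Cert → Bool) : Bool :=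
        and (and (Nat.beq t.v v) (lt t.x t.y))
         (and (Nat.beq t'.v v') (and (Nat.beq t.x t'.x) (and (Nat.beq t.y t'.y)
          (hPos t.x v v' fun h => rec c N (h :: H) T fun c =>
           hPos t.x v' v fun h0 => mkH (pws t.x v) (Nat.succ (pws t.x v')) 2 fun h1 =>
            rec c N (h1 :: h0 :: H) T k))))

/-- One node of the certificate. -/
def node (K R : Nat) (rec : Rec) (w : Nat) (c : Cert) (N : Nat) (H : List Hyp) (T : List Tag)
    (k : Cert → Bool) : Bool :=
  match fld w 0 with
  | 0 => nodeLeaf K R N H w (k c)
  | 1 => nodeCut K R rec w c N H T k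
  | 2 => force (fld w 4) fun a => force (fld w 8) fun b => force (fld w 12) fun d =>
      force (fld w 16) fun e => nodeQ K R rec a b d e c N H T k
  | 3 => force (fld w 4) fun a => force (fld w 8) fun m => force (fld w 12) fun b =>
      force (fld w 16) fun q => nodeSplit rec a m b q c N H T k
  | 4 => force (fld w 4) fun a => force (fld w 8) fun b =>
      force (fldB w 16) fun q => nodeSplitVar rec a b q c N H T k
  | 5 => force (fld w 4) fun x => force (fld w 8) fun y => nodeN K rec x y c N H T k
  | 6 => force (fld w 4) fun x => force (fld w 8) fun y => force (fld w 12) fun z =>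
      nodeT K rec x y z c N H T k
  | 7 => force (fld w 4) fun x => force (fld w 8) fun y => force (fld w 12) fun z1 =>
      force (fld w 16) fun z2 => force (fld w 20) fun md =>
      nodeTurn K rec x y z1 z2 md c N H T k
  | 8 => force (fld w 4) fun v => force (fld w 8) fun v' =>
      nodeOrd rec v v' (findTag T v) (findTag T v') c N H T k
  | _ => false

def chkBody (K R : Nat) (rec : Rec) : Rec
  | [], _, _, _, _ => false
  | w :: c, N, H, T, k => force w fun w => node K R rec w c N H T k

def chk (K R : Nat) : Nat → Rec
  | 0 => fun _ _ _ _ _ => false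
  | f + 1 => chkBody K R (chk K R f)

/-- the certificate `c` refutes the `K`-point pattern with root code `R`. -/
def kill (K R : Nat) (c : Cert) : Bool := chk K R 100 c K [] [] fun _ => true

end MP86da66
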