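import Mathlib
import Pool.Agent.Lib.MP_86da66_co.Core
import Pool.Agent.Lib.MP_86da66_co.LpDef

namespace MP86da66

/-! ## packed linear forms -/

/-- digit number `m` of `A` in base `65536` -/
def dg (m A : ℕ) : ℕ := A / 65536 ^ m % 65536

/-- value of the packed form `A` -/
def ev (x : ℕ → ℕ) (A : ℕ) : ℕ := ∑ m ∈ Finset.range 256, dg m A * x m

def Small (b A : ℕ) : Prop := ∀ m, m < 256 → dg m A ≤ b

lemma div_add_of_small {A B : ℕ} (n : ℕ) (h : ∀ m, m < n → dg m A + dg m B < 65536) :
    ∀ m, m ≤ n → (A + B) / 65536 ^ m = A / 65536 ^ m + B / 65536 ^ m := by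
  intro m
  induction m with
  | zero => intro _; simp
  | succ m ih =>
    intro hm
    have h1 := ih (by omega)
    have h2 := h m (by omega)
    unfold dg at h2
    rw [pow_succ, ← Nat.div_div_eq_div_mul, ← Nat.div_div_eq_div_mul, ← Nat.div_div_eq_div_mul, h1]
    omega

lemma dg_add {A B : ℕ} (h : ∀ m, m < 256 → dg m A + dg m B < 65536) (m : ℕ) (hm : m < 256) :
    dg m (A + B) = dg m A + dg m B := by
  have h1 := div_add_of_small 256 h m (by omega)
  have h2 := h m hm
  unfold dg at *
  rw [h1]
  omega

lemma ev_add {x : ℕ → ℕ} {A B : ℕ} (h : ∀ m, m < 256 → dg m A + dg m B < 65536) :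
    ev x (A + B) = ev x A + ev x B := by
  unfold ev
  rw [← Finset.sum_add_distrib]
  apply Finset.sum_congr rfl
  intro m hm
  rw [dg_add h m (Finset.mem_range.mp hm)]
  ring

lemma Small.add {a b A B : ℕ} (hA : Small a A) (hB : Small b B) (hab : a + b < 65536) :
    Small (a + b) (A + B) := by
  intro m hm
  rw [dg_add (fun m hm => lt_of_le_of_lt (Nat.add_le_add (hA m hm) (hB m hm)) hab) m hm]
  exact Nat.add_le_add (hA m hm) (hB m hm)

lemma Small.ev_add {x : ℕ → ℕ} {a b A B : ℕ} (hA : Small a A) (hB : Small b B)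
    (hab : a + b < 65536) : ev x (A + B) = ev x A + ev x B :=
  MP86da66.ev_add (fun m hm => lt_of_le_of_lt (Nat.add_le_add (hA m hm) (hB m hm)) hab)

lemma Small.mono {a b A : ℕ} (h : Small a A) (hab : a ≤ b) : Small b A :=
  fun m hm => le_trans (h m hm) hab

lemma dg_zero (m : ℕ) : dg m 0 = 0 := by simp [dg]

lemma ev_zero (x : ℕ → ℕ) : ev x 0 = 0 := by simp [ev, dg_zero]

lemma small_zero : Small 0 0 := by intro m _; simp [dg_zero]

lemma dg_pow (m k : ℕ) : dg m (65536 ^ k) = if m = k then 1 else 0 := by
  unfold dg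
  rcases lt_trichotomy m k with h | h | h
  · rw [if_neg (by omega)]
    obtain ⟨e, rfl⟩ := Nat.exists_eq_add_of_lt h
    rw [show m + e + 1 = m + (e + 1) by ring, pow_add, Nat.mul_div_cancel_left _ (by positivity),
      pow_succ, Nat.mul_mod_left]
  · subst h
    rw [if_pos rfl, Nat.div_self (by positivity)]
  · rw [if_neg (by omega), Nat.div_eq_of_lt]
    exact Nat.pow_lt_pow_right (by norm_num) h

lemma ev_pow (x : ℕ → ℕ) {k : ℕ} (hk : k < 256) : ev x (65536 ^ k) = x k := by
  unfold ev
  rw [Finset.sum_eq_single k]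
  · simp [dg_pow]
  · intro m _ hm; simp [dg_pow, hm]
  · intro h; simp at h; omega

lemma small_pow (k : ℕ) : Small 1 (65536 ^ k) := by
  intro m _; rw [dg_pow]; split_ifs <;> omega

lemma dg_one (m : ℕ) : dg m 1 = if m = 0 then 1 else 0 := by
  have := dg_pow m 0
  simpa using this

/-- `q < 65536` as a constant -/
lemma dg_const (m : ℕ) {q : ℕ} (hq : q < 65536) : dg m q = if m = 0 then q else 0 := by
  unfold dg
  split_ifs with h
  · subst h; simp; omega
  · have : q / 65536 ^ m = 0 := by
      apply Nat.div_eq_of_lt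
      calc q < 65536 := hq
        _ = 65536 ^ 1 := by norm_num
        _ ≤ 65536 ^ m := Nat.pow_le_pow_right (by norm_num) (by omega)
    rw [this]

lemma small_const {q : ℕ} (hq : q < 65536) : Small q q := by
  intro m _; rw [dg_const m hq]; split_ifs <;> omega

lemma ev_const {x : ℕ → ℕ} (hx : x 0 = 1) {q : ℕ} (hq : q < 65536) : ev x q = q := by
  unfold ev
  rw [Finset.sum_eq_single 0]
  · rw [dg_const 0 hq]; simp [hx]
  · intro m _ hm; rw [dg_const m hq]; simp [hm]
  · intro h; simp at h

/-- the inequality `A ≥ B` holds, with digits bounded by `b` -/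
def Good (x : ℕ → ℕ) (A B b : ℕ) : Prop :=
  b < 32768 → ev x B ≤ ev x A ∧ Small b A ∧ Small b B

lemma Good.add {x : ℕ → ℕ} {A B b A' B' b' : ℕ} (h : Good x A B b) (h' : Good x A' B' b') :
    Good x (A + A') (B + B') (b + b') := by
  intro hb
  obtain ⟨h1, h2, h3⟩ := h (by omega)
  obtain ⟨h1', h2', h3'⟩ := h' (by omega)
  refine ⟨?_, h2.add h2' (by omega), h3.add h3' (by omega)⟩
  rw [h2.ev_add h2' (by omega), h3.ev_add h3' (by omega)]
  omega

lemma Good.zero (x : ℕ → ℕ) : Good x 0 0 0 := by
  intro _; exact ⟨le_refl _, small_zero, small_zero⟩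

lemma Good.smul {x : ℕ → ℕ} {A B b : ℕ} (h : Good x A B b) (n : ℕ) :
    Good x (n * A) (n * B) (n * b) := by
  induction n with
  | zero => simpa using Good.zero x
  | succ n ih =>
    have := ih.add h
    convert this using 1 <;> ring

/-! ## bit masks -/

lemma dg_testBit (m A j : ℕ) (hj : j < 16) : (dg m A).testBit j = A.testBit (16 * m + j) := by
  unfold dg
  have : (65536 : ℕ) = 2 ^ 16 := by norm_num
  rw [this, ← pow_mul, Nat.testBit_mod_two_pow, Nat.testBit_div_two_pow]
  simp [hj, add_comm]

lemma dg_lt (m A : ℕ) : dg m A < 65536 := Nat.mod_lt _ (by norm_num)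

lemma mask_bit : ∀ m, m < 256 → MASK.testBit (16 * m + 15) = true := by decide +kernel

lemma ones_bit : ∀ m, m < 256 → ONES.testBit (16 * m) = true := by decide +kernel

lemma row_bit : ∀ k, k < 256 → ROWM.testBit k = true := by decide +kernel

lemma col_bit : ∀ i, i < 16 → ∀ j, j < 16 → COLM.testBit (256 * i + j) = true := by
  decide +kernel

lemma lt_iff {x y : ℕ} : lt x y = true ↔ x < y := by
  unfold lt; rw [Nat.ble_eq]; exact Nat.succ_le_iff

lemma leafOK_sound {x : ℕ → ℕ} (hx : x 0 = 1) {A B b : ℕ} (h : leafOK A B b = true)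
    (hg : Good x A B b) : False := by
  unfold leafOK at h
  simp only [force_eq, Bool.and_eq_true, lt_iff, Nat.beq_eq] at h
  obtain ⟨hb, h1, h2⟩ := h
  obtain ⟨hle, hA, hB⟩ := hg hb
  set r := Nat.sub B A with hr
  have h2' : 0 < r % 65536 := by
    have : Nat.land r 65535 = r % 65536 := by
      have := Nat.and_two_pow_sub_one_eq_mod r 16
      simpa using this
    rwa [this] at h2
  have hrB : A + r = B := by
    have : r = B - A := rfl
    omega
  have hr15 : ∀ m, m < 256 → dg m r < 32768 := by
    intro m hm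
    have e1 : (dg m r).testBit 15 = false := by
      rw [dg_testBit m r 15 (by norm_num)]
      have := congrArg (fun t => Nat.testBit t (16 * m + 15)) h1
      change (r &&& MASK).testBit (16 * m + 15) = (0 : ℕ).testBit (16 * m + 15) at this
      rw [Nat.testBit_and, mask_bit m hm] at this
      simpa using this
    have e2 := dg_lt m r
    by_contra hcon
    have : (dg m r).testBit 15 = true := by
      rw [Nat.testBit_eq_decide_div_mod_eq]
      simp only [decide_eq_true_eq]
      omega
    rw [this] at e1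
    exact absurd e1 (by simp)
  have hadd : ev x B = ev x A + ev x r := by
    rw [← hrB]
    apply ev_add
    intro m hm
    have := hA m hm
    have := hr15 m hm
    omega
  have hpos : 0 < ev x r := by
    unfold ev
    apply Finset.sum_pos'
    · intro i _; exact Nat.zero_le _
    · refine ⟨0, by simp, ?_⟩
      rw [hx]
      simp only [dg, pow_zero, Nat.div_one, mul_one]
      exact h2'
  omega

lemma cutOK_sound {x : ℕ → ℕ} (hx : x 0 = 1) {A B b : ℕ} (h : cutOK A B b = true)
    (hg : Good x A B b) : Good x A (Nat.succ B) (Nat.succ b) := by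
  unfold cutOK at h
  simp only [Bool.and_eq_true, lt_iff, Nat.beq_eq] at h
  obtain ⟨hb, h1⟩ := h
  obtain ⟨hle, hA, hB⟩ := hg hb
  intro hb1
  have hpar : ∀ m, m < 256 → dg m (A + B) % 2 = if m = 0 then 1 else 0 := by
    intro m hm
    have := congrArg (fun t => Nat.testBit t (16 * m)) h1
    change ((A + B) &&& ONES).testBit (16 * m) = (1 : ℕ).testBit (16 * m) at this
    rw [Nat.testBit_and, ones_bit m hm, Bool.and_true] at this
    have e := dg_testBit m (A + B) 0 (by norm_num)
    rw [add_zero, this, Nat.testBit_zero] at e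
    split_ifs with h0
    · subst h0
      simp at e
      exact e
    · have e1 : Nat.testBit 1 (16 * m) = false := by
        rw [Nat.testBit_eq_decide_div_mod_eq]
        simp only [decide_eq_false_iff_not]
        rw [Nat.div_eq_of_lt (Nat.one_lt_two_pow (by omega))]
        norm_num
      rw [e1] at e
      simp at e
      omega
  have hodd : ev x (A + B) % 2 = 1 := by
    unfold ev
    rw [Finset.sum_nat_mod]
    have : ∀ m ∈ Finset.range 256, dg m (A + B) * x m % 2 = if m = 0 then 1 else 0 := by
      intro m hm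
      have := hpar m (Finset.mem_range.mp hm)
      rw [Nat.mul_mod, this]
      split_ifs with h0
      · subst h0; rw [hx]
      · simp
    rw [Finset.sum_congr rfl this]
    simp
  rw [hA.ev_add hB (by omega)] at hodd
  refine ⟨?_, hA.mono (by omega), ?_⟩
  · rw [Nat.succ_eq_add_one, hB.ev_add (small_const (q := 1) (by norm_num)) (by omega),
      ev_const hx (q := 1) (by norm_num)]
    omega
  · exact hB.add (small_const (q := 1) (by norm_num)) (by omega)

lemma mask_fresh {N A : ℕ} (h : A &&& maskN N = 0) (m : ℕ) (hm : m < 256)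
    (hN : m / 16 = N ∨ m % 16 = N) : dg m A = 0 := by
  apply Nat.eq_of_testBit_eq
  intro j
  rw [Nat.zero_testBit]
  by_cases hj : j < 16
  · rw [dg_testBit m A j hj]
    have hb := congrArg (fun t => Nat.testBit t (16 * m + j)) h
    simp only [Nat.testBit_and, Nat.zero_testBit] at hb
    have hmask : (maskN N).testBit (16 * m + j) = true := by
      unfold maskN
      change ((ROWM <<< (256 * N)) ||| (COLM <<< (16 * N))).testBit (16 * m + j) = true
      rw [Nat.testBit_or, Nat.testBit_shiftLeft, Nat.testBit_shiftLeft]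
      rcases hN with hN | hN
      · have e1 : 256 * N ≤ 16 * m + j := by omega
        rw [row_bit (16 * m + j - 256 * N) (by omega)]
        simp [e1]
      · have e1 : 16 * N ≤ 16 * m + j := by omega
        have e2 : 16 * m + j - 16 * N = 256 * (m / 16) + j := by omega
        rw [e2, col_bit (m / 16) (by omega) j hj]
        simp [e1]
    rw [hmask] at hb
    simpa using hb
  · have : dg m A < 2 ^ j := by
      calc dg m A < 65536 := dg_lt m A
        _ = 2 ^ 16 := by norm_num
        _ ≤ 2 ^ j := Nat.pow_le_pow_right (by norm_num) (by omega)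
    exact Nat.testBit_lt_two_pow this

/-- the variables: `x 0 = 1`, `x (16 i + j) = d (p i) (p j)`. -/
def xv {V : Type*} (C : Conf V) (p : ℕ → V) (m : ℕ) : ℕ :=
  if m = 0 then 1 else C.d (p (m / 16)) (p (m % 16))

variable {V : Type*} {C : Conf V}

lemma xv_zero (p : ℕ → V) : xv C p 0 = 1 := by simp [xv]

lemma freshH_mem {N : ℕ} {H : List Hyp} (h : freshH N H = true) :
    ∀ g ∈ H, g.A &&& maskN N = 0 ∧ g.B &&& maskN N = 0 := by
  induction H with
  | nil => intro g hg; simp at hg
  | cons a t ih =>
    unfold freshH at h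
    simp only [Bool.and_eq_true, Nat.beq_eq] at h
    intro g hg
    rcases List.mem_cons.mp hg with rfl | hg
    · have h1 := h.1
      change (g.A ||| g.B) &&& maskN N = 0 at h1
      rw [Nat.and_or_distrib_right] at h1
      exact Nat.or_eq_zero_iff.mp h1
    · exact ih h.2 g hg

lemma ev_update {p : ℕ → V} {N : ℕ} {v : V} {A : ℕ} (h : A &&& maskN N = 0) :
    ev (xv C (Function.update p N v)) A = ev (xv C p) A := by
  unfold ev
  apply Finset.sum_congr rfl
  intro m hm
  have hm := Finset.mem_range.mp hm
  by_cases hN : m / 16 = N ∨ m % 16 = N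
  · rw [mask_fresh h m hm hN]; simp
  · push Not at hN
    unfold xv
    rw [Function.update_of_ne hN.1, Function.update_of_ne hN.2]

lemma Good.update {p : ℕ → V} {N : ℕ} {v : V} {A B b : ℕ} (hA : A &&& maskN N = 0)
    (hB : B &&& maskN N = 0) (hg : Good (xv C p) A B b) :
    Good (xv C (Function.update p N v)) A B b := by
  intro hb
  rw [ev_update hA, ev_update hB]
  exact hg hb

lemma pw_eq (i j : ℕ) : pw i j = 65536 ^ (16 * i + j) := by
  unfold pw
  change 1 <<< (256 * i + 16 * j) = _
  rw [Nat.shiftLeft_eq, one_mul, show (65536 : ℕ) = 2 ^ 16 by norm_num, ← pow_mul]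
  congr 1
  ring

lemma small_pw (i j : ℕ) : Small 1 (pw i j) := by rw [pw_eq]; exact small_pow _

lemma ev_pw (p : ℕ → V) {i j : ℕ} (hi : i < 16) (hj : j < 16) (h : i < j) :
    ev (xv C p) (pw i j) = C.d (p i) (p j) := by
  rw [pw_eq, ev_pow _ (by omega)]
  unfold xv
  rw [if_neg (by omega)]
  have e1 : (16 * i + j) / 16 = i := by omega
  have e2 : (16 * i + j) % 16 = j := by omega
  rw [e1, e2]

lemma small_pws (i j : ℕ) : Small 1 (pws i j) := by
  unfold pws
  cases h1 : Nat.beq i j
  · cases h2 : Nat.ble i j <;> simp [small_pw]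
  · simp only [cond_true]; exact small_zero.mono (by norm_num)

lemma ev_pws (p : ℕ → V) {i j : ℕ} (hi : i < 16) (hj : j < 16) :
    ev (xv C p) (pws i j) = C.d (p i) (p j) := by
  unfold pws
  cases h1 : Nat.beq i j
  · have hne : i ≠ j := by
      intro h; rw [h] at h1; simp at h1
    cases h2 : Nat.ble i j
    · simp only [cond_false]
      have : ¬ i ≤ j := by
        intro h; rw [← Nat.ble_eq, h2] at h; simp at h
      rw [ev_pw p hj hi (by omega), C.d_symm]
    · simp only [cond_false, cond_true]
      have : i ≤ j := by rw [← Nat.ble_eq]; exact h2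
      rw [ev_pw p hi hj (by omega)]
  · simp only [cond_true]
    have : i = j := Nat.eq_of_beq_eq_true h1
    rw [this, C.d_self, ev_zero]

end MP86da66
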