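import Pool.Agent.Lib.MP_86da66_co.LpSound

namespace MP86da66

variable {V : Type*} {C : Conf V}

/-- meaning of a tag -/
def TagOK (C : Conf V) (K : ℕ) (p : ℕ → V) (N : ℕ) (t : Tag) : Prop :=
  K ≤ t.v ∧ t.v < N ∧ t.x < t.y ∧ t.y < K ∧
    ∃ s, 0 < s ∧ s < C.d (p t.x) (p t.y) ∧ p t.v = C.path (p t.x) (p t.y) s

/-- the points `p` realise the state. -/
structure Sat (C : Conf V) (K R : ℕ) (p : ℕ → V) (N : ℕ) (H : List Hyp) (T : List Tag) :
    Prop where
  KN : K ≤ N
  inS : ∀ i, i < K → C.S (p i)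
  inj : ∀ i j, i < K → j < K → p i = p j → i = j
  notS : ∀ j, K ≤ j → j < N → ¬ C.S (p j)
  root : ∀ i j l, i < j → j < l → l < K → rdig R i j l = C.dig (p i) (p j) (p l)
  hyps : ∀ h ∈ H, Good (xv C p) h.A h.B h.b
  tags : ∀ t ∈ T, TagOK C K p N t

lemma fld_lt (w s : ℕ) : fld w s < 16 := by
  unfold fld
  have : Nat.land (Nat.shiftRight w s) 15 = (w >>> s) % 16 := by
    have := Nat.and_two_pow_sub_one_eq_mod (w >>> s) 4
    simpa using this
  rw [this]
  exact Nat.mod_lt _ (by norm_num)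

/-! ### elementary good inequalities -/

lemma good_two {x : ℕ → ℕ} {A B b c : ℕ} (hA : Small b A) (hB : Small c B)
    (hb : b < 65536) (hc : c < 65536) (hbc : b ≤ 2) (hcc : c ≤ 2)
    (h : ev x B ≤ ev x A) : Good x A B 2 :=
  fun _ => ⟨h, hA.mono hbc, hB.mono hcc⟩

lemma small_add_pw (i j k l : ℕ) : Small 2 (pw i j + pw k l) :=
  (small_pw i j).add (small_pw k l) (by norm_num)

lemma ev_add_pw (p : ℕ → V) {i j k l : ℕ} (hj : j < 16) (hij : i < j) (hl : l < 16)
    (hkl : k < l) : ev (xv C p) (pw i j + pw k l) = C.d (p i) (p j) + C.d (p k) (p l) := by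
  rw [(small_pw i j).ev_add (small_pw k l) (by norm_num), ev_pw p (by omega) hj hij,
    ev_pw p (by omega) hl hkl]

lemma small_add_pws (i j k l : ℕ) : Small 2 (pws i j + pws k l) :=
  (small_pws i j).add (small_pws k l) (by norm_num)

lemma ev_add_pws (p : ℕ → V) {i j k l : ℕ} (hi : i < 16) (hj : j < 16) (hk : k < 16)
    (hl : l < 16) :
    ev (xv C p) (pws i j + pws k l) = C.d (p i) (p j) + C.d (p k) (p l) := by
  rw [(small_pws i j).ev_add (small_pws k l) (by norm_num), ev_pws p hi hj, ev_pws p hk hl]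

lemma small_succ {b A : ℕ} (h : Small b A) (hb : b < 65535) : Small (b + 1) (Nat.succ A) :=
  h.add (small_const (q := 1) (by norm_num)) (by omega)

lemma ev_succ (p : ℕ → V) {b A : ℕ} (h : Small b A) (hb : b < 65535) :
    ev (xv C p) (Nat.succ A) = ev (xv C p) A + 1 := by
  rw [Nat.succ_eq_add_one, h.ev_add (small_const (q := 1) (by norm_num)) (by omega),
    ev_const (xv_zero p) (q := 1) (by norm_num)]

lemma good_pw {p : ℕ → V} {i j k l m n : ℕ} (hj : j < 16) (hij : i < j) (hl : l < 16)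
    (hkl : k < l) (hn : n < 16) (hmn : m < n)
    (h : C.d (p m) (p n) ≤ C.d (p i) (p j) + C.d (p k) (p l)) :
    Good (xv C p) (pw i j + pw k l) (pw m n) 2 := by
  intro _
  refine ⟨?_, small_add_pw _ _ _ _, (small_pw _ _).mono (by norm_num)⟩
  rw [ev_add_pw p hj hij hl hkl, ev_pw p (by omega) hn hmn]
  exact h

lemma good_pw' {p : ℕ → V} {i j k l m n : ℕ} (hj : j < 16) (hij : i < j) (hl : l < 16)
    (hkl : k < l) (hn : n < 16) (hmn : m < n)
    (h : C.d (p i) (p j) + C.d (p k) (p l) ≤ C.d (p m) (p n)) :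
    Good (xv C p) (pw m n) (pw i j + pw k l) 2 := by
  intro _
  refine ⟨?_, (small_pw _ _).mono (by norm_num), small_add_pw _ _ _ _⟩
  rw [ev_add_pw p hj hij hl hkl, ev_pw p (by omega) hn hmn]
  exact h

lemma good_pw_succ {p : ℕ → V} {i j k l m n : ℕ} (hj : j < 16) (hij : i < j) (hl : l < 16)
    (hkl : k < l) (hn : n < 16) (hmn : m < n)
    (h : C.d (p m) (p n) < C.d (p i) (p j) + C.d (p k) (p l)) :
    Good (xv C p) (pw i j + pw k l) (Nat.succ (pw m n)) 2 := by
  intro _
  refine ⟨?_, small_add_pw _ _ _ _, small_succ (small_pw _ _) (by norm_num)⟩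
  rw [ev_add_pw p hj hij hl hkl, ev_succ p (small_pw _ _) (by norm_num),
    ev_pw p (by omega) hn hmn]
  exact h

lemma addmul {x : ℕ → ℕ} {A B b X Y c : ℕ} (lam : ℕ) (h : Good x A B b) (g : Good x X Y c) :
    Good x (Nat.add A (Nat.mul lam X)) (Nat.add B (Nat.mul lam Y)) (Nat.add b (Nat.mul lam c)) :=
  h.add (g.smul lam)

/-! ### the triangle inequality, in the needed shapes -/

section
variable (C)

lemma triA (x y z : V) : C.d y z ≤ C.d x y + C.d x z := by
  have := C.d_tri y x z
  rw [C.d_symm y x] at this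
  exact this

lemma triB (x y z : V) : C.d x z ≤ C.d x y + C.d y z := C.d_tri x y z

lemma triC (x y z : V) : C.d x y ≤ C.d x z + C.d y z := by
  have := C.d_tri x z y
  rw [C.d_symm z y] at this
  exact this

lemma dig_eq_one {x y z : V} (h : C.dig x y z = 1) : C.d x y + C.d x z = C.d y z := by
  unfold Conf.dig at h
  rw [C.d_symm y x] at h
  split_ifs at h <;> omega

lemma dig_eq_two {x y z : V} (h : C.dig x y z = 2) : C.d x y + C.d y z = C.d x z := by
  unfold Conf.dig at h
  split_ifs at h <;> omega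

lemma dig_eq_three {x y z : V} (h : C.dig x y z = 3) : C.d x z + C.d y z = C.d x y := by
  unfold Conf.dig at h
  rw [C.d_symm z y] at h
  split_ifs at h <;> omega

lemma dig_eq_zero {x y z : V} (h : C.dig x y z = 0) :
    C.d x y + C.d x z ≠ C.d y z ∧ C.d x y + C.d y z ≠ C.d x z ∧
      C.d x z + C.d y z ≠ C.d x y := by
  unfold Conf.dig at h
  rw [C.d_symm y x, C.d_symm z y] at h
  split_ifs at h <;> omega

lemma dig_zero_not_coll {x y z : V} (h : C.dig x y z = 0) : ¬ Coll C.d x y z := by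
  obtain ⟨h1, h2, h3⟩ := dig_eq_zero C h
  unfold Coll Btw
  rw [C.d_symm y x, C.d_symm z y]
  rintro (h | h | h)
  · exact h1 h
  · exact h2 h
  · exact h3 h
end

/-! ### terms -/

lemma root_spec {K R i j l v : ℕ} {k : Bool} (h : root K R i j l v k = true) :
    i < j ∧ j < l ∧ l < K ∧ rdig R i j l = v ∧ k = true := by
  unfold root at h
  simp only [Bool.and_eq_true, lt_iff, Nat.beq_eq] at h
  exact h

lemma getH_good {x : ℕ → ℕ} {H : List Hyp} (h : ∀ g ∈ H, Good x g.A g.B g.b) (n : ℕ) :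
    Good x (getH H n).A (getH H n).B (getH H n).b := by
  induction H generalizing n with
  | nil => exact Good.zero x
  | cons a t ih =>
    cases n with
    | zero => exact h a (by simp)
    | succ n => exact ih (fun g hg => h g (by simp [hg])) n

lemma termA_sound {kind lam i j l A B b : ℕ} (hi : i < 16) (hj : j < 16) (hl : l < 16)
    {k : ℕ → ℕ → ℕ → Bool} (h : termA kind lam i j l A B b k = true) :
    ∃ A' B' b', k A' B' b' = true ∧ ∀ p, Good (xv C p) A B b → Good (xv C p) A' B' b' := by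
  unfold termA at h
  split at h
  · unfold tri1 at h
    simp only [Bool.and_eq_true, lt_iff] at h
    obtain ⟨h1, h2, h3⟩ := h
    exact ⟨_, _, _, h3, fun p hg => addmul lam hg
      (good_pw hj h1 hl (by omega) hl h2 (triA C _ _ _))⟩
  · unfold tri2 at h
    simp only [Bool.and_eq_true, lt_iff] at h
    obtain ⟨h1, h2, h3⟩ := h
    exact ⟨_, _, _, h3, fun p hg => addmul lam hg
      (good_pw hj h1 hl h2 hl (by omega) (triB C _ _ _))⟩
  · unfold tri3 at h
    simp only [Bool.and_eq_true, lt_iff] at h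
    obtain ⟨h1, h2, h3⟩ := h
    exact ⟨_, _, _, h3, fun p hg => addmul lam hg
      (good_pw hl (by omega) hl h2 hj h1 (triC C _ _ _))⟩

lemma termB_sound {K R N : ℕ} {H : List Hyp} {T : List Tag} {kind lam i j l A B b : ℕ}
    (hi : i < 16) (hj : j < 16) (hl : l < 16)
    {k : ℕ → ℕ → ℕ → Bool} (h : termB kind K R lam i j l A B b k = true) :
    ∃ A' B' b', k A' B' b' = true ∧ ∀ p, Sat C K R p N H T → Good (xv C p) A B b →
      Good (xv C p) A' B' b' := by
  unfold termB at h
  split at h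
  · obtain ⟨h1, h2, h3, h4, h5⟩ := root_spec h
    unfold mid1 at h5
    refine ⟨_, _, _, h5, fun p hs hg => addmul lam hg
      (good_pw' hj h1 hl (by omega) hl h2 ?_)⟩
    rw [hs.root i j l h1 h2 h3] at h4
    exact (dig_eq_one C h4).le
  · obtain ⟨h1, h2, h3, h4, h5⟩ := root_spec h
    unfold mid2 at h5
    refine ⟨_, _, _, h5, fun p hs hg => addmul lam hg
      (good_pw' hj h1 hl h2 hl (by omega) ?_)⟩
    rw [hs.root i j l h1 h2 h3] at h4
    exact (dig_eq_two C h4).le
  · obtain ⟨h1, h2, h3, h4, h5⟩ := root_spec h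
    unfold mid3 at h5
    refine ⟨_, _, _, h5, fun p hs hg => addmul lam hg
      (good_pw' hl (by omega) hl h2 hj h1 ?_)⟩
    rw [hs.root i j l h1 h2 h3] at h4
    exact (dig_eq_three C h4).le

lemma termC_sound {K R N : ℕ} {H : List Hyp} {T : List Tag} {kind lam i j l A B b : ℕ}
    (hi : i < 16) (hj : j < 16) (hl : l < 16)
    {k : ℕ → ℕ → ℕ → Bool} (h : termC kind K R lam i j l A B b k = true) :
    ∃ A' B' b', k A' B' b' = true ∧ ∀ p, Sat C K R p N H T → Good (xv C p) A B b →
      Good (xv C p) A' B' b' := by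
  unfold termC at h
  split at h
  · obtain ⟨h1, h2, h3, h4, h5⟩ := root_spec h
    unfold str1 at h5
    refine ⟨_, _, _, h5, fun p hs hg => addmul lam hg
      (good_pw_succ hj h1 hl (by omega) hl h2 ?_)⟩
    rw [hs.root i j l h1 h2 h3] at h4
    have := (dig_eq_zero C h4).1
    have := triA C (p i) (p j) (p l)
    omega
  · obtain ⟨h1, h2, h3, h4, h5⟩ := root_spec h
    unfold str2 at h5
    refine ⟨_, _, _, h5, fun p hs hg => addmul lam hg
      (good_pw_succ hj h1 hl h2 hl (by omega) ?_)⟩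
    rw [hs.root i j l h1 h2 h3] at h4
    have := (dig_eq_zero C h4).2.1
    have := triB C (p i) (p j) (p l)
    omega
  · obtain ⟨h1, h2, h3, h4, h5⟩ := root_spec h
    unfold str3 at h5
    refine ⟨_, _, _, h5, fun p hs hg => addmul lam hg
      (good_pw_succ hl (by omega) hl h2 hj h1 ?_)⟩
    rw [hs.root i j l h1 h2 h3] at h4
    have := (dig_eq_zero C h4).2.2
    have := triC C (p i) (p j) (p l)
    omega

lemma small_one : Small 1 1 := small_const (q := 1) (by norm_num)

lemma termD_sound {K R N : ℕ} {H : List Hyp} {T : List Tag} {kind lam i j A B b : ℕ}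
    (hi : i < 16) (hj : j < 16)
    {k : ℕ → ℕ → ℕ → Bool} (h : termD kind K N H lam i j A B b k = true) :
    ∃ A' B' b', k A' B' b' = true ∧ ∀ p, Sat C K R p N H T → Good (xv C p) A B b →
      Good (xv C p) A' B' b' := by
  unfold termD at h
  split at h
  · unfold tpos at h
    simp only [Bool.and_eq_true, lt_iff] at h
    obtain ⟨h1, h2, h3, h4⟩ := h
    refine ⟨_, _, _, h4, fun p hs hg => ?_⟩
    have g : Good (xv C p) (pw i j) 1 1 := by
      intro _
      refine ⟨?_, small_pw _ _, small_one⟩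
      rw [ev_pw p hi hj h2, ev_const (xv_zero p) (q := 1) (by norm_num)]
      apply C.d_pos
      intro he
      by_cases hjK : j < K
      · have := hs.inj i j h1 hjK he
        omega
      · apply hs.notS j (by omega) h3
        rw [← he]
        exact hs.inS i h1
    have := hg.add (g.smul lam)
    simpa using this
  · unfold thyp at h
    exact ⟨_, _, _, h, fun p hs hg => addmul lam hg (getH_good hs.hyps _)⟩
  · unfold tzero at h
    simp only [Bool.and_eq_true, lt_iff] at h
    obtain ⟨h1, h2⟩ := h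
    refine ⟨_, _, _, h2, fun p hs hg => ?_⟩
    have g : Good (xv C p) (pw i j) 0 1 := by
      intro _
      refine ⟨?_, small_pw _ _, small_zero.mono (by norm_num)⟩
      rw [ev_zero]
      exact Nat.zero_le _
    have := hg.add (g.smul lam)
    simpa using this

lemma term_sound {K R N : ℕ} {H : List Hyp} {T : List Tag} {w A B b : ℕ}
    {k : ℕ → ℕ → ℕ → Bool} (h : term K R N H w A B b k = true) :
    ∃ A' B' b', k A' B' b' = true ∧ ∀ p, Sat C K R p N H T → Good (xv C p) A B b →
      Good (xv C p) A' B' b' := by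
  unfold term termE at h
  have hi := fld_lt w 12
  have hj := fld_lt w 16
  have hl := fld_lt w 20
  cases h5 : Nat.ble (fld w 0) 5
  · rw [h5] at h
    cases h8 : Nat.ble (fld w 0) 8
    · rw [h8] at h
      exact termD_sound hi hj h
    · rw [h8] at h
      exact termC_sound hi hj hl h
  · rw [h5] at h
    cases h2 : Nat.ble (fld w 0) 2
    · rw [h2] at h
      exact termB_sound hi hj hl h
    · rw [h2] at h
      obtain ⟨A', B', b', h1, h2⟩ := termA_sound (C := C) hi hj hl h
      exact ⟨A', B', b', h1, fun p _ hg => h2 p hg⟩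

lemma terms_sound {K R N : ℕ} {H : List Hyp} {T : List Tag} {n : ℕ} :
    ∀ {c A B b : ℕ} {k : ℕ → ℕ → ℕ → Bool}, terms K R N H n c A B b k = true →
    ∃ A' B' b', k A' B' b' = true ∧ ∀ p, Sat C K R p N H T → Good (xv C p) A B b →
      Good (xv C p) A' B' b' := by
  induction n with
  | zero =>
    intro c A B b k h
    exact ⟨A, B, b, h, fun _ _ hg => hg⟩
  | succ n ih =>
    intro c A B b k h
    unfold terms at h
    obtain ⟨A1, B1, b1, h1, g1⟩ := term_sound (C := C) (T := T) h
    rw [force_eq] at h1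
    obtain ⟨A2, B2, b2, h2, g2⟩ := ih h1
    exact ⟨A2, B2, b2, h2, fun p hs hg => g2 p hs (g1 p hs hg)⟩

end MP86da66
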