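import Pool.Agent.Lib.MP_86da66_co.LpSound2

namespace MP86da66

variable {V : Type*} {C : Conf V}

/-- the induction statement -/
def RecSound (C : Conf V) (K R : ℕ) (rec : Rec) : Prop :=
  ∀ c N H T k, rec c N H T k = true → (∀ p, ¬ Sat C K R p N H T) ∧ ∃ c', k c' = true

lemma mkH_eq (A B b : ℕ) (k : Hyp → Bool) : mkH A B b k = k ⟨A, B, b⟩ := by
  unfold mkH; rw [force_eq, force_eq]

lemma hPos_eq (a m b : ℕ) (k : Hyp → Bool) :
    hPos a m b k = k ⟨pws a b, pws a m + pws m b, 2⟩ := by
  unfold hPos; rw [mkH_eq]; rfl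

lemma hNeg_eq (a m b : ℕ) (k : Hyp → Bool) :
    hNeg a m b k = k ⟨pws a m + pws m b, Nat.succ (pws a b), 2⟩ := by
  unfold hNeg; rw [mkH_eq]; rfl

section good
variable {p : ℕ → V} {a m b : ℕ} (ha : a < 16) (hm : m < 16) (hb : b < 16)
include ha hm hb

lemma good_hPos (h : C.d (p a) (p m) + C.d (p m) (p b) ≤ C.d (p a) (p b)) :
    Good (xv C p) (pws a b) (pws a m + pws m b) 2 := by
  intro _
  refine ⟨?_, (small_pws _ _).mono (by norm_num), small_add_pws _ _ _ _⟩
  rw [ev_add_pws p ha hm hm hb, ev_pws p ha hb]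
  exact h

lemma good_hNeg (h : C.d (p a) (p b) < C.d (p a) (p m) + C.d (p m) (p b)) :
    Good (xv C p) (pws a m + pws m b) (Nat.succ (pws a b)) 2 := by
  intro _
  refine ⟨?_, small_add_pws _ _ _ _, small_succ (small_pws _ _) (by norm_num)⟩
  rw [ev_add_pws p ha hm hm hb, ev_succ p (small_pws _ _) (by norm_num), ev_pws p ha hb]
  exact h
end good

lemma good_le_one {p : ℕ → V} {i j : ℕ} (hi : i < 16) (hj : j < 16)
    (h : C.d (p i) (p j) ≤ 1) : Good (xv C p) 1 (pws i j) 1 := by
  intro _
  refine ⟨?_, small_one, small_pws _ _⟩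
  rw [ev_pws p hi hj, ev_const (xv_zero p) (q := 1) (by norm_num)]
  exact h

lemma good_ge_one {p : ℕ → V} {i j : ℕ} (hi : i < 16) (hj : j < 16)
    (h : 1 ≤ C.d (p i) (p j)) : Good (xv C p) (pws i j) 1 1 := by
  intro _
  refine ⟨?_, small_pws _ _, small_one⟩
  rw [ev_pws p hi hj, ev_const (xv_zero p) (q := 1) (by norm_num)]
  exact h

lemma good_le {p : ℕ → V} {i j k l : ℕ} (hi : i < 16) (hj : j < 16) (hk : k < 16)
    (hl : l < 16) (h : C.d (p k) (p l) ≤ C.d (p i) (p j)) :
    Good (xv C p) (pws i j) (pws k l) 2 := by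
  intro _
  refine ⟨?_, (small_pws _ _).mono (by norm_num), (small_pws _ _).mono (by norm_num)⟩
  rw [ev_pws p hi hj, ev_pws p hk hl]
  exact h

lemma good_succ_le {p : ℕ → V} {i j k l : ℕ} (hi : i < 16) (hj : j < 16) (hk : k < 16)
    (hl : l < 16) (h : C.d (p k) (p l) ≤ C.d (p i) (p j) + 1) :
    Good (xv C p) (Nat.succ (pws i j)) (pws k l) 2 := by
  intro _
  refine ⟨?_, small_succ (small_pws _ _) (by norm_num), (small_pws _ _).mono (by norm_num)⟩
  rw [ev_succ p (small_pws _ _) (by norm_num), ev_pws p hi hj, ev_pws p hk hl]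
  exact h

lemma good_le_succ {p : ℕ → V} {i j k l : ℕ} (hi : i < 16) (hj : j < 16) (hk : k < 16)
    (hl : l < 16) (h : C.d (p k) (p l) + 1 ≤ C.d (p i) (p j)) :
    Good (xv C p) (pws i j) (Nat.succ (pws k l)) 2 := by
  intro _
  refine ⟨?_, (small_pws _ _).mono (by norm_num), small_succ (small_pws _ _) (by norm_num)⟩
  rw [ev_succ p (small_pws _ _) (by norm_num), ev_pws p hi hj, ev_pws p hk hl]
  exact h

lemma Sat.cons {K R : ℕ} {p : ℕ → V} {N : ℕ} {H : List Hyp} {T : List Tag}
    (hs : Sat C K R p N H T) {A B b : ℕ} (hg : Good (xv C p) A B b) :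
    Sat C K R p N (⟨A, B, b⟩ :: H) T :=
  { hs with
    hyps := by
      intro h hh
      rcases List.mem_cons.mp hh with rfl | hh
      · exact hg
      · exact hs.hyps h hh }

lemma Sat.consT {K R : ℕ} {p : ℕ → V} {N : ℕ} {H : List Hyp} {T : List Tag}
    (hs : Sat C K R p N H T) {t : Tag} (ht : TagOK C K p N t) :
    Sat C K R p N H (t :: T) :=
  { hs with
    tags := by
      intro h hh
      rcases List.mem_cons.mp hh with rfl | hh
      · exact ht
      · exact hs.tags h hh }

/-- adding a point outside `S`. -/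
lemma Sat.extend {K R : ℕ} {p : ℕ → V} {N : ℕ} {H : List Hyp} {T : List Tag}
    (hs : Sat C K R p N H T) (hf : freshH N H = true) {v : V} (hv : ¬ C.S v) :
    Sat C K R (Function.update p N v) (Nat.succ N) H T where
  KN := by have := hs.KN; omega
  inS := by
    intro i hi
    have := hs.KN
    rw [Function.update_of_ne (by omega)]
    exact hs.inS i hi
  inj := by
    intro i j hi hj h
    have := hs.KN
    rw [Function.update_of_ne (by omega), Function.update_of_ne (by omega)] at h
    exact hs.inj i j hi hj h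
  notS := by
    intro j h1 h2
    by_cases h : j = N
    · subst h; rw [Function.update_self]; exact hv
    · rw [Function.update_of_ne h]
      exact hs.notS j h1 (by omega)
  root := by
    intro i j l h1 h2 h3
    have := hs.KN
    rw [Function.update_of_ne (by omega), Function.update_of_ne (by omega),
      Function.update_of_ne (by omega)]
    exact hs.root i j l h1 h2 h3
  hyps := by
    intro h hh
    obtain ⟨h1, h2⟩ := freshH_mem hf h hh
    exact (hs.hyps h hh).update h1 h2
  tags := by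
    intro t ht
    obtain ⟨h1, h2, h3, h4, s, h5, h6, h7⟩ := hs.tags t ht
    have := hs.KN
    refine ⟨h1, by omega, h3, h4, s, h5, ?_, ?_⟩
    · rw [Function.update_of_ne (by omega), Function.update_of_ne (by omega)]
      exact h6
    · rw [Function.update_of_ne (by omega), Function.update_of_ne (by omega),
        Function.update_of_ne (by omega)]
      exact h7

/-! ### paths -/

section path
variable {x y : V} (hx : C.S x) (hy : C.S y) (hxy : x ≠ y)
include hx hy hxy

lemma path_dist_left {s : ℕ} (hs : s ≤ C.d x y) : C.d x (C.path x y s) = s := by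
  have := C.path_dist x y hx hy hxy 0 s (Nat.zero_le _) hs
  rwa [C.path_zero x y hx hy hxy, Nat.sub_zero] at this

lemma path_dist_right {s : ℕ} (hs : s ≤ C.d x y) : C.d (C.path x y s) y = C.d x y - s := by
  have := C.path_dist x y hx hy hxy s (C.d x y) hs le_rfl
  rwa [C.path_end x y hx hy hxy] at this
end path

lemma tagOK_mk {K : ℕ} {p : ℕ → V} {N x y s v : ℕ} (hK : K ≤ v) (hv : v < N)
    (hx : x < K) (hy : y < K) (hxy : x ≠ y) (hSx : C.S (p x)) (hSy : C.S (p y))
    (hne : p x ≠ p y) (hs : 0 < s) (hs2 : s < C.d (p x) (p y))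
    (he : p v = C.path (p x) (p y) s) : TagOK C K p N (mkTag v x y) := by
  unfold mkTag
  cases h : lt x y
  · have hyx : y < x := by
      have : ¬ x < y := by intro h'; rw [← lt_iff, h] at h'; simp at h'
      omega
    simp only [cond_false]
    refine ⟨hK, hv, hyx, hx, C.d (p x) (p y) - s, by omega, ?_, ?_⟩
    · rw [C.d_symm (p y) (p x)]; omega
    · rw [C.path_symm (p x) (p y) hSx hSy hne _ (by omega), he]
      congr 1
      omega
  · have hyx : x < y := lt_iff.mp h
    simp only [cond_true]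
    exact ⟨hK, hv, hyx, hy, s, hs, hs2, he⟩

/-! ### nodes -/

section nodes
variable {K R : ℕ} {rec : Rec} (hr : RecSound C K R rec)
include hr

lemma triple3_sound {N : ℕ} {H : List Hyp} {T : List Tag} {i j l : ℕ} {c : Cert}
    {k : Cert → Bool} (hi : i < 16) (hj : j < 16) (hl : l < 16)
    (h : triple3 rec N H T i j l c k = true) :
    (∀ p, Sat C K R p N H T → ¬ Coll C.d (p i) (p j) (p l)) ∧ ∃ c', k c' = true := by
  unfold triple3 at h
  simp only [hPos_eq] at h
  obtain ⟨h1, c1, h⟩ := hr _ _ _ _ _ h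
  obtain ⟨h2, c2, h⟩ := hr _ _ _ _ _ h
  obtain ⟨h3, c3, h⟩ := hr _ _ _ _ _ h
  refine ⟨fun p hs hc => ?_, c3, h⟩
  rcases hc with hc | hc | hc
  · exact h1 p (hs.cons (good_hPos hj hi hl (le_of_eq hc)))
  · exact h2 p (hs.cons (good_hPos hi hj hl (le_of_eq hc)))
  · exact h3 p (hs.cons (good_hPos hi hl hj (le_of_eq hc)))

lemma tripleQ_sound {N : ℕ} {H : List Hyp} {T : List Tag} {i j l : ℕ} {c : Cert}
    {k : Cert → Bool} (hij : i < j) (hjl : j < l) (hl : l < 16)
    (h : tripleQ K R rec N H T i j l c k = true) :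
    (∀ p, Sat C K R p N H T → ¬ Coll C.d (p i) (p j) (p l)) ∧ ∃ c', k c' = true := by
  unfold tripleQ at h
  cases hlK : lt l K
  · rw [hlK] at h
    exact triple3_sound hr (by omega) (by omega) hl h
  · rw [hlK] at h
    simp only [cond_true, Bool.and_eq_true, Nat.beq_eq] at h
    refine ⟨fun p hs => ?_, c, h.2⟩
    apply dig_zero_not_coll C
    rw [← hs.root i j l hij hjl (lt_iff.mp hlK)]
    exact h.1

lemma nodeQ_sound {a b d e : ℕ} {c : Cert} {N : ℕ} {H : List Hyp} {T : List Tag}
    {k : Cert → Bool} (he : e < 16)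
    (h : nodeQ K R rec a b d e c N H T k = true) :
    (∀ p, ¬ Sat C K R p N H T) ∧ ∃ c', k c' = true := by
  unfold nodeQ at h
  simp only [Bool.and_eq_true, lt_iff] at h
  obtain ⟨hab, hbd, hde, h⟩ := h
  obtain ⟨h1, c1, h⟩ := tripleQ_sound hr hab hbd (by omega) h
  obtain ⟨h2, c2, h⟩ := tripleQ_sound hr hab (by omega) he h
  obtain ⟨h3, c3, h⟩ := tripleQ_sound hr (by omega) hde he h
  obtain ⟨h4, c4, h⟩ := tripleQ_sound hr hbd hde he h
  refine ⟨fun p hs => ?_, c4, h⟩
  rcases C.quad (p a) (p b) (p d) (p e) with hc | hc | hc | hc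
  · exact h1 p hs hc
  · exact h2 p hs hc
  · exact h3 p hs hc
  · exact h4 p hs hc

lemma nodeSplit_sound {a m b q : ℕ} {c : Cert} {N : ℕ} {H : List Hyp} {T : List Tag}
    {k : Cert → Bool} (ha : a < 16) (hm : m < 16) (hb : b < 16)
    (h : nodeSplit rec a m b q c N H T k = true) :
    (∀ p, ¬ Sat C K R p N H T) ∧ ∃ c', k c' = true := by
  unfold nodeSplit at h
  simp only [mkH_eq] at h
  obtain ⟨h1, c1, h⟩ := hr _ _ _ _ _ h
  obtain ⟨h2, c2, h⟩ := hr _ _ _ _ _ h
  refine ⟨fun p hs => ?_, c2, h⟩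
  by_cases hc : C.d (p a) (p m) + C.d (p m) (p b) ≤ C.d (p a) (p b) + q
  · apply h1 p (hs.cons _)
    intro hq
    have hq' : q + 2 < 32768 := hq
    refine ⟨?_, ?_, ?_⟩
    · change ev _ (pws a m + pws m b) ≤ ev _ (pws a b + q)
      rw [ev_add_pws p ha hm hm hb, (small_pws a b).ev_add (small_const (q := q) (by omega))
        (by omega), ev_pws p ha hb, ev_const (xv_zero p) (q := q) (by omega)]
      exact hc
    · exact ((small_pws a b).add (small_const (q := q) (by omega)) (by omega)).mono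
        (by change 1 + q ≤ q + 2; omega)
    · exact (small_add_pws _ _ _ _).mono (by change 2 ≤ q + 2; omega)
  · apply h2 p (hs.cons _)
    intro hq
    have hq' : q + 2 < 32768 := hq
    have hsm : Small (1 + q) (pws a b + q) :=
      (small_pws a b).add (small_const (q := q) (by omega)) (by omega)
    refine ⟨?_, ?_, ?_⟩
    · change ev _ (Nat.succ (pws a b + q)) ≤ ev _ (pws a m + pws m b)
      rw [ev_add_pws p ha hm hm hb, ev_succ p hsm (by omega),
        (small_pws a b).ev_add (small_const (q := q) (by omega))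
        (by omega), ev_pws p ha hb, ev_const (xv_zero p) (q := q) (by omega)]
      omega
    · exact (small_add_pws _ _ _ _).mono (by change 2 ≤ q + 2; omega)
    · exact (small_succ hsm (by omega)).mono (by change 1 + q + 1 ≤ q + 2; omega)

lemma nodeSplitVar_sound {a b q : ℕ} {c : Cert} {N : ℕ} {H : List Hyp} {T : List Tag}
    {k : Cert → Bool} (ha : a < 16) (hb : b < 16)
    (h : nodeSplitVar rec a b q c N H T k = true) :
    (∀ p, ¬ Sat C K R p N H T) ∧ ∃ c', k c' = true := by
  unfold nodeSplitVar at h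
  simp only [mkH_eq] at h
  obtain ⟨h1, c1, h⟩ := hr _ _ _ _ _ h
  obtain ⟨h2, c2, h⟩ := hr _ _ _ _ _ h
  refine ⟨fun p hs => ?_, c2, h⟩
  by_cases hc : C.d (p a) (p b) ≤ q
  · apply h1 p (hs.cons _)
    intro hq
    have hq' : q + 2 < 32768 := hq
    refine ⟨?_, ?_, ?_⟩
    · rw [ev_pws p ha hb, ev_const (xv_zero p) (q := q) (by omega)]
      exact hc
    · exact (small_const (q := q) (by omega)).mono (by change q ≤ q + 2; omega)
    · exact (small_pws _ _).mono (by change 1 ≤ q + 2; omega)
  · apply h2 p (hs.cons _)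
    intro hq
    have hq' : q + 2 < 32768 := hq
    refine ⟨?_, ?_, ?_⟩
    · rw [ev_pws p ha hb, ev_const (xv_zero p) (q := Nat.succ q) (by omega)]
      omega
    · exact (small_pws _ _).mono (by change 1 ≤ q + 2; omega)
    · exact (small_const (q := Nat.succ q) (by omega)).mono (by change q + 1 ≤ q + 2; omega)

end nodes

end MP86da66
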