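import Pool.Agent.Lib.MP_86da66_co.LpSound3

namespace MP86da66

variable {V : Type*} {C : Conf V}

section nodes
variable {K R : ℕ} {rec : Rec} (hr : RecSound C K R rec)

lemma nodeLeaf_sound {N : ℕ} {H : List Hyp} {T : List Tag} {w : ℕ} {k : Bool}
    (h : nodeLeaf K R N H w k = true) : (∀ p, ¬ Sat C K R p N H T) ∧ k = true := by
  unfold nodeLeaf at h
  rw [force_eq, force_eq] at h
  obtain ⟨A, B, b, h1, hg⟩ := terms_sound (C := C) (T := T) h
  simp only [Bool.and_eq_true] at h1
  exact ⟨fun p hs => leafOK_sound (xv_zero p) h1.1 (hg p hs (Good.zero _)), h1.2⟩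

include hr

lemma nodeCut_sound {N : ℕ} {H : List Hyp} {T : List Tag} {w : ℕ} {c : Cert}
    {k : Cert → Bool} (h : nodeCut K R rec w c N H T k = true) :
    (∀ p, ¬ Sat C K R p N H T) ∧ ∃ c', k c' = true := by
  unfold nodeCut at h
  rw [force_eq, force_eq] at h
  obtain ⟨A, B, b, h1, hg⟩ := terms_sound (C := C) (T := T) h
  simp only [Bool.and_eq_true, mkH_eq] at h1
  obtain ⟨h2, h3⟩ := h1
  obtain ⟨h4, c1, h5⟩ := hr _ _ _ _ _ h3
  refine ⟨fun p hs => h4 p (hs.cons (cutOK_sound (xv_zero p) h2 (hg p hs (Good.zero _)))),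
    c1, h5⟩

/-- the common part of the nodes which choose a path between two points of `S`: the two points
are at distance at least two. -/
lemma far_of_refuted {x y : ℕ} {N : ℕ} {H : List Hyp} {T : List Tag}
    (hx : x < 16) (hy : y < 16)
    (h1 : ∀ p, ¬ Sat C K R p N (⟨1, pws x y, 1⟩ :: H) T) (p : ℕ → V)
    (hs : Sat C K R p N H T) : 2 ≤ C.d (p x) (p y) := by
  by_contra hc
  exact h1 p (hs.cons (good_le_one hx hy (by omega)))

lemma beq_not {x y : ℕ} : (Nat.beq x y).not = true ↔ x ≠ y := by
  constructor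
  · intro h he
    subst he
    simp at h
  · intro h
    cases h' : Nat.beq x y
    · rfl
    · exact absurd (Nat.eq_of_beq_eq_true h') h

lemma nodeN_sound {x y : ℕ} {c : Cert} {N : ℕ} {H : List Hyp} {T : List Tag}
    {k : Cert → Bool} (hx16 : x < 16) (hy16 : y < 16)
    (h : nodeN K rec x y c N H T k = true) :
    (∀ p, ¬ Sat C K R p N H T) ∧ ∃ c', k c' = true := by
  unfold nodeN at h
  simp only [Bool.and_eq_true, lt_iff, mkH_eq, beq_not hr] at h
  obtain ⟨hx, hy, hxy, h⟩ := h
  obtain ⟨h1, c1, h⟩ := hr _ _ _ _ _ h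
  simp only [Bool.and_eq_true, lt_iff, hPos_eq] at h
  obtain ⟨⟨hN, hf⟩, h⟩ := h
  obtain ⟨h2, c2, h⟩ := hr _ _ _ _ _ h
  refine ⟨fun p hs => ?_, c2, h⟩
  have hfar := far_of_refuted hr hx16 hy16 h1 p hs
  have hSx := hs.inS x hx
  have hSy := hs.inS y hy
  have hne : p x ≠ p y := fun he => hxy (hs.inj x y hx hy he)
  have hKN := hs.KN
  set v := C.path (p x) (p y) 1 with hv
  have hvS : ¬ C.S v := C.path_notS _ _ hSx hSy hne 1 (by omega) (by omega)
  have hs' := hs.extend hf hvS
  set p' := Function.update p N v with hp'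
  have ex : p' x = p x := Function.update_of_ne (by omega) _ _
  have ey : p' y = p y := Function.update_of_ne (by omega) _ _
  have eN : p' N = v := Function.update_self _ _ _
  have d1 := path_dist_left hSx hSy hne (s := 1) (by omega)
  have d2 := path_dist_right hSx hSy hne (s := 1) (by omega)
  rw [← hv] at d1 d2
  apply h2 p'
  apply Sat.consT
  · apply Sat.cons
    · apply Sat.cons hs'
      apply good_le_one hx16 hN
      rw [ex, eN, d1]
    · apply good_hPos hx16 hN hy16
      rw [ex, ey, eN, d1, d2]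
      omega
  · apply tagOK_mk hKN (Nat.lt_succ_self N) hx hy hxy (s := 1)
    · rw [ex]; exact hSx
    · rw [ey]; exact hSy
    · rw [ex, ey]; exact hne
    · omega
    · rw [ex, ey]; omega
    · rw [ex, ey, eN]

lemma nodeT_sound {x y z : ℕ} {c : Cert} {N : ℕ} {H : List Hyp} {T : List Tag}
    {k : Cert → Bool} (hx16 : x < 16) (hy16 : y < 16) (hz16 : z < 16)
    (h : nodeT K rec x y z c N H T k = true) :
    (∀ p, ¬ Sat C K R p N H T) ∧ ∃ c', k c' = true := by
  unfold nodeT at h
  simp only [Bool.and_eq_true, lt_iff, hNeg_eq, mkH_eq, beq_not hr] at h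
  obtain ⟨hx, hy, hz, hxy, hxz, hyz, h⟩ := h
  obtain ⟨h1, c1, h⟩ := hr _ _ _ _ _ h
  simp only [Bool.and_eq_true, lt_iff, mkH_eq] at h
  obtain ⟨⟨hN, hf⟩, h⟩ := h
  obtain ⟨h2, c2, h⟩ := hr _ _ _ _ _ h
  refine ⟨fun p hs => ?_, c2, h⟩
  have hSx := hs.inS x hx
  have hSy := hs.inS y hy
  have hne : p x ≠ p y := fun he => hxy (hs.inj x y hx hy he)
  have hnz : p x ≠ p z := fun he => hxz (hs.inj x z hx hz he)
  have hnz' : p z ≠ p y := fun he => hyz (hs.inj z y hz hy he).symm
  have hKN := hs.KN
  have hbt : C.d (p x) (p z) + C.d (p z) (p y) ≤ C.d (p x) (p y) := by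
    by_contra hc
    exact h1 p (hs.cons (good_hNeg hx16 hz16 hy16 (by omega)))
  have hbt' := C.d_tri (p x) (p z) (p y)
  have hp1 := C.d_pos _ _ hnz
  have hp2 := C.d_pos _ _ hnz'
  set s := C.d (p x) (p z) with hsd
  set v := C.path (p x) (p y) s with hv
  have hvS : ¬ C.S v := C.path_notS _ _ hSx hSy hne s (by omega) (by omega)
  have hs' := hs.extend hf hvS
  set p' := Function.update p N v with hp'
  have ex : p' x = p x := Function.update_of_ne (by omega) _ _
  have ey : p' y = p y := Function.update_of_ne (by omega) _ _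
  have ez : p' z = p z := Function.update_of_ne (by omega) _ _
  have eN : p' N = v := Function.update_self _ _ _
  have d1 := path_dist_left hSx hSy hne (s := s) (by omega)
  have d2 := path_dist_right hSx hSy hne (s := s) (by omega)
  rw [← hv] at d1 d2
  have d3 : C.d (p y) v = C.d (p y) (p z) := by
    rw [C.d_symm (p y) v, C.d_symm (p y) (p z), d2]
    omega
  apply h2 p'
  apply Sat.consT
  · apply Sat.cons
    · apply Sat.cons
      · apply Sat.cons
        · apply Sat.cons hs'
          apply good_le hx16 hz16 hx16 hN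
          rw [ex, ez, eN, d1]
        · apply good_le hx16 hN hx16 hz16
          rw [ex, ez, eN, d1]
      · apply good_le hy16 hz16 hy16 hN
        rw [ey, ez, eN, d3]
    · apply good_le hy16 hN hy16 hz16
      rw [ey, ez, eN, d3]
  · apply tagOK_mk hKN (Nat.lt_succ_self N) hx hy hxy (s := s)
    · rw [ex]; exact hSx
    · rw [ey]; exact hSy
    · rw [ex, ey]; exact hne
    · omega
    · rw [ex, ey]; omega
    · rw [ex, ey, eN]

lemma nodeOrd_sound {v v' : ℕ} {c : Cert} {N : ℕ} {H : List Hyp} {T : List Tag}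
    {k : Cert → Bool} (hK : K ≤ 16) (hv16 : v < 16) (hv'16 : v' < 16)
    (h : nodeOrd rec v v' (findTag T v) (findTag T v') c N H T k = true) :
    (∀ p, ¬ Sat C K R p N H T) ∧ ∃ c', k c' = true := by
  have hfind : ∀ (T : List Tag) (v : ℕ), findTag T v ∈ T ∨ findTag T v = ⟨0, 0, 0⟩ := by
    intro T v
    induction T with
    | nil => right; rfl
    | cons a T ih =>
      unfold findTag
      cases Nat.beq a.v v
      · simp only [cond_false]
        rcases ih with ih | ih
        · left; exact List.mem_cons_of_mem _ ih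
        · right; exact ih
      · simp only [cond_true]; left; simp
  unfold nodeOrd at h
  simp only [Bool.and_eq_true, lt_iff, hPos_eq, mkH_eq, Nat.beq_eq] at h
  obtain ⟨⟨e1, e2⟩, e3, e4, e5, h⟩ := h
  obtain ⟨h1, c1, h⟩ := hr _ _ _ _ _ h
  obtain ⟨h2, c2, h⟩ := hr _ _ _ _ _ h
  refine ⟨fun p hs => ?_, c2, h⟩
  have m1 : findTag T v ∈ T := by
    rcases hfind T v with hm | hm
    · exact hm
    · rw [hm] at e2; simp at e2
  have m2 : findTag T v' ∈ T := by
    rcases hfind T v' with hm | hm
    · exact hm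
    · rw [hm] at e4 e5; rw [e4, e5] at e2; simp at e2
  obtain ⟨a1, a2, a3, a4, s, a5, a6, a7⟩ := hs.tags _ m1
  obtain ⟨b1, b2, b3, b4, s', b5, b6, b7⟩ := hs.tags _ m2
  set t := findTag T v
  set t' := findTag T v'
  rw [e1] at a1 a2 a7
  rw [e3] at b1 b2 b7
  rw [← e4, ← e5] at b6 b7
  have hSx := hs.inS t.x (by omega)
  have hSy := hs.inS t.y (by omega)
  have hne : p t.x ≠ p t.y := fun he => by
    have := hs.inj t.x t.y (by omega) (by omega) he
    omega
  have d1 := path_dist_left hSx hSy hne (s := s) (by omega)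
  have d2 := path_dist_left hSx hSy hne (s := s') (by omega)
  rw [← a7] at d1
  rw [← b7] at d2
  by_cases hss : s ≤ s'
  · have d3 := C.path_dist _ _ hSx hSy hne s s' hss (by omega)
    rw [← a7, ← b7] at d3
    apply h1 p
    apply hs.cons
    apply good_hPos (by omega) hv16 hv'16
    omega
  · have d3 := C.path_dist _ _ hSx hSy hne s' s (by omega) (by omega)
    rw [← a7, ← b7] at d3
    apply h2 p
    apply Sat.cons
    · apply hs.cons
      apply good_hPos (by omega) hv'16 hv16
      omega
    · apply good_le_succ (by omega) hv16 (by omega) hv'16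
      omega

/-- the relation of a turning pair -/
def relV (C : Conf V) (md : ℕ) (a b v : V) : Prop :=
  if md = 0 then C.d a v + C.d v b ≤ C.d a b else C.d v a + C.d a b ≤ C.d v b

omit hr in
lemma relP_cons {md z1 z2 v : ℕ} {k : Hyp → Bool} (h : relP md z1 z2 v k = true)
    (h1 : z1 < 16) (h2 : z2 < 16) (hv : v < 16) :
    ∃ g : Hyp, k g = true ∧ ∀ p : ℕ → V, relV C md (p z1) (p z2) (p v) →
      Good (xv C p) g.A g.B g.b := by
  unfold relP at h
  cases hm : Nat.beq md 0
  · rw [hm] at h
    simp only [cond_false, hPos_eq] at h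
    refine ⟨_, h, fun p hp => ?_⟩
    unfold relV at hp
    rw [if_neg (by intro h0; subst h0; simp at hm)] at hp
    exact good_hPos hv h1 h2 hp
  · rw [hm] at h
    simp only [cond_true, hPos_eq] at h
    refine ⟨_, h, fun p hp => ?_⟩
    unfold relV at hp
    rw [if_pos (Nat.eq_of_beq_eq_true hm)] at hp
    exact good_hPos h1 hv h2 hp

omit hr in
lemma relN_cons {md z1 z2 v : ℕ} {k : Hyp → Bool} (h : relN md z1 z2 v k = true)
    (h1 : z1 < 16) (h2 : z2 < 16) (hv : v < 16) :
    ∃ g : Hyp, k g = true ∧ ∀ p : ℕ → V, ¬ relV C md (p z1) (p z2) (p v) →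
      Good (xv C p) g.A g.B g.b := by
  unfold relN at h
  cases hm : Nat.beq md 0
  · rw [hm] at h
    simp only [cond_false, hNeg_eq] at h
    refine ⟨_, h, fun p hp => ?_⟩
    unfold relV at hp
    rw [if_neg (by intro h0; subst h0; simp at hm)] at hp
    exact good_hNeg hv h1 h2 (by omega)
  · rw [hm] at h
    simp only [cond_true, hNeg_eq] at h
    refine ⟨_, h, fun p hp => ?_⟩
    unfold relV at hp
    rw [if_pos (Nat.eq_of_beq_eq_true hm)] at hp
    exact good_hNeg h1 hv h2 (by omega)

omit hr in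
/-- the last index where a property holds -/
lemma exists_turn {P : ℕ → Prop} {L : ℕ} (h0 : P 0) (hL : ¬ P L) :
    ∃ t, t < L ∧ P t ∧ ¬ P (t + 1) := by
  by_contra hcon
  push Not at hcon
  have : ∀ t, t ≤ L → P t := by
    intro t
    induction t with
    | zero => intro _; exact h0
    | succ t ih => intro ht; exact hcon t (by omega) (ih (by omega))
  exact hL (this L le_rfl)

lemma turn1_sound {x y z1 z2 md : ℕ} {c : Cert} {N : ℕ} {H : List Hyp} {T : List Tag}
    {k : Cert → Bool} (hx : x < K) (hy : y < K) (hz1 : z1 < K) (hz2 : z2 < K) (hxy : x ≠ y)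
    (hK : K ≤ 16) (hN : N < 16) (hf : freshH N H = true)
    (h : turn1 rec x y z1 z2 md c N H T k = true) :
    (∀ p, Sat C K R p N H T → 2 ≤ C.d (p x) (p y) →
      relV C md (p z1) (p z2) (C.path (p x) (p y) 1)) ∧ ∃ c', k c' = true := by
  unfold turn1 at h
  simp only [mkH_eq, hPos_eq] at h
  obtain ⟨g, h, hg⟩ := relN_cons (C := C) h (by omega) (by omega) hN
  obtain ⟨h2, c2, h⟩ := hr _ _ _ _ _ h
  refine ⟨fun p hs hfar => ?_, c2, h⟩
  by_contra hrel
  have hSx := hs.inS x hx
  have hSy := hs.inS y hy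
  have hne : p x ≠ p y := fun he => hxy (hs.inj x y hx hy he)
  have hKN := hs.KN
  set v := C.path (p x) (p y) 1 with hv
  have hvS : ¬ C.S v := C.path_notS _ _ hSx hSy hne 1 (by omega) (by omega)
  have hs' := hs.extend hf hvS
  set p' := Function.update p N v with hp'
  have ex : p' x = p x := Function.update_of_ne (by omega) _ _
  have ey : p' y = p y := Function.update_of_ne (by omega) _ _
  have ez1 : p' z1 = p z1 := Function.update_of_ne (by omega) _ _
  have ez2 : p' z2 = p z2 := Function.update_of_ne (by omega) _ _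
  have eN : p' N = v := Function.update_self _ _ _
  have d1 := path_dist_left hSx hSy hne (s := 1) (by omega)
  have d2 := path_dist_right hSx hSy hne (s := 1) (by omega)
  rw [← hv] at d1 d2
  apply h2 p'
  apply Sat.consT
  · apply Sat.cons
    · apply Sat.cons
      · apply Sat.cons hs'
        apply good_le_one (by omega) hN
        rw [ex, eN, d1]
      · apply good_hPos (by omega) hN (by omega)
        rw [ex, ey, eN, d1, d2]
        omega
    · apply hg
      rw [ez1, ez2, eN]
      exact hrel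
  · apply tagOK_mk hKN (Nat.lt_succ_self N) hx hy hxy (s := 1)
    · rw [ex]; exact hSx
    · rw [ey]; exact hSy
    · rw [ex, ey]; exact hne
    · omega
    · rw [ex, ey]; omega
    · rw [ex, ey, eN]

lemma turn2_sound {x y z1 z2 md : ℕ} {c : Cert} {N : ℕ} {H : List Hyp} {T : List Tag}
    {k : Cert → Bool} (hx : x < K) (hy : y < K) (hz1 : z1 < K) (hz2 : z2 < K) (hxy : x ≠ y)
    (hK : K ≤ 16) (hN : N < 16) (hf : freshH N H = true)
    (h : turn2 rec x y z1 z2 md c N H T k = true) :
    (∀ p, Sat C K R p N H T → ∀ s, 1 ≤ s → s + 1 = C.d (p x) (p y) →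
      ¬ relV C md (p z1) (p z2) (C.path (p x) (p y) s)) ∧ ∃ c', k c' = true := by
  unfold turn2 at h
  simp only [mkH_eq, hPos_eq] at h
  obtain ⟨g, h, hg⟩ := relP_cons (C := C) h (by omega) (by omega) hN
  obtain ⟨h2, c2, h⟩ := hr _ _ _ _ _ h
  refine ⟨fun p hs s hs1 hs2 hrel => ?_, c2, h⟩
  have hSx := hs.inS x hx
  have hSy := hs.inS y hy
  have hne : p x ≠ p y := fun he => hxy (hs.inj x y hx hy he)
  have hKN := hs.KN
  set v := C.path (p x) (p y) s with hv
  have hvS : ¬ C.S v := C.path_notS _ _ hSx hSy hne s (by omega) (by omega)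
  have hs' := hs.extend hf hvS
  set p' := Function.update p N v with hp'
  have ex : p' x = p x := Function.update_of_ne (by omega) _ _
  have ey : p' y = p y := Function.update_of_ne (by omega) _ _
  have ez1 : p' z1 = p z1 := Function.update_of_ne (by omega) _ _
  have ez2 : p' z2 = p z2 := Function.update_of_ne (by omega) _ _
  have eN : p' N = v := Function.update_self _ _ _
  have d1 := path_dist_left hSx hSy hne (s := s) (by omega)
  have d2 := path_dist_right hSx hSy hne (s := s) (by omega)
  rw [← hv] at d1 d2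
  have d3 : C.d (p y) v = 1 := by rw [C.d_symm, d2]; omega
  apply h2 p'
  apply Sat.consT
  · apply Sat.cons
    · apply Sat.cons
      · apply Sat.cons hs'
        apply good_le_one (by omega) hN
        rw [ey, eN, d3]
      · apply good_hPos (by omega) hN (by omega)
        rw [ex, ey, eN, d1, d2]
        omega
    · apply hg
      rw [ez1, ez2, eN]
      exact hrel
  · apply tagOK_mk hKN (Nat.lt_succ_self N) hx hy hxy (s := s)
    · rw [ex]; exact hSx
    · rw [ey]; exact hSy
    · rw [ex, ey]; exact hne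
    · omega
    · rw [ex, ey]; omega
    · rw [ex, ey, eN]

lemma turn3_sound {x y z1 z2 md : ℕ} {c : Cert} {N : ℕ} {H : List Hyp} {T : List Tag}
    {k : Cert → Bool} (hx : x < K) (hy : y < K) (hz1 : z1 < K) (hz2 : z2 < K) (hxy : x ≠ y)
    (hK : K ≤ 16) (hN : N + 1 < 16) (hf : freshH N H = true) (hf2 : freshH (N + 1) H = true)
    (h : turn3 rec x y z1 z2 md c N (Nat.succ N) H T k = true) :
    (∀ p, Sat C K R p N H T → ∀ s, 1 ≤ s → s + 1 < C.d (p x) (p y) →
      relV C md (p z1) (p z2) (C.path (p x) (p y) s) →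
      relV C md (p z1) (p z2) (C.path (p x) (p y) (s + 1))) ∧ ∃ c', k c' = true := by
  unfold turn3 at h
  simp only [mkH_eq, hPos_eq] at h
  obtain ⟨g, h, hg⟩ := relP_cons (C := C) h (by omega) (by omega) (by omega)
  obtain ⟨g', h, hg'⟩ := relN_cons (C := C) h (by omega) (by omega) (by omega)
  obtain ⟨h2, c2, h⟩ := hr _ _ _ _ _ h
  refine ⟨fun p hs s hs1 hs2 hrel => ?_, c2, h⟩
  by_contra hrel'
  have hSx := hs.inS x hx
  have hSy := hs.inS y hy
  have hne : p x ≠ p y := fun he => hxy (hs.inj x y hx hy he)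
  have hKN := hs.KN
  set u := C.path (p x) (p y) s with hu
  set v := C.path (p x) (p y) (s + 1) with hv
  have huS : ¬ C.S u := C.path_notS _ _ hSx hSy hne s (by omega) (by omega)
  have hvS : ¬ C.S v := C.path_notS _ _ hSx hSy hne (s + 1) (by omega) (by omega)
  have hs' := (hs.extend hf huS).extend hf2 hvS
  set p' := Function.update (Function.update p N u) (Nat.succ N) v with hp'
  have ex : p' x = p x := by
    rw [hp', Function.update_of_ne (by omega), Function.update_of_ne (by omega)]
  have ey : p' y = p y := by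
    rw [hp', Function.update_of_ne (by omega), Function.update_of_ne (by omega)]
  have ez1 : p' z1 = p z1 := by
    rw [hp', Function.update_of_ne (by omega), Function.update_of_ne (by omega)]
  have ez2 : p' z2 = p z2 := by
    rw [hp', Function.update_of_ne (by omega), Function.update_of_ne (by omega)]
  have eN : p' N = u := by
    rw [hp', Function.update_of_ne (by omega), Function.update_self]
  have eM : p' (Nat.succ N) = v := by rw [hp', Function.update_self]
  have d1 := path_dist_left hSx hSy hne (s := s) (by omega)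
  have d2 := path_dist_right hSx hSy hne (s := s) (by omega)
  have d1' := path_dist_left hSx hSy hne (s := s + 1) (by omega)
  have d2' := path_dist_right hSx hSy hne (s := s + 1) (by omega)
  have d3 := C.path_dist _ _ hSx hSy hne s (s + 1) (by omega) (by omega)
  rw [← hu] at d1 d2 d3
  rw [← hv] at d1' d2' d3
  have d4 : C.d u v = 1 := by omega
  have hM16 : Nat.succ N < 16 := hN
  have hN16 : N < 16 := by omega
  have hx16 : x < 16 := by omega
  have hy16 : y < 16 := by omega
  apply h2 p'
  have base := hs'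
  have s0 := base.cons (A := 1) (B := pws N (Nat.succ N)) (b := 1)
    (good_le_one hN16 hM16 (by rw [eN, eM, d4]))
  have s1 := s0.cons (A := pws N (Nat.succ N)) (B := 1) (b := 1)
    (good_ge_one hN16 hM16 (by rw [eN, eM, d4]))
  have s2 := s1.cons (good_hPos hx16 hN16 hy16 (by rw [ex, ey, eN, d1, d2]; omega))
  have s3 := s2.cons (good_hPos hx16 hM16 hy16 (by rw [ex, ey, eM, d1', d2']; omega))
  have s4 := s3.cons (A := Nat.succ (pws x N)) (B := pws x (Nat.succ N)) (b := 2)
    (good_succ_le hx16 hN16 hx16 hM16 (by rw [ex, eN, eM, d1, d1']))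
  have s5 := s4.cons (A := pws x (Nat.succ N)) (B := Nat.succ (pws x N)) (b := 2)
    (good_le_succ hx16 hM16 hx16 hN16 (by rw [ex, eN, eM, d1, d1']))
  have s6 := s5.cons (hg p' (by rw [ez1, ez2, eN]; exact hrel))
  have s7 := s6.cons (hg' p' (by rw [ez1, ez2, eM]; exact hrel'))
  apply Sat.consT
  · apply Sat.consT
    · exact s7
    · apply tagOK_mk hKN (by omega) hx hy hxy (s := s)
      · rw [ex]; exact hSx
      · rw [ey]; exact hSy
      · rw [ex, ey]; exact hne
      · omega
      · rw [ex, ey]; omega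
      · rw [ex, ey, eN]
  · apply tagOK_mk (by omega) (by omega) hx hy hxy (s := s + 1)
    · rw [ex]; exact hSx
    · rw [ey]; exact hSy
    · rw [ex, ey]; exact hne
    · omega
    · rw [ex, ey]; omega
    · rw [ex, ey, eM]

lemma nodeTurn_sound {x y z1 z2 md : ℕ} {c : Cert} {N : ℕ} {H : List Hyp} {T : List Tag}
    {k : Cert → Bool} (hK : K ≤ 16)
    (h : nodeTurn K rec x y z1 z2 md c N H T k = true) :
    (∀ p, ¬ Sat C K R p N H T) ∧ ∃ c', k c' = true := by
  unfold nodeTurn at h
  simp only [Bool.and_eq_true, lt_iff, beq_not hr] at h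
  obtain ⟨hx, hy, hz1, hz2, hxy, h⟩ := h
  obtain ⟨gb, h, hgb⟩ := relN_cons (C := C) h (by omega) (by omega) (by omega)
  obtain ⟨hB, cB, h⟩ := hr _ _ _ _ _ h
  obtain ⟨ga, h, hga⟩ := relP_cons (C := C) h (by omega) (by omega) (by omega)
  obtain ⟨hA, cA, h⟩ := hr _ _ _ _ _ h
  simp only [mkH_eq] at h
  obtain ⟨hG, cG, h⟩ := hr _ _ _ _ _ h
  simp only [Bool.and_eq_true, lt_iff] at h
  obtain ⟨⟨hN, hf⟩, hf2, h⟩ := h
  obtain ⟨h1, c1, h⟩ := turn1_sound hr hx hy hz1 hz2 hxy hK (by omega) hf h
  obtain ⟨h2, c2, h⟩ := turn2_sound hr hx hy hz1 hz2 hxy hK (by omega) hf h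
  obtain ⟨h3, c3, h⟩ := turn3_sound hr hx hy hz1 hz2 hxy hK hN hf hf2 h
  refine ⟨fun p hs => ?_, c3, h⟩
  have hfar := far_of_refuted hr (by omega) (by omega) hG p hs
  have hSx := hs.inS x hx
  have hSy := hs.inS y hy
  have hne : p x ≠ p y := fun he => hxy (hs.inj x y hx hy he)
  have hRx : relV C md (p z1) (p z2) (p x) := by
    by_contra hc
    exact hB p (hs.cons (hgb p hc))
  have hRy : ¬ relV C md (p z1) (p z2) (p y) := fun hc => hA p (hs.cons (hga p hc))
  obtain ⟨t, ht, ht1, ht2⟩ := exists_turn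
    (P := fun t => relV C md (p z1) (p z2) (C.path (p x) (p y) t)) (L := C.d (p x) (p y))
    (by rw [C.path_zero _ _ hSx hSy hne]; exact hRx)
    (by rw [C.path_end _ _ hSx hSy hne]; exact hRy)
  rcases Nat.eq_zero_or_pos t with h0 | h0
  · subst h0
    exact ht2 (h1 p hs hfar)
  · by_cases he : t + 1 = C.d (p x) (p y)
    · exact h2 p hs t h0 he ht1
    · exact ht2 (h3 p hs t h0 (by omega) ht1)

end nodes

lemma fldB_lt (w s : ℕ) : fldB w s < 256 := by
  unfold fldB
  have : Nat.land (Nat.shiftRight w s) 255 = (w >>> s) % 256 := by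
    have := Nat.and_two_pow_sub_one_eq_mod (w >>> s) 8
    simpa using this
  rw [this]
  exact Nat.mod_lt _ (by norm_num)

lemma node_sound {K R : ℕ} (hK : K ≤ 16) {rec : Rec} (hr : RecSound C K R rec)
    {w : ℕ} {c : Cert} {N : ℕ} {H : List Hyp} {T : List Tag} {k : Cert → Bool}
    (h : node K R rec w c N H T k = true) :
    (∀ p, ¬ Sat C K R p N H T) ∧ ∃ c', k c' = true := by
  unfold node at h
  split at h
  · obtain ⟨h1, h2⟩ := nodeLeaf_sound (C := C) (T := T) h
    exact ⟨h1, c, h2⟩
  · exact nodeCut_sound hr h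
  · simp only [force_eq] at h
    exact nodeQ_sound hr (fld_lt _ _) h
  · simp only [force_eq] at h
    exact nodeSplit_sound hr (fld_lt _ _) (fld_lt _ _) (fld_lt _ _) h
  · simp only [force_eq] at h
    exact nodeSplitVar_sound hr (fld_lt _ _) (fld_lt _ _) h
  · simp only [force_eq] at h
    exact nodeN_sound hr (fld_lt _ _) (fld_lt _ _) h
  · simp only [force_eq] at h
    exact nodeT_sound hr (fld_lt _ _) (fld_lt _ _) (fld_lt _ _) h
  · simp only [force_eq] at h
    exact nodeTurn_sound hr hK h
  · simp only [force_eq] at h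
    exact nodeOrd_sound hr hK (fld_lt _ _) (fld_lt _ _) h
  · simp at h

lemma chk_sound {K R : ℕ} (hK : K ≤ 16) (f : ℕ) : RecSound C K R (chk K R f) := by
  induction f with
  | zero => intro c N H T k h; simp [chk] at h
  | succ f ih =>
    intro c N H T k h
    unfold chk at h
    cases c with
    | nil => simp [chkBody] at h
    | cons w c =>
      change force w (fun w => node K R (chk K R f) w c N H T k) = true at h
      rw [force_eq] at h
      exact node_sound hK ih h

/-- The main soundness statement. -/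
theorem kill_sound (C : Conf V) {K R : ℕ} (hK : K ≤ 16) {c : Cert} (h : kill K R c = true)
    (s : ℕ → V) (hs : C.Tup K s)
    (hroot : ∀ i j l, i < j → j < l → l < K → rdig R i j l = C.dig (s i) (s j) (s l)) :
    False := by
  obtain ⟨h1, _⟩ := chk_sound (C := C) hK 100 c K [] [] _ h
  exact h1 s
    { KN := le_rfl
      inS := hs.mem
      inj := hs.inj
      notS := by intro j h1 h2; omega
      root := hroot
      hyps := by intro h hh; simp at hh
      tags := by intro t ht; simp at ht }

end MP86da66
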