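import Pool.Agent.Lib.MP_86da66_co.EnumSound3
import Pool.Agent.Lib.MP_86da66_co.Data4
import Pool.Agent.Lib.MP_86da66_co.Data5
import Pool.Agent.Lib.MP_86da66_co.Data8a
import Pool.Agent.Lib.MP_86da66_co.Data8b
import Pool.Agent.Lib.MP_86da66_co.Data8c
import Pool.Agent.Lib.MP_86da66_co.DataE0
import Pool.Agent.Lib.MP_86da66_co.DataE1
import Pool.Agent.Lib.MP_86da66_co.DataE2
import Pool.Agent.Lib.MP_86da66_co.DataE3

/-! The abstract situation is impossible. -/

namespace MP86da66

variable {V : Type*} {C : Conf V}

theorem b8_eq : eqL B8 (L8a.map Prod.fst ++ (L8b.map Prod.fst ++ L8c.map Prod.fst)) = true := by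
  decide +kernel

lemma qs_all : ∀ q < 256, M4.testBit q = true → q ∈ qs := by
  decide +kernel

lemma b8_bad : AllBad C 8 B8 := by
  rw [eqL_sound b8_eq]
  intro c hc
  rcases List.mem_append.mp hc with hc | hc
  · exact kills_sound (by norm_num) l8a_ok c hc
  · rcases List.mem_append.mp hc with hc | hc
    · exact kills_sound (by norm_num) l8b_ok c hc
    · exact kills_sound (by norm_num) l8c_ok c hc

/-- there are five points of `S` -/
lemma exists_tup [Nonempty V] (C : Conf V) : ∀ k ≤ 5, ∃ s, C.Tup k s := by
  intro k
  induction k with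
  | zero =>
    intro _
    exact ⟨fun _ => Classical.arbitrary V, fun i hi => by omega, fun i j hi => by omega⟩
  | succ k ih =>
    intro hk
    obtain ⟨s, hs⟩ := ih (by omega)
    obtain ⟨y, hy, hne⟩ := C.more k s (by omega) hs.mem
    refine ⟨Function.update s k y, ?_, ?_⟩
    · intro i hi
      by_cases h : i = k
      · subst h; rw [Function.update_self]; exact hy
      · rw [Function.update_of_ne h]; exact hs.mem i (by omega)
    · intro i j hi hj he
      by_cases h1 : i = k
      · by_cases h2 : j = k
        · omega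
        · subst h1
          rw [Function.update_self, Function.update_of_ne h2] at he
          exact absurd he.symm (hne j (by omega))
      · by_cases h2 : j = k
        · subst h2
          rw [Function.update_self, Function.update_of_ne h1] at he
          exact absurd he (hne i (by omega))
        · rw [Function.update_of_ne h1, Function.update_of_ne h2] at he
          exact hs.inj i j (by omega) (by omega) he

theorem no_conf [Nonempty V] (C : Conf V) : False := by
  have hM4 : HM4 C := hM4_of l4_ok l4_mask
  -- the masks of all patterns satisfying the four-point conditions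
  obtain ⟨M, h, hM⟩ := init4_sound hM4 e0_ok
  have hM : HM C M := fun t ht => hM t ht (Or.inl (qs_all _ (Q5_lt t)
    (hM4 t (ht.mono (by norm_num)))))
  -- remove the refuted patterns of five points
  obtain ⟨M', hM', h⟩ := clrAll_sound (kills5_sound l5_ok) hM h
  rw [eqM_sound h] at hM'
  -- the three parts of the enumeration
  obtain ⟨M1', P1', Q1', hM1, hP1, hQ1, h⟩ := runSeeds_sound hM4 b8_bad hM'
    (by intro c hc; simp at hc) (by intro c hc; simp at hc) e1_ok
  simp only [Bool.and_eq_true] at h
  rw [eqM_sound h.1] at hM1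
  rw [eqL_sound h.2.1] at hP1
  rw [eqL_sound h.2.2] at hQ1
  obtain ⟨M2', P2', Q2', hM2, hP2, hQ2, h⟩ := runSeeds_sound hM4 b8_bad hM1 hP1 hQ1 e2_ok
  simp only [Bool.and_eq_true] at h
  rw [eqM_sound h.1] at hM2
  rw [eqL_sound h.2.1] at hP2
  rw [eqL_sound h.2.2] at hQ2
  obtain ⟨M3, P3, Q3, hM3, hP3, hQ3, h⟩ := runSeeds_sound hM4 b8_bad hM2 hP2 hQ2 e3_ok
  obtain ⟨s, hs⟩ := exists_tup C 5 le_rfl
  have := hM3 s hs
  rw [allZero_sound h] at this
  exact absurd this (by simp)

end MP86da66
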